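import Pool.Agent.Lib.MP_fec922_lc.Grow

/-!
The algorithm on instances with integer costs: guess the root and the budget, solve, and keep the
cheapest candidate that passes the check.
-/

namespace Pool.Agent.Lib.MP_fec922_lc

open Finset Pool.Agent.Shared.PolyTime

attribute [local fun_prop] PB.comp

variable {α : Type} [N487b59b3 α]

abbrev IInst := List ℕ × List (List (Bool × ℕ)) × List (List ℕ)

def ent (I : IInst) (u w : ℕ) : Bool × ℕ := (I.2.1.getD (min u w) []).getD (max u w) (false, 0)

def ci (I : IInst) (u w : ℕ) : ℕ := (ent I u w).2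

def adj (I : IInst) (u w : ℕ) : Bool :=
  decide (u < I.1.length) && decide (w < I.1.length) && u != w && (ent I u w).1

def iH (I : IInst) : ℕ := pH I.1.length I.2.2.length

def iM (I : IInst) : ℕ := pm I.1.length (iH I) I.2.2.length

def scost (I : IInst) (B u w : ℕ) : ℕ :=
  cond (adj I u w && decide (ci I u w ≤ B)) (ci I u w * I.1.length / B)
    (palpha (iH I) (iM I) * I.1.length + 1)

def ctx (I : IInst) (r B : ℕ) : Ctx where
  n := I.1.length
  h := iH I
  k := I.2.2.length
  T := pT I.1.length (iH I) I.2.2.length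
  th := pth I.1.length (iH I) I.2.2.length
  r := r
  m := iM I
  X := fun _ _ => 0
  c := scost I B
  b := fun v => min (g1 I.1 v) I.1.length
  mu := fun _ _ => 0
  mem := fun g v => decide (v ∈ I.2.2.getD g [])
  ht := fun _ _ => 0

def cand (I : IInst) (r B : ℕ) : List ℕ × List (ℕ × ℕ) :=
  grow I.1.length ((ctx I r B).solve.2.filter fun e => adj I e.1 e.2) ((ctx I r B).solve.1.headD r)

def total (I : IInst) : ℕ := sm I.1.length fun u => sm I.1.length fun w => ci I u w

def budgets (I : IInst) : List ℕ :=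
  0 :: (List.range (sz (total I))).map fun i => 2 ^ (min i (sz (total I)))

def candsAll (I : IInst) : List (List ℕ × List (ℕ × ℕ)) :=
  (tab I.1.length fun v => ([v], [])) ++
    (List.range I.1.length).flatMap fun r => (budgets I).map fun B => cand I r B

def check (I : IInst) (p : List ℕ × List (ℕ × ℕ)) : Bool :=
  p.1.all (fun v => decide (v < I.1.length)) && I.2.2.all (fun g => g.any fun v => decide (v ∈ p.1)) &&
    (List.range I.1.length).all fun v =>
      decide (inc v p.2 ≤ pbeta I.1.length (iH I) (iM I) * g1 I.1 v)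

def algI (I : IInst) : List ℕ × List (ℕ × ℕ) :=
  lcase ((candsAll I).filter (check I)) ([], []) fun x xs => amin (fun p => wt (ci I) p.2) x xs

section
variable {I : α → IInst} {u w r B : α → ℕ}

@[fun_prop] theorem ent_pt (hI : PT I) (hu : PT u) (hw : PT w) :
    PT (fun a => ent (I a) (u a) (w a)) := by
  unfold ent; fun_prop
@[fun_prop] theorem ci_pt (hI : PT I) (hu : PT u) (hw : PT w) :
    PT (fun a => ci (I a) (u a) (w a)) := by
  unfold ci; fun_prop
@[fun_prop] theorem adj_pt (hI : PT I) (hu : PT u) (hw : PT w) :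
    PT (fun a => adj (I a) (u a) (w a)) := by
  unfold adj; fun_prop
@[fun_prop] theorem iH_pt (hI : PT I) : PT (fun a => iH (I a)) := by unfold iH pH; fun_prop
@[fun_prop] theorem iH_pb (hI : PT I) : PB (fun a => iH (I a)) := by unfold iH pH; fun_prop
@[fun_prop] theorem iM_pt (hI : PT I) : PT (fun a => iM (I a)) := by
  unfold iM pm pT ps pN pW; fun_prop
@[fun_prop] theorem iM_pb (hI : PT I) : PB (fun a => iM (I a)) := by
  unfold iM pm pT ps pN pW; fun_prop
@[fun_prop] theorem scost_pt (hI : PT I) (hB : PT B) (hu : PT u) (hw : PT w) :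
    PT (fun a => scost (I a) (B a) (u a) (w a)) := by
  unfold scost; fun_prop
@[fun_prop] theorem ctx_pt (hI : PT I) (hr : PT r) (hB : PT B) :
    CPT (fun a => ctx (I a) (r a) (B a)) := by
  unfold CPT ctx pth pT ps pN pW
  refine ⟨⟨?_, ?_⟩, ⟨?_, ?_⟩, ⟨?_, ?_⟩, ⟨?_, ?_⟩, ?_, ?_, ⟨?_, ?_⟩, ?_, ?_, ?_, ?_, ?_, ?_⟩ <;>
    dsimp only <;> fun_prop
@[fun_prop] theorem cand_pt (hI : PT I) (hr : PT r) (hB : PT B) :
    PT (fun a => cand (I a) (r a) (B a)) := by
  have h := solve_pt (ctx_pt hI hr hB)
  unfold cand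
  exact grow_pt (by fun_prop) (by fun_prop)
    (PT.filter (h := fun a e => adj (I a) e.1 e.2) h.snd (by fun_prop)) (h.fst.headD hr)
@[fun_prop] theorem total_pt (hI : PT I) : PT (fun a => total (I a)) := by
  unfold total; fun_prop
@[fun_prop] theorem budgets_pt (hI : PT I) : PT (fun a => budgets (I a)) := by
  unfold budgets; fun_prop
@[fun_prop] theorem candsAll_pt (hI : PT I) : PT (fun a => candsAll (I a)) := by
  unfold candsAll; fun_prop
@[fun_prop] theorem check_pt {p : α → List ℕ × List (ℕ × ℕ)} (hI : PT I) (hp : PT p) :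
    PT (fun a => check (I a) (p a)) := by
  unfold check; fun_prop
@[fun_prop] theorem algI_pt (hI : PT I) : PT (fun a => algI (I a)) := by
  unfold algI; fun_prop

end

theorem ent_comm (I : IInst) (u w : ℕ) : ent I u w = ent I w u := by
  simp only [ent, min_comm u w, max_comm u w]

theorem ci_comm (I : IInst) (u w : ℕ) : ci I u w = ci I w u := by
  simp only [ci, ent_comm _ u w]

theorem adj_comm (I : IInst) (u w : ℕ) : adj I u w = adj I w u := by
  simp only [adj, ent_comm _ u w, bne_comm (a := u), Bool.and_comm (decide (u < _))]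

theorem check_iff {I : IInst} {p : List ℕ × List (ℕ × ℕ)} : check I p = true ↔
    (∀ v ∈ p.1, v < I.1.length) ∧ (∀ g ∈ I.2.2, ∃ v ∈ g, v ∈ p.1) ∧
      ∀ v < I.1.length, inc v p.2 ≤ pbeta I.1.length (iH I) (iM I) * g1 I.1 v := by
  simp [check, and_assoc]

/-- A feasible solution, given by its edge relation and its vertex set. -/
structure ISol (I : IInst) (te : ℕ → ℕ → Bool) (tv : ℕ → Prop) : Prop where
  symm : ∀ u w, te u w = te w u
  adj : ∀ u w, te u w = true → adj I u w = true
  ends : ∀ u w, te u w = true → tv u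
  lt : ∀ v, tv v → v < I.1.length
  ne : ∃ v, tv v
  conn : ∀ a v, tv a → tv v → ∃ l, Ch a l v ∧ ∀ e ∈ l, te e.1 e.2 = true
  deg : ∀ v < I.1.length, ∑ w ∈ range I.1.length, (te v w).toNat ≤ g1 I.1 v
  cover : ∀ g ∈ I.2.2, ∃ v ∈ g, tv v

theorem cand_good {I : IInst} {te : ℕ → ℕ → Bool} {tv : ℕ → Prop} (S : ISol I te tv)
    (hb : ∀ v < I.1.length, 1 ≤ g1 I.1 v) {r B : ℕ} (hr : tv r) (hg : ∃ g ∈ I.2.2, r ∉ g)
    (hB : ∑ u ∈ range I.1.length, ∑ w ∈ range I.1.length, (te u w).toNat * ci I u w ≤ 2 * B) :
    check I (cand I r B) = true ∧ wt (ci I) (cand I r B).2 ≤ (palpha (iH I) (iM I) + 1) * B := by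
  have hr' := S.lt r hr
  have hn : 0 < I.1.length := by omega
  have hte : ∀ u w, te u w = true → ci I u w ≤ B := by
    intro u w h
    have a1 := S.adj u w h
    simp only [adj, Bool.and_eq_true, decide_eq_true_eq, bne_iff_ne] at a1
    have a2 : ∀ a b, b < I.1.length → te a b = true →
        ci I a b ≤ ∑ w ∈ range I.1.length, (te a w).toNat * ci I a w := fun a b hb h =>
      le_trans (by simp [h]) (single_le_sum (f := fun w => (te a w).toNat * ci I a w)
        (fun _ _ => Nat.zero_le _) (mem_range.2 hb))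
    have a3 := a2 u w a1.1.1.2 h
    have a4 := a2 w u a1.1.1.1 (by rw [S.symm, h])
    have a5 : ∑ x ∈ ({u, w} : Finset ℕ), ∑ w ∈ range I.1.length, (te x w).toNat * ci I x w ≤
        ∑ u ∈ range I.1.length, ∑ w ∈ range I.1.length, (te u w).toNat * ci I u w :=
      sum_le_sum_of_subset (by
        intro x hx
        simp only [mem_insert, mem_singleton] at hx
        rcases hx with rfl | rfl
        · exact mem_range.2 a1.1.1.1
        · exact mem_range.2 a1.1.1.2)
    rw [sum_pair a1.1.2] at a5
    rw [ci_comm] at a4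
    omega
  have hsc : ∀ u w, te u w = true → scost I B u w = ci I u w * I.1.length / B := fun u w h => by
    simp [scost, S.adj u w h, hte u w h]
  have S' : (ctx I r B).Sol te tv := by
    refine ⟨S.symm, fun u w h => ?_, S.ends, fun v hv => ?_, fun v hv => ?_, ?_, fun g hg => ?_⟩
    · change scost I B u w ≤ I.1.length
      rw [hsc u w h]
      exact Nat.div_le_of_le_mul (Nat.mul_le_mul_right _ (hte u w h))
    · obtain ⟨l, a1, a2⟩ := S.conn r v hr hv
      exact ⟨l, a1, fun e he => ⟨S.lt _ (S.ends _ _ (a2 e he)),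
        S.lt _ (S.ends _ e.1 (by rw [S.symm, a2 e he]))⟩, a2⟩
    · refine le_min (S.deg v hv) ?_
      exact (sum_le_card_nsmul _ _ 1 fun w _ => by cases te v w <;> simp).trans (by simp [ctx])
    · change ∑ u ∈ range I.1.length, ∑ w ∈ range I.1.length, (te u w).toNat * scost I B u w ≤
        2 * I.1.length
      rcases Nat.eq_zero_or_pos B with rfl | hB0
      · refine le_trans (le_of_eq (sum_eq_zero fun u _ => sum_eq_zero fun w _ => ?_)) (Nat.zero_le _)
        cases h : te u w
        · simp
        · simp [hsc u w h]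
      · refine Nat.le_of_mul_le_mul_left ?_ hB0
        calc _ ≤ I.1.length * ∑ u ∈ range I.1.length, ∑ w ∈ range I.1.length,
              (te u w).toNat * ci I u w := by
              simp only [mul_sum]
              refine sum_le_sum fun u _ => sum_le_sum fun w _ => ?_
              cases h : te u w
              · simp
              · simp only [hsc u w h, Bool.toNat_true, one_mul]
                rw [mul_comm I.1.length]
                exact Nat.mul_div_le _ _
          _ ≤ I.1.length * (2 * B) := Nat.mul_le_mul_left _ hB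
          _ = _ := by ring
    · change g < I.2.2.length at hg
      obtain ⟨v, a1, a2⟩ := S.cover _ (List.getElem_mem hg)
      exact ⟨v, S.lt v a2, a2, by simp [ctx, hg, a1]⟩
  have hH := lt_pH I.1.length I.2.2.length
  have hH2 := pH_ge I.2.2.length hn
  have Bs := S'.base hr' (by change I.1.length ≤ 2 ^ (pH _ _ - 1); omega)
    (by change 0 < pH _ _; omega) (by
      change I.2.2.length < 2 ^ pH _ _
      have : 2 ^ (pH I.1.length I.2.2.length - 1) ≤ 2 ^ pH I.1.length I.2.2.length :=
        Nat.pow_le_pow_right (by omega) (by omega)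
      omega)
    (fun u _ v _ => by simp only [ctx, scost, adj_comm I u v, ci_comm I u v])
    (fun v hv => ⟨le_min (hb v hv) hn, min_le_right _ _⟩) rfl rfl rfl (by
      obtain ⟨g, a1, a2⟩ := hg
      obtain ⟨i, hi, rfl⟩ := List.getElem_of_mem a1
      exact ⟨i, hi, by simp [ctx, hi, a2]⟩)
  obtain ⟨b1, b2, b3, b4, b5, b6⟩ := Bs.route_spec
  change In I.1.length (ctx I r B).solve.2 at b1
  change ∀ t ∈ (ctx I r B).solve.1, t < I.1.length at b2
  change ∀ a ∈ (ctx I r B).solve.1, ∀ b ∈ (ctx I r B).solve.1, Conn (ctx I r B).solve.2 a b at b3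
  change ∀ g < I.2.2.length, ∃ v ∈ (ctx I r B).solve.1, decide (v ∈ I.2.2.getD g []) = true at b4
  change wt (scost I B) (ctx I r B).solve.2 ≤ palpha (iH I) (iM I) * I.1.length at b5
  change ∀ v < I.1.length, inc v (ctx I r B).solve.2 ≤
    pbeta I.1.length (iH I) (iM I) * min (g1 I.1 v) I.1.length at b6
  unfold cand
  generalize (ctx I r B).solve = q at *
  obtain ⟨Tm, H⟩ := q
  simp only at *
  have c1 : ∀ e ∈ H, adj I e.1 e.2 = true ∧ ci I e.1 e.2 ≤ B := by
    intro e he
    have : scost I B e.1 e.2 ≤ wt (scost I B) H :=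
      List.single_le_sum (fun _ _ => Nat.zero_le _) _ (List.mem_map.2 ⟨e, he, rfl⟩)
    have d1 : (adj I e.1 e.2 && decide (ci I e.1 e.2 ≤ B)) = true := by
      by_contra h
      rw [Bool.not_eq_true] at h
      rw [scost, h] at this
      simp only [cond] at this
      omega
    simpa using d1
  rw [List.filter_eq_self.2 fun e he => (c1 e he).1]
  have c2 : Tm.headD r ∈ Tm := by
    obtain ⟨g, a1, -⟩ := hg
    obtain ⟨v, hv, -⟩ := b4 0 (List.length_pos_of_mem a1)
    cases Tm with
    | nil => simp at hv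
    | cons x _ => simp
  obtain ⟨T, c3, -⟩ := grow_inv I.1.length H (Tm.headD r)
  have c4 := c3 b1 (b2 _ c2)
  refine ⟨check_iff.2 ⟨c4, fun g hg => ?_, fun v hv => ?_⟩, ?_⟩
  · obtain ⟨i, hi, rfl⟩ := List.getElem_of_mem hg
    obtain ⟨v, a1, a2⟩ := b4 i hi
    exact ⟨v, by simpa [hi] using a2, grow_complete b1 (b2 _ c2) (b3 _ c2 v a1)⟩
  · exact (T.inc_le v).trans ((b6 v hv).trans (Nat.mul_le_mul_left _ (min_le_left _ _)))
  · have d1 := (T.wt_le (scost I B)).trans b5
    have d2 : (grow I.1.length H (Tm.headD r)).2.length ≤ I.1.length := by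
      have h4 : (grow I.1.length H (Tm.headD r)).1.toFinset ⊆ range I.1.length := fun x hx =>
        mem_range.2 (c4 x (List.mem_toFinset.1 hx))
      have h5 := card_le_card h4
      rw [List.toFinset_card_of_nodup T.nodup, card_range, T.len] at h5
      omega
    have d3 : ∀ l : List (ℕ × ℕ), (∀ e ∈ l, e ∈ H) →
        I.1.length * wt (ci I) l ≤ B * (wt (scost I B) l + l.length) := by
      intro l
      induction l with
      | nil => simp
      | cons e l ih =>
        intro hl
        have e1 := ih fun x hx => hl x (by simp [hx])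
        have e2 := c1 e (hl e (by simp))
        have e3 : I.1.length * ci I e.1 e.2 ≤ B * (scost I B e.1 e.2 + 1) := by
          simp only [scost, e2.1, e2.2, decide_true, Bool.and_self, cond]
          rcases Nat.eq_zero_or_pos B with rfl | hB0
          · simp [Nat.le_zero.1 e2.2]
          · rw [mul_comm]; exact (Nat.lt_mul_div_succ _ hB0).le
        simp only [wt_cons, List.length_cons, mul_add] at e1 e3 ⊢
        omega
    refine Nat.le_of_mul_le_mul_left ((d3 _ T.sub).trans ?_) hn
    calc _ ≤ B * (palpha (iH I) (iM I) * I.1.length + I.1.length) := by gcongr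
      _ = _ := by ring

theorem algI_spec {I : IInst} {te : ℕ → ℕ → Bool} {tv : ℕ → Prop} (S : ISol I te tv)
    (hb : ∀ v < I.1.length, 1 ≤ g1 I.1 v) :
    (∃ H t, TreeP H t (algI I) ∧ ∀ e ∈ H, adj I e.1 e.2 = true) ∧ check I (algI I) = true ∧
      wt (ci I) (algI I).2 ≤ (palpha (iH I) (iM I) + 1) *
        ∑ u ∈ range I.1.length, ∑ w ∈ range I.1.length, (te u w).toNat * ci I u w := by
  set O := ∑ u ∈ range I.1.length, ∑ w ∈ range I.1.length, (te u w).toNat * ci I u w with hO
  obtain ⟨r, hr⟩ := S.ne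
  have hr' := S.lt r hr
  have h1 : ∃ p ∈ (candsAll I).filter (check I),
      wt (ci I) p.2 ≤ (palpha (iH I) (iM I) + 1) * O := by
    by_cases hg : ∃ g ∈ I.2.2, r ∉ g
    · obtain ⟨B, a1, a2, a3⟩ : ∃ B ∈ budgets I, O ≤ 2 * B ∧ B ≤ O := by
        rcases Nat.eq_zero_or_pos O with h0 | h0
        · exact ⟨0, by simp [budgets], by omega, by omega⟩
        · have b1 : O ≤ total I := by
            rw [total]
            simp only [sm_eq]
            exact sum_le_sum fun u _ => sum_le_sum fun w _ => by cases te u w <;> simp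
          have b2 := Nat.size_le_size b1
          have b3 := Nat.size_pos.2 h0
          refine ⟨2 ^ (O.size - 1), ?_, ?_, Nat.lt_size.1 (by omega)⟩
          · simp only [budgets, List.mem_cons, List.mem_map, List.mem_range, sz_nat]
            exact Or.inr ⟨O.size - 1, by omega, by rw [min_eq_left (by omega)]⟩
          · rw [← pow_succ', Nat.sub_add_cancel b3]
            exact (Nat.lt_size_self O).le
      obtain ⟨b1, b2⟩ := cand_good S hb hr hg a2
      refine ⟨cand I r B, List.mem_filter.2 ⟨?_, b1⟩, b2.trans (Nat.mul_le_mul_left _ a3)⟩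
      simp only [candsAll, List.mem_append, List.mem_flatMap, List.mem_range, List.mem_map]
      exact Or.inr ⟨r, hr', B, a1, rfl⟩
    · push Not at hg
      refine ⟨([r], []), List.mem_filter.2 ⟨List.mem_append_left _ (mem_tab.2 ⟨r, hr', rfl⟩),
        check_iff.2 ⟨by simpa, fun g h => ⟨r, hg g h, by simp⟩, by simp⟩⟩, by simp⟩
  obtain ⟨p, hp, hp'⟩ := h1
  have h2 : algI I ∈ (candsAll I).filter (check I) ∧ wt (ci I) (algI I).2 ≤ wt (ci I) p.2 := by
    unfold algI
    generalize (candsAll I).filter (check I) = l at hp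
    cases l with
    | nil => simp at hp
    | cons x xs =>
      refine ⟨List.mem_cons.2 (amin_mem _ x xs), ?_⟩
      have := amin_le (fun p : List ℕ × List (ℕ × ℕ) => wt (ci I) p.2) x xs
      rcases List.mem_cons.1 hp with rfl | hp
      · exact this.1
      · exact this.2 _ hp
  obtain ⟨h3, h4⟩ := List.mem_filter.1 h2.1
  refine ⟨?_, h4, h2.2.trans hp'⟩
  simp only [candsAll, List.mem_append, List.mem_flatMap, List.mem_range, List.mem_map,
    mem_tab] at h3
  rcases h3 with ⟨v, -, e⟩ | ⟨r, -, B, -, e⟩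
  · exact ⟨[], v, e ▸ (grow_inv 0 [] v).1, by simp⟩
  · rw [← e]
    unfold cand
    exact ⟨_, _, (grow_inv _ _ _).1, fun e he => (List.mem_filter.1 he).2⟩

end Pool.Agent.Lib.MP_fec922_lc
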