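import Pool.Agent.Shared.PolyTime

/-!
Small programming and counting toolkit: sums and tables over an initial segment of the natural
numbers, arg-min, capped exponential weights.
-/

namespace Pool.Agent.Lib.MP_fec922_lc

open Pool.Agent.Shared.PolyTime Finset

attribute [local fun_prop] PB.comp

variable {α β γ σ : Type} [N487b59b3 α] [N487b59b3 β] [N487b59b3 γ] [N487b59b3 σ]

/-- Sum of `f i` over `i < n`. -/
def sm (n : ℕ) (f : ℕ → ℕ) : ℕ := ((List.range n).map f).sum

theorem sm_eq (n : ℕ) (f : ℕ → ℕ) : sm n f = ∑ i ∈ range n, f i := by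
  unfold sm
  induction n with
  | zero => simp
  | succ n ih => rw [List.range_succ, sum_range_succ, ← ih]; simp

@[fun_prop] theorem sm_pt {n : α → ℕ} {f : α → ℕ → ℕ} (hn : PT n) (hb : PB n)
    (hf : PT (fun p : α × ℕ => f p.1 p.2)) : PT (fun a => sm (n a) (f a)) := by
  unfold sm; fun_prop

/-- Table of the values `f i`, `i < n`. -/
def tab {β : Type} (n : ℕ) (f : ℕ → β) : List β := (List.range n).map f

@[fun_prop] theorem tab_pt {n : α → ℕ} {f : α → ℕ → β} (hn : PT n) (hb : PB n)
    (hf : PT (fun p : α × ℕ => f p.1 p.2)) : PT (fun a => tab (n a) (f a)) := by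
  unfold tab; fun_prop

theorem getD_tab {β : Type} {n i : ℕ} (f : ℕ → β) (d : β) (h : i < n) :
    (tab n f).getD i d = f i := by
  simp [tab, h]

@[simp] theorem length_tab {β : Type} (n : ℕ) (f : ℕ → β) : (tab n f).length = n := by
  simp [tab]

theorem mem_tab {β : Type} {n : ℕ} {f : ℕ → β} {x : β} : x ∈ tab n f ↔ ∃ i < n, f i = x := by
  simp [tab]

theorem getD_tab_cases {β : Type} (n i : ℕ) (f : ℕ → β) (d : β) :
    (tab n f).getD i d = if i < n then f i else d := by
  split_ifs with h
  · exact getD_tab f d h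
  · rw [List.getD_eq_default]; simp; omega

theorem sz_tab_le {n B : ℕ} {f : ℕ → β} (h : ∀ i < n, sz (f i) ≤ B) :
    sz (tab n f) ≤ n * (2 * B + 1) := by
  have := sz_list_le (l := tab n f) (B := B) (fun a ha => by
    obtain ⟨i, hi, rfl⟩ := mem_tab.1 ha
    exact h i hi)
  simpa using this

/-- Entry of a table of numbers. -/
def g1 (l : List ℕ) (i : ℕ) : ℕ := l.getD i 0

@[fun_prop] theorem g1_pt {l : α → List ℕ} {i : α → ℕ} (hl : PT l) (hi : PT i) :
    PT (fun a => g1 (l a) (i a)) := by
  unfold g1; fun_prop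

theorem g1_tab {n i : ℕ} (f : ℕ → ℕ) (h : i < n) : g1 (tab n f) i = f i := getD_tab f 0 h

/-- Entry of a two-dimensional table of numbers. -/
def g2 (l : List (List ℕ)) (i j : ℕ) : ℕ := (l.getD i []).getD j 0

@[fun_prop] theorem g2_pt {l : α → List (List ℕ)} {i j : α → ℕ} (hl : PT l) (hi : PT i)
    (hj : PT j) : PT (fun a => g2 (l a) (i a) (j a)) := by
  unfold g2; fun_prop

/-- Two-dimensional table. -/
def tab2 (n : ℕ) (f : ℕ → ℕ → ℕ) : List (List ℕ) := tab n fun u => tab n fun v => f u v

@[fun_prop] theorem tab2_pt {n : α → ℕ} {f : α → ℕ → ℕ → ℕ} (hn : PT n) (hb : PB n)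
    (hf : PT (fun p : α × ℕ × ℕ => f p.1 p.2.1 p.2.2)) : PT (fun a => tab2 (n a) (f a)) := by
  unfold tab2
  refine tab_pt hn hb (tab_pt (by fun_prop) (by fun_prop) ?_)
  exact hf.comp' (f := fun p : (α × ℕ) × ℕ => (p.1.1, p.1.2, p.2)) (by fun_prop)

theorem g2_tab2 {n i j : ℕ} (f : ℕ → ℕ → ℕ) (hi : i < n) (hj : j < n) :
    g2 (tab2 n f) i j = f i j := by
  unfold g2 tab2
  rw [getD_tab _ _ hi, getD_tab _ _ hj]

theorem sz_tab2_le {n B : ℕ} {f : ℕ → ℕ → ℕ} (h : ∀ i < n, ∀ j < n, f i j ≤ B) :
    sz (tab2 n f) ≤ n * (2 * (n * (2 * B + 1)) + 1) :=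
  sz_tab_le fun i hi => sz_tab_le fun j hj => (sz_nat_le _).trans (h i hi j hj)

/-- An element of `x :: l` at which `f` is least. -/
def amin {β : Type} (f : β → ℕ) (x : β) (l : List β) : β :=
  l.foldl (fun y z => if f z < f y then z else y) x

theorem amin_mem {β : Type} (f : β → ℕ) (x : β) (l : List β) : amin f x l = x ∨ amin f x l ∈ l := by
  unfold amin
  induction l generalizing x with
  | nil => simp
  | cons y l ih =>
    rw [List.foldl_cons]
    rcases ih (if f y < f x then y else x) with h | h
    · rw [h]; split_ifs <;> simp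
    · exact Or.inr (List.mem_cons_of_mem _ h)

theorem amin_le {β : Type} (f : β → ℕ) (x : β) (l : List β) :
    f (amin f x l) ≤ f x ∧ ∀ z ∈ l, f (amin f x l) ≤ f z := by
  unfold amin
  induction l generalizing x with
  | nil => simp
  | cons y l ih =>
    rw [List.foldl_cons]
    obtain ⟨h1, h2⟩ := ih (if f y < f x then y else x)
    refine ⟨h1.trans (by split_ifs <;> omega), fun z hz => ?_⟩
    rcases List.mem_cons.1 hz with rfl | hz
    · exact h1.trans (by split_ifs <;> omega)
    · exact h2 z hz

@[fun_prop] theorem amin_pt {f : α → β → ℕ} {x : α → β} {l : α → List β}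
    (hf : PT (fun p : α × β => f p.1 p.2)) (hx : PT x) (hl : PT l) :
    PT (fun a => amin (f a) (x a) (l a)) := by
  unfold amin
  refine PT.foldl_inv (f := fun a y z => if f a z < f a y then z else y) ?_ hl hx
    (fun a s => sz s ≤ sz (x a) + sz (l a)) (fun a => by omega) (fun a s z hz hs => ?_)
    (B := fun a => sz (x a) + sz (l a)) (by fun_prop) (fun _ _ h => h)
  · have h1 : PT (fun p : α × β × β => f p.1 p.2.2) :=
      hf.comp' (f := fun p : α × β × β => (p.1, p.2.2)) (by fun_prop)
    have h2 : PT (fun p : α × β × β => f p.1 p.2.1) :=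
      hf.comp' (f := fun p : α × β × β => (p.1, p.2.1)) (by fun_prop)
    fun_prop
  · have := sz_mem hz
    split_ifs <;> omega

/-- Iteration with an invariant that may depend on the round. -/
theorem iterate_ind {f : α → σ → σ} {n : α → ℕ} {s0 : α → σ}
    (hf : PT (fun p : α × σ => f p.1 p.2)) (hn : PT n) (hnb : PB n) (hs : PT s0)
    (I : α → ℕ → σ → Prop) (h0 : ∀ a, I a 0 (s0 a))
    (hI : ∀ a i s, I a i s → I a (i + 1) (f a s))
    {B : α → ℕ} (hB : PB B) (hb : ∀ a i s, i ≤ n a → I a i s → sz s ≤ B a) :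
    PT (fun a => (f a)^[n a] (s0 a)) :=
  PT.iterate hf hn hnb hs hB fun a i hi => hb a i _ hi (by
    clear hi
    induction i with
    | zero => exact h0 a
    | succ i ih => rw [Function.iterate_succ_apply']; exact hI a i _ ih)

theorem iterate_induction {σ : Type} (f : σ → σ) (s0 : σ) (I : ℕ → σ → Prop) (h0 : I 0 s0)
    (hI : ∀ i s, I i s → I (i + 1) (f s)) (n : ℕ) : I n (f^[n] s0) := by
  induction n with
  | zero => exact h0
  | succ i ih => rw [Function.iterate_succ_apply']; exact hI i _ ih

theorem foldl_range_induction {σ : Type} (f : σ → ℕ → σ) (s0 : σ) (I : ℕ → σ → Prop) (n : ℕ)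
    (h0 : I 0 s0) (hI : ∀ i < n, ∀ s, I i s → I (i + 1) (f s i)) :
    I n ((List.range n).foldl f s0) := by
  induction n with
  | zero => exact h0
  | succ i ih =>
    rw [List.range_succ, List.foldl_append]
    exact hI i (by omega) _ (ih fun j hj => hI j (by omega))

theorem foldl_rev_induction {σ : Type} (f : σ → ℕ → σ) (I : ℕ → σ → Prop) (n : ℕ) (s0 : σ)
    (h0 : I n s0) (hI : ∀ i < n, ∀ s, I (i + 1) s → I i (f s i)) :
    I 0 ((List.range n).reverse.foldl f s0) := by
  induction n generalizing s0 with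
  | zero => exact h0
  | succ i ih =>
    rw [List.range_succ, List.reverse_append, List.reverse_singleton, List.singleton_append,
      List.foldl_cons]
    exact ih _ (hI i (by omega) _ h0) fun j hj => hI j (by omega)

/-- Capped exponential weight of the load `L` at scale `s`. -/
def ew (s cap L : ℕ) : ℕ := 2 ^ (min (L / s) cap)

@[fun_prop] theorem ew_pt {s cap L : α → ℕ} (hs : PT s) (hc : PT cap) (hb : PB cap) (hL : PT L) :
    PT (fun a => ew (s a) (cap a) (L a)) := by
  unfold ew; fun_prop

theorem ew_pos (s cap L : ℕ) : 1 ≤ ew s cap L := Nat.one_le_two_pow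

theorem ew_mono (s cap : ℕ) {L L' : ℕ} (h : L ≤ L') : ew s cap L ≤ ew s cap L' :=
  Nat.pow_le_pow_right (by omega) (min_le_min_right _ (Nat.div_le_div_right h))

/-- Potential of the capped exponential weight. -/
def psi (s cap L : ℕ) : ℕ := s + ∑ i ∈ range L, ew s cap i

theorem psi_zero (s cap : ℕ) : psi s cap 0 = s := by simp [psi]

theorem psi_mono (s cap : ℕ) {L L' : ℕ} (h : L ≤ L') : psi s cap L ≤ psi s cap L' :=
  Nat.add_le_add_left (sum_le_sum_of_subset (range_mono h)) _

theorem psi_add (s cap L d : ℕ) (hd : d ≤ s) :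
    psi s cap (L + d) ≤ psi s cap L + 2 * d * ew s cap L := by
  unfold psi
  rw [sum_range_add, ← Nat.add_assoc]
  refine Nat.add_le_add_left ?_ _
  calc ∑ i ∈ range d, ew s cap (L + i) ≤ ∑ _i ∈ range d, 2 * ew s cap L := by
        refine sum_le_sum fun i hi => ?_
        have hi := mem_range.1 hi
        unfold ew
        rw [← pow_succ']
        refine Nat.pow_le_pow_right (by omega) ?_
        have : (L + i) / s ≤ L / s + 1 := by
          rw [← Nat.add_div_right L (by omega : 0 < s)]
          exact Nat.div_le_div_right (by omega)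
        omega
    _ = _ := by simp; ring

theorem psi_ge (s cap L : ℕ) (hs : 0 < s) : s * ew s cap L ≤ psi s cap L := by
  have key : ∀ q ≤ cap, s * 2 ^ q ≤ psi s cap (q * s) := by
    intro q
    induction q with
    | zero => intro _; simp [psi]
    | succ q ih =>
      intro hq
      have h1 := ih (by omega)
      unfold psi at *
      rw [Nat.succ_mul, sum_range_add]
      have : ∑ i ∈ range s, ew s cap (q * s + i) = s * 2 ^ q := by
        rw [sum_congr rfl (g := fun _ => 2 ^ q)]
        · simp
        · intro i hi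
          have hi := mem_range.1 hi
          unfold ew
          rw [Nat.add_comm, Nat.add_mul_div_right _ _ hs, Nat.div_eq_of_lt hi]
          congr 1; omega
      rw [this, pow_succ]
      nlinarith
  refine (key _ (min_le_right _ _)).trans (psi_mono _ _ ?_)
  exact (Nat.mul_le_mul_right _ (min_le_left _ _)).trans (Nat.div_mul_le_self _ _)

theorem lt_of_ew_le {s cap L B : ℕ} (hs : 0 < s) (h : ew s cap L ≤ B) (hB : B < 2 ^ cap) :
    L < s * cap := by
  unfold ew at h
  have := (Nat.pow_lt_pow_iff_right (by omega : 1 < 2)).1 (h.trans_lt hB)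
  have h2 : L / s < cap := by omega
  rw [Nat.div_lt_iff_lt_mul hs] at h2
  rwa [Nat.mul_comm]

/-- A sum over all points is nonpositive if the sum over every class of an equivalence relation
is. -/
theorem sum_nonpos_of_classes (n : ℕ) (E : ℕ → ℕ → Prop) [∀ a b, Decidable (E a b)]
    (hr : ∀ a < n, E a a) (hs : ∀ a < n, ∀ b < n, E a b → E b a)
    (ht : ∀ a < n, ∀ b < n, ∀ c < n, E a b → E b c → E a c) (f : ℕ → ℝ)
    (hf : ∀ s < n, ∑ a ∈ range n, (if E s a then f a else 0) ≤ 0) :
    ∑ a ∈ range n, f a ≤ 0 := by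
  set cl : ℕ → ℝ := fun s => ∑ a ∈ range n, if E s a then (1 : ℝ) else 0 with hcl
  have hpos : ∀ s < n, 0 < cl s := by
    intro s hs'
    refine sum_pos' (fun a _ => by split_ifs <;> norm_num) ⟨s, mem_range.2 hs', ?_⟩
    simp [hr s hs']
  have hcong : ∀ s < n, ∀ a < n, E s a → cl s = cl a := by
    intro s hs' a ha h
    refine sum_congr rfl fun b hb => ?_
    have hb := mem_range.1 hb
    by_cases h1 : E s b
    · simp [h1, ht a ha s hs' b hb (hs s hs' a ha h) h1]
    · have : ¬ E a b := fun h2 => h1 (ht s hs' a ha b hb h h2)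
      simp [h1, this]
  calc ∑ a ∈ range n, f a = ∑ a ∈ range n, ∑ s ∈ range n, (if E s a then f a else 0) / cl s := by
        refine sum_congr rfl fun a ha => ?_
        have ha := mem_range.1 ha
        have : ∑ s ∈ range n, (if E s a then f a else 0) / cl s
            = ∑ s ∈ range n, (if E a s then (1 : ℝ) else 0) * (f a / cl a) := by
          refine sum_congr rfl fun s hs' => ?_
          have hs' := mem_range.1 hs'
          by_cases h : E s a
          · simp [h, hs s hs' a ha h, hcong s hs' a ha h]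
          · have : ¬ E a s := fun h2 => h (hs a ha s hs' h2)
            simp [h, this]
        rw [this, ← sum_mul]
        have := hpos a ha
        change f a = cl a * _
        field_simp
    _ = ∑ s ∈ range n, (∑ a ∈ range n, (if E s a then f a else 0)) / cl s := by
        rw [sum_comm]
        exact sum_congr rfl fun s _ => by rw [sum_div]
    _ ≤ 0 := sum_nonpos fun s hs' =>
        div_nonpos_of_nonpos_of_nonneg (hf s (mem_range.1 hs')) (hpos s (mem_range.1 hs')).le

end Pool.Agent.Lib.MP_fec922_lc
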