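import Pool.Agent.Lib.MP_fec922_lc.Basic

/-!
A polynomial family of candidate cuts: if none of them is sparse, then the average distance of
two random points is small (a form of the theorem of Leighton and Rao).
-/

namespace Pool.Agent.Lib.MP_fec922_lc

open Pool.Agent.Shared.PolyTime Finset

attribute [local fun_prop] PB.comp

variable {α : Type} [N487b59b3 α]

/-- Weight of the set of members of `S` below `n`. -/
def wS (n : ℕ) (w : ℕ → ℕ) (S : List ℕ) : ℕ := sm n fun v => if v ∈ S then w v else 0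

theorem wS_eq (n : ℕ) (w : ℕ → ℕ) (S : List ℕ) :
    wS n w S = ∑ v ∈ range n, if v ∈ S then w v else 0 := sm_eq _ _

@[fun_prop] theorem wS_pt {n : α → ℕ} {w : α → ℕ → ℕ} {S : α → List ℕ} (hn : PT n) (hb : PB n)
    (hw : PT (fun p : α × ℕ => w p.1 p.2)) (hS : PT S) : PT (fun a => wS (n a) (w a) (S a)) := by
  unfold wS; fun_prop

theorem wS_mono (n : ℕ) (w : ℕ → ℕ) {S S' : List ℕ} (h : ∀ v ∈ S, v ∈ S') :
    wS n w S ≤ wS n w S' := by
  rw [wS_eq, wS_eq]
  refine sum_le_sum fun v _ => ?_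
  by_cases hv : v ∈ S
  · simp [hv, h v hv]
  · simp [hv]

/-- Capacity of the cut between `U` and the rest of `P`. -/
def cutv (n : ℕ) (X : ℕ → ℕ → ℕ) (P U : List ℕ) : ℕ :=
  sm n fun u => sm n fun v => if u ∈ U then (if v ∈ P then (if v ∈ U then 0 else X u v) else 0) else 0

theorem cutv_eq (n : ℕ) (X : ℕ → ℕ → ℕ) (P U : List ℕ) : cutv n X P U =
    ∑ u ∈ range n, ∑ v ∈ range n, if u ∈ U ∧ v ∈ P ∧ v ∉ U then X u v else 0 := by
  unfold cutv
  simp only [sm_eq]
  refine sum_congr rfl fun u _ => sum_congr rfl fun v _ => ?_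
  by_cases h1 : u ∈ U <;> by_cases h2 : v ∈ P <;> by_cases h3 : v ∈ U <;> simp [h1, h2, h3]

@[fun_prop] theorem cutv_pt {n : α → ℕ} {X : α → ℕ → ℕ → ℕ} {P U : α → List ℕ} (hn : PT n)
    (hb : PB n) (hX : PT (fun p : α × ℕ × ℕ => X p.1 p.2.1 p.2.2)) (hP : PT P) (hU : PT U) :
    PT (fun a => cutv (n a) (X a) (P a) (U a)) := by
  unfold cutv
  have : PT (fun p : (α × ℕ) × ℕ => X p.1.1 p.1.2 p.2) :=
    hX.comp' (f := fun p : (α × ℕ) × ℕ => (p.1.1, p.1.2, p.2)) (by fun_prop)
  fun_prop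

/-- Distance from the set `Q`. -/
def phi (d : ℕ → ℕ → ℕ) (Q : List ℕ) (v : ℕ) : ℕ := d (amin (fun a => d a v) (Q.headD 0) Q) v

@[fun_prop] theorem phi_pt {d : α → ℕ → ℕ → ℕ} {Q : α → List ℕ} {v : α → ℕ}
    (hd : PT (fun p : α × ℕ × ℕ => d p.1 p.2.1 p.2.2)) (hQ : PT Q) (hv : PT v) :
    PT (fun a => phi (d a) (Q a) (v a)) := by
  unfold phi
  have h1 : PT (fun p : α × ℕ => d p.1 p.2 (v p.1)) :=
    hd.comp' (f := fun p : α × ℕ => (p.1, p.2, v p.1)) (by fun_prop)
  have h2 : PT (fun a => amin (fun x => d a x (v a)) ((Q a).headD 0) (Q a)) :=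
    amin_pt h1 (by fun_prop) hQ
  exact hd.comp' (f := fun a => (a, amin (fun x => d a x (v a)) ((Q a).headD 0) (Q a), v a))
    (by fun_prop)

theorem phi_le (d : ℕ → ℕ → ℕ) {Q : List ℕ} {a : ℕ} (ha : a ∈ Q) (v : ℕ) : phi d Q v ≤ d a v :=
  (amin_le (fun a => d a v) _ Q).2 a ha

theorem phi_exists (d : ℕ → ℕ → ℕ) {Q : List ℕ} (hQ : Q ≠ []) (v : ℕ) :
    ∃ a ∈ Q, phi d Q v = d a v := by
  refine ⟨_, ?_, rfl⟩
  rcases amin_mem (fun a => d a v) (Q.headD 0) Q with h | h
  · rw [h]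
    cases Q with
    | nil => exact absurd rfl hQ
    | cons x Q => simp
  · exact h

/-- Threshold cuts for the distance from `Q`. -/
def sweep (P : List ℕ) (d : ℕ → ℕ → ℕ) (Q : List ℕ) : List (List ℕ) :=
  P.map fun u => P.filter fun v => decide (phi d Q v ≤ phi d Q u)

@[fun_prop] theorem sweep_pt {d : α → ℕ → ℕ → ℕ} {P Q : α → List ℕ}
    (hd : PT (fun p : α × ℕ × ℕ => d p.1 p.2.1 p.2.2)) (hP : PT P) (hQ : PT Q) :
    PT (fun a => sweep (P a) (d a) (Q a)) := by
  unfold sweep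
  have h1 : PT (fun p : ((α × ℕ) × ℕ) × ℕ × ℕ => d p.1.1.1 p.2.1 p.2.2) :=
    hd.comp' (f := fun p : ((α × ℕ) × ℕ) × ℕ × ℕ => (p.1.1.1, p.2)) (by fun_prop)
  refine PT.map hP (PT.filter (by fun_prop) (PT.decide_le ?_ ?_))
  · exact phi_pt h1 (by fun_prop) (by fun_prop)
  · exact phi_pt h1 (by fun_prop) (by fun_prop)

/-- The cut `U` of `P` is sparse. -/
def sparse (n : ℕ) (X : ℕ → ℕ → ℕ) (w : ℕ → ℕ) (K : ℕ) (P U : List ℕ) : Bool :=
  decide (K * cutv n X P U < min (wS n w U) (wS n w P - wS n w U))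

@[fun_prop] theorem sparse_pt {n K : α → ℕ} {X : α → ℕ → ℕ → ℕ} {w : α → ℕ → ℕ}
    {P U : α → List ℕ} (hn : PT n) (hb : PB n)
    (hX : PT (fun p : α × ℕ × ℕ => X p.1 p.2.1 p.2.2)) (hw : PT (fun p : α × ℕ => w p.1 p.2))
    (hK : PT K) (hP : PT P) (hU : PT U) :
    PT (fun a => sparse (n a) (X a) (w a) (K a) (P a) (U a)) := by
  unfold sparse
  have h1 := cutv_pt hn hb hX hP hU
  have h2 := wS_pt hn hb hw hP
  have h3 := wS_pt hn hb hw hU
  fun_prop

theorem sweep_bound (n : ℕ) (X d len : ℕ → ℕ → ℕ) (w : ℕ → ℕ) (K L : ℕ) (P Q : List ℕ)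
    (hQ : ∀ v ∈ Q, v ∈ P) (hW : wS n w P ≤ 8 * wS n w Q)
    (hd0 : ∀ a ∈ P, d a a = 0) (htri : ∀ a ∈ P, ∀ b ∈ P, ∀ c ∈ P, d a c ≤ d a b + d b c)
    (hlen : ∀ a ∈ P, ∀ b ∈ P, d a b ≤ len a b)
    (hL : ∑ u ∈ range n, ∑ v ∈ range n, (if u ∈ P ∧ v ∈ P then X u v * len u v else 0) ≤ L)
    (hs : ∀ U ∈ sweep P d Q, sparse n X w K P U = false) :
    ∑ v ∈ range n, (if v ∈ P then w v * phi d Q v else 0) ≤ 8 * K * L := by
  by_cases hQ0 : Q = []
  · subst hQ0
    have h0 : wS n w P = 0 := by simpa [wS_eq] using hW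
    rw [wS_eq, sum_eq_zero_iff] at h0
    rw [sum_eq_zero]
    · exact Nat.zero_le _
    · intro v hv
      have := h0 v hv
      split_ifs at this ⊢ with h
      · simp [this]
      · rfl
  set f := phi d Q with hf
  have hfQ : ∀ a ∈ Q, f a = 0 := fun a ha =>
    Nat.le_zero.1 ((phi_le d ha a).trans (hd0 a (hQ a ha)).le)
  have hlip : ∀ u ∈ P, ∀ v ∈ P, f v ≤ f u + len u v := by
    intro u hu v hv
    obtain ⟨a, ha, e⟩ := phi_exists d hQ0 u
    have h1 := phi_le d ha v
    have h2 := htri a (hQ a ha) u hu v hv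
    have h3 := hlen u hu v hv
    simp only [hf]; omega
  have key : ∀ t : ℕ, ∑ v ∈ range n, (if v ∈ P ∧ t < f v then w v else 0) ≤
      8 * K * ∑ u ∈ range n, ∑ v ∈ range n,
        if u ∈ P ∧ v ∈ P ∧ f u ≤ t ∧ t < f v then X u v else 0 := by
    intro t
    obtain ⟨a0, ha0⟩ := List.exists_mem_of_ne_nil Q hQ0
    obtain ⟨u, hu, hmax⟩ := exists_max_image (P.toFinset.filter fun v => f v ≤ t) f
      ⟨a0, by simp [hQ a0 ha0, hfQ a0 ha0]⟩
    simp only [mem_filter, List.mem_toFinset] at hu hmax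
    have h1 := hs (P.filter fun v => decide (f v ≤ f u)) (List.mem_map.2 ⟨u, hu.1, rfl⟩)
    set U := P.filter fun v => decide (f v ≤ f u) with hU
    have hmem : ∀ v, v ∈ U ↔ v ∈ P ∧ f v ≤ t := by
      intro v
      simp only [hU, List.mem_filter, decide_eq_true_eq]
      exact ⟨fun h => ⟨h.1, h.2.trans hu.2⟩, fun h => ⟨h.1, hmax v h⟩⟩
    have h2 : wS n w Q ≤ wS n w U :=
      wS_mono n w fun v hv => (hmem v).2 ⟨hQ v hv, by rw [hfQ v hv]; omega⟩
    have h3 : ∑ v ∈ range n, (if v ∈ P ∧ t < f v then w v else 0) + wS n w U = wS n w P := by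
      rw [wS_eq, wS_eq, ← sum_add_distrib]
      refine sum_congr rfl fun v _ => ?_
      simp only [hmem]
      by_cases h1 : v ∈ P <;> by_cases h2 : t < f v <;> simp [h1, h2, Nat.not_lt.1, Nat.not_le.2]
    have h4 : cutv n X P U = ∑ u ∈ range n, ∑ v ∈ range n,
        if u ∈ P ∧ v ∈ P ∧ f u ≤ t ∧ t < f v then X u v else 0 := by
      rw [cutv_eq]
      refine sum_congr rfl fun a _ => sum_congr rfl fun b _ => if_congr ?_ rfl rfl
      simp only [hmem]
      constructor
      · rintro ⟨⟨h1, h2⟩, h3, h4⟩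
        exact ⟨h1, h3, h2, by by_contra h; exact h4 ⟨h3, by omega⟩⟩
      · rintro ⟨h1, h2, h3, h4⟩
        exact ⟨⟨h1, h3⟩, h2, fun h => by omega⟩
    rw [← h4]
    simp only [sparse, decide_eq_false_iff_not, not_lt] at h1
    rw [mul_assoc]
    omega
  set M := ∑ v ∈ range n, f v with hM
  calc ∑ v ∈ range n, (if v ∈ P then w v * f v else 0)
      = ∑ v ∈ range n, ∑ t ∈ range M, (if v ∈ P ∧ t < f v then w v else 0) := by
        refine sum_congr rfl fun v hv => ?_
        have hle : f v ≤ M := single_le_sum (f := f) (fun _ _ => Nat.zero_le _) hv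
        by_cases h : v ∈ P
        · simp only [h, true_and, if_true]
          rw [← sum_filter, sum_const, smul_eq_mul, mul_comm]
          congr 1
          rw [show (range M).filter (fun t => t < f v) = range (f v) by
            ext t; simp; omega, card_range]
        · simp [h]
    _ = ∑ t ∈ range M, ∑ v ∈ range n, (if v ∈ P ∧ t < f v then w v else 0) := sum_comm
    _ ≤ ∑ t ∈ range M, 8 * K * ∑ u ∈ range n, ∑ v ∈ range n,
        if u ∈ P ∧ v ∈ P ∧ f u ≤ t ∧ t < f v then X u v else 0 := sum_le_sum fun t _ => key t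
    _ = 8 * K * ∑ u ∈ range n, ∑ v ∈ range n, ∑ t ∈ range M,
        if u ∈ P ∧ v ∈ P ∧ f u ≤ t ∧ t < f v then X u v else 0 := by
        rw [← mul_sum, sum_comm]
        congr 1
        exact sum_congr rfl fun u _ => sum_comm
    _ ≤ 8 * K * L := by
        refine Nat.mul_le_mul_left _ (le_trans ?_ hL)
        refine sum_le_sum fun u _ => sum_le_sum fun v _ => ?_
        by_cases h : u ∈ P ∧ v ∈ P
        · simp only [h.1, h.2, true_and, and_self, if_true]
          rw [← sum_filter, sum_const, smul_eq_mul, mul_comm]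
          refine Nat.mul_le_mul_left _ ?_
          have h1 : (range M).filter (fun t => f u ≤ t ∧ t < f v) ⊆ Ico (f u) (f v) := by
            intro t; simp
          have h2 := card_le_card h1
          have h3 := hlip u h.1 v h.2
          rw [Nat.card_Ico] at h2
          omega
        · rw [if_neg h, sum_eq_zero]
          intro t _
          rw [if_neg]
          tauto

/-- Members of `S` within distance `r` of `c`. -/
def ball (d : ℕ → ℕ → ℕ) (c r : ℕ) (S : List ℕ) : List ℕ := S.filter fun v => decide (d c v ≤ r)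

@[fun_prop] theorem ball_pt {d : α → ℕ → ℕ → ℕ} {c r : α → ℕ} {S : α → List ℕ}
    (hd : PT (fun p : α × ℕ × ℕ => d p.1 p.2.1 p.2.2)) (hc : PT c) (hr : PT r) (hS : PT S) :
    PT (fun a => ball (d a) (c a) (r a) (S a)) := by
  unfold ball
  have h1 : PT (fun p : α × ℕ => d p.1 (c p.1) p.2) :=
    hd.comp' (f := fun p : α × ℕ => (p.1, c p.1, p.2)) (by fun_prop)
  fun_prop

def center (w : ℕ → ℕ) (S : List ℕ) : ℕ := (S.find? fun v => decide (0 < w v)).getD 0

def radius (n : ℕ) (w : ℕ → ℕ) (d : ℕ → ℕ → ℕ) (t m c : ℕ) (S : List ℕ) : ℕ :=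
  (List.range m).findIdx fun i =>
    decide (wS n w (ball d c ((i + 1) * t) S) ≤ 2 * wS n w (ball d c (i * t) S))

def carveAt (d : ℕ → ℕ → ℕ) (t c i : ℕ) (s : List ℕ × List ℕ × List ℕ) :
    List ℕ × List ℕ × List ℕ :=
  (s.1 ++ ball d c (i * t) s.2.1, s.2.1.filter (fun v => decide ((i + 1) * t < d c v)),
    ball d c (i * t) s.2.1)

def carveStep (n : ℕ) (w : ℕ → ℕ) (d : ℕ → ℕ → ℕ) (W t m : ℕ) (s : List ℕ × List ℕ × List ℕ) :
    List ℕ × List ℕ × List ℕ :=
  if W ≤ 8 * wS n w s.1 then s else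
    carveAt d t (center w s.2.1) (radius n w d t m (center w s.2.1) s.2.1) s

def carve (n : ℕ) (w : ℕ → ℕ) (d : ℕ → ℕ → ℕ) (t m : ℕ) (P : List ℕ) :
    List ℕ × List ℕ × List ℕ :=
  (carveStep n w d (wS n w P) t m)^[n] ([], P, [])

/-- The candidate cuts. -/
def cands (n : ℕ) (w : ℕ → ℕ) (d : ℕ → ℕ → ℕ) (t m : ℕ) (P : List ℕ) : List (List ℕ) :=
  sweep P d (carve n w d t m P).1 ++ sweep P d (carve n w d t m P).2.2

@[fun_prop] theorem center_pt {w : α → ℕ → ℕ} {S : α → List ℕ}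
    (hw : PT (fun p : α × ℕ => w p.1 p.2)) (hS : PT S) : PT (fun a => center (w a) (S a)) := by
  unfold center; fun_prop

@[fun_prop] theorem radius_pt {n t m c : α → ℕ} {w : α → ℕ → ℕ} {d : α → ℕ → ℕ → ℕ}
    {S : α → List ℕ} (hn : PT n) (hb : PB n) (hw : PT (fun p : α × ℕ => w p.1 p.2))
    (hd : PT (fun p : α × ℕ × ℕ => d p.1 p.2.1 p.2.2)) (ht : PT t) (hm : PT m) (hmb : PB m)
    (hc : PT c) (hS : PT S) :
    PT (fun a => radius (n a) (w a) (d a) (t a) (m a) (c a) (S a)) := by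
  unfold radius
  have h1 : PT (fun p : (α × ℕ) × ℕ × ℕ => d p.1.1 p.2.1 p.2.2) :=
    hd.comp' (f := fun p : (α × ℕ) × ℕ × ℕ => (p.1.1, p.2)) (by fun_prop)
  have h2 : PT (fun p : (α × ℕ) × ℕ => w p.1.1 p.2) :=
    hw.comp' (f := fun p : (α × ℕ) × ℕ => (p.1.1, p.2)) (by fun_prop)
  refine PT.findIdx (by fun_prop) (PT.decide_le ?_ (PT.mul (by fun_prop) ?_))
  · exact wS_pt (by fun_prop) (by fun_prop) h2 (ball_pt h1 (by fun_prop) (by fun_prop) (by fun_prop))
  · exact wS_pt (by fun_prop) (by fun_prop) h2 (ball_pt h1 (by fun_prop) (by fun_prop) (by fun_prop))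

@[fun_prop] theorem carveAt_pt {t c i : α → ℕ} {d : α → ℕ → ℕ → ℕ}
    {s : α → List ℕ × List ℕ × List ℕ} (hd : PT (fun p : α × ℕ × ℕ => d p.1 p.2.1 p.2.2))
    (ht : PT t) (hc : PT c) (hi : PT i) (hs : PT s) :
    PT (fun a => carveAt (d a) (t a) (c a) (i a) (s a)) := by
  unfold carveAt
  have h1 : PT (fun p : α × ℕ => d p.1 (c p.1) p.2) :=
    hd.comp' (f := fun p : α × ℕ => (p.1, c p.1, p.2)) (by fun_prop)
  have h2 : PT (fun a => ball (d a) (c a) (i a * t a) (s a).2.1) :=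
    ball_pt hd hc (by fun_prop) (by fun_prop)
  fun_prop

@[fun_prop] theorem carve_pt {n t m : α → ℕ} {w : α → ℕ → ℕ} {d : α → ℕ → ℕ → ℕ}
    {P : α → List ℕ} (hn : PT n) (hb : PB n) (hw : PT (fun p : α × ℕ => w p.1 p.2))
    (hd : PT (fun p : α × ℕ × ℕ => d p.1 p.2.1 p.2.2)) (ht : PT t) (hm : PT m) (hmb : PB m)
    (hP : PT P) : PT (fun a => carve (n a) (w a) (d a) (t a) (m a) (P a)) := by
  unfold carve
  have h1 : PT (fun p : (α × List ℕ × List ℕ × List ℕ) × ℕ × ℕ => d p.1.1 p.2.1 p.2.2) :=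
    hd.comp' (f := fun p : (α × List ℕ × List ℕ × List ℕ) × ℕ × ℕ => (p.1.1, p.2)) (by fun_prop)
  have h2 : PT (fun p : (α × List ℕ × List ℕ × List ℕ) × ℕ => w p.1.1 p.2) :=
    hw.comp' (f := fun p : (α × List ℕ × List ℕ × List ℕ) × ℕ => (p.1.1, p.2)) (by fun_prop)
  have h3 := wS_pt hn hb hw hP
  refine iterate_ind (f := fun a s => carveStep (n a) (w a) (d a) (wS (n a) (w a) (P a)) (t a)
    (m a) s) ?_ hn hb (by fun_prop)
    (fun a i s => sz s.1 ≤ i * sz (P a) ∧ sz s.2.1 ≤ sz (P a) ∧ sz s.2.2 ≤ sz (P a))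
    (fun a => by simp) (fun a i s h => ?_)
    (B := fun a => 2 * (n a * sz (P a)) + 1 + (2 * sz (P a) + 1 + sz (P a))) (by fun_prop)
    fun a i s hi h => ?_
  · unfold carveStep
    have h4 : PT (fun p : α × List ℕ × List ℕ × List ℕ => center (w p.1) p.2.2.1) :=
      center_pt h2 (by fun_prop)
    refine PT.ite (PT.decide_le (by fun_prop) (PT.mul (by fun_prop)
      (wS_pt (by fun_prop) (by fun_prop) h2 (by fun_prop)))) (by fun_prop)
      (carveAt_pt h1 (by fun_prop) h4 (radius_pt (by fun_prop) (by fun_prop) h2 h1 (by fun_prop)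
        (by fun_prop) (by fun_prop) h4 (by fun_prop)) (by fun_prop))
  · unfold carveStep
    split_ifs
    · exact ⟨by nlinarith [h.1], h.2⟩
    · unfold carveAt ball
      refine ⟨?_, (sz_sublist List.filter_sublist).trans h.2.1,
        (sz_sublist List.filter_sublist).trans h.2.1⟩
      rw [sz_append, add_mul, one_mul]
      exact Nat.add_le_add h.1 ((sz_sublist List.filter_sublist).trans h.2.1)
  · rw [sz_prod, sz_prod]
    have := Nat.mul_le_mul_right (sz (P a)) hi
    omega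

@[fun_prop] theorem cands_pt {n t m : α → ℕ} {w : α → ℕ → ℕ} {d : α → ℕ → ℕ → ℕ}
    {P : α → List ℕ} (hn : PT n) (hb : PB n) (hw : PT (fun p : α × ℕ => w p.1 p.2))
    (hd : PT (fun p : α × ℕ × ℕ => d p.1 p.2.1 p.2.2)) (ht : PT t) (hm : PT m) (hmb : PB m)
    (hP : PT P) : PT (fun a => cands (n a) (w a) (d a) (t a) (m a) (P a)) := by
  unfold cands
  have h := carve_pt hn hb hw hd ht hm hmb hP
  exact (sweep_pt hd hP h.fst).append (sweep_pt hd hP h.snd.snd)

theorem mem_cands {n t m : ℕ} {w : ℕ → ℕ} {d : ℕ → ℕ → ℕ} {P U : List ℕ}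
    (h : U ∈ cands n w d t m P) : ∀ v ∈ U, v ∈ P := by
  unfold cands sweep at h
  simp only [List.mem_append, List.mem_map] at h
  rcases h with ⟨u, _, rfl⟩ | ⟨u, _, rfl⟩ <;> exact fun v hv => List.mem_of_mem_filter hv

theorem carve_spec (n : ℕ) (d : ℕ → ℕ → ℕ) (w : ℕ → ℕ) (t m : ℕ) (P : List ℕ)
    (hP : ∀ v ∈ P, v < n) (hPl : P.length ≤ n) (hm : wS n w P < 2 ^ m)
    (hd0 : ∀ a ∈ P, d a a = 0) (htri : ∀ a ∈ P, ∀ b ∈ P, ∀ c ∈ P, d a c ≤ d a b + d b c)
    (hsym : ∀ a ∈ P, ∀ b ∈ P, d a b = d b a) :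
    (∀ v ∈ (carve n w d t m P).1, v ∈ P) ∧ (∀ v ∈ (carve n w d t m P).2.1, v ∈ P) ∧
    (∀ v ∈ (carve n w d t m P).2.2, v ∈ P) ∧
    wS n w P ≤ wS n w (carve n w d t m P).2.1 + 2 * wS n w (carve n w d t m P).1 ∧
    (∀ a ∈ (carve n w d t m P).1, ∀ z ∈ (carve n w d t m P).2.1, t < d a z) ∧
    (∀ a ∈ (carve n w d t m P).2.2, ∀ z ∈ (carve n w d t m P).2.2, d a z ≤ 2 * m * t) ∧
    8 * wS n w (carve n w d t m P).1 ≤ wS n w P + 8 * wS n w (carve n w d t m P).2.2 ∧
    wS n w P ≤ 8 * wS n w (carve n w d t m P).1 := by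
  have := iterate_induction (carveStep n w d (wS n w P) t m) ([], P, [])
    (fun i s => (∀ v ∈ s.1, v ∈ P) ∧ (∀ v ∈ s.2.1, v ∈ P) ∧ (∀ v ∈ s.2.2, v ∈ P) ∧
      wS n w P ≤ wS n w s.2.1 + 2 * wS n w s.1 ∧ (∀ a ∈ s.1, ∀ z ∈ s.2.1, t < d a z) ∧
      (∀ a ∈ s.2.2, ∀ z ∈ s.2.2, d a z ≤ 2 * m * t) ∧
      8 * wS n w s.1 ≤ wS n w P + 8 * wS n w s.2.2 ∧
      (wS n w P ≤ 8 * wS n w s.1 ∨ s.2.1.length + i ≤ P.length))
    (by simp [wS_eq]) ?_ n
  · obtain ⟨h1, h2, h3, h4, h5, h6, h7, h8⟩ := this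
    refine ⟨h1, h2, h3, h4, h5, h6, h7, ?_⟩
    rcases h8 with h8 | h8
    · exact h8
    · have h9 : (carve n w d t m P).2.1 = [] := List.length_eq_zero_iff.1 (by
        unfold carve; omega)
      change _ ≤ wS n w (carve n w d t m P).2.1 + 2 * wS n w (carve n w d t m P).1 at h4
      rw [h9] at h4
      have : wS n w [] = 0 := by simp [wS_eq]
      omega
  rintro i ⟨A, Rm, Kc⟩ ⟨h1, h2, h3, h4, h5, h6, h7, h8⟩
  unfold carveStep
  split_ifs with hc
  · exact ⟨h1, h2, h3, h4, h5, h6, h7, Or.inl hc⟩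
  simp only at h1 h2 h3 h4 h5 h6 h7 h8 hc ⊢
  have hpos : 0 < wS n w Rm := by omega
  have hex : ∃ v ∈ Rm, decide (0 < w v) = true := by
    by_contra hne
    push Not at hne
    rw [wS_eq, sum_eq_zero] at hpos
    · omega
    · intro v _
      split_ifs with h
      · simpa using hne v h
      · rfl
  have hcen : center w Rm ∈ Rm ∧ 0 < w (center w Rm) := by
    unfold center
    obtain ⟨c, hc⟩ := Option.isSome_iff_exists.1 (List.find?_isSome.2 hex)
    rw [hc]
    exact ⟨List.mem_of_find?_eq_some hc, by simpa using List.find?_some hc⟩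
  generalize center w Rm = c at hcen
  have hcP := h2 c hcen.1
  have hrad : radius n w d t m c Rm < m ∧
      wS n w (ball d c ((radius n w d t m c Rm + 1) * t) Rm) ≤
        2 * wS n w (ball d c (radius n w d t m c Rm * t) Rm) := by
    have hex2 : ∃ i ∈ List.range m, decide (wS n w (ball d c ((i + 1) * t) Rm) ≤
        2 * wS n w (ball d c (i * t) Rm)) = true := by
      by_contra hne
      push Not at hne
      have : ∀ j ≤ m, 2 ^ j ≤ wS n w (ball d c (j * t) Rm) := by
        intro j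
        induction j with
        | zero =>
          intro _
          rw [wS_eq]
          refine le_trans ?_ (single_le_sum (f := fun v => if v ∈ ball d c (0 * t) Rm then w v
            else 0) (fun _ _ => Nat.zero_le _) (mem_range.2 (hP c hcP)))
          have : c ∈ ball d c (0 * t) Rm := by simp [ball, hcen.1, hd0 c hcP]
          simp only [this, if_true]
          exact hcen.2
        | succ j ih =>
          intro hj
          have h9 := ih (by omega)
          have h10 := hne j (List.mem_range.2 (by omega))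
          simp only [ne_eq, decide_eq_true_eq, not_le] at h10
          rw [pow_succ]
          omega
      have h11 := this m le_rfl
      have h12 : wS n w (ball d c (m * t) Rm) ≤ wS n w P :=
        wS_mono n w fun v hv => h2 v (List.mem_of_mem_filter hv)
      omega
    have h9 := List.findIdx_lt_length_of_exists hex2
    have h10 := List.findIdx_getElem (w := h9)
    simp only [List.length_range, List.getElem_range, decide_eq_true_eq] at h9 h10
    exact ⟨h9, h10⟩
  generalize radius n w d t m c Rm = j at hrad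
  have hball : ∀ r v, v ∈ ball d c r Rm ↔ v ∈ Rm ∧ d c v ≤ r := fun r v => by simp [ball]
  have hA : wS n w (A ++ ball d c (j * t) Rm) = wS n w A + wS n w (ball d c (j * t) Rm) := by
    rw [wS_eq, wS_eq, wS_eq, ← sum_add_distrib]
    refine sum_congr rfl fun v _ => ?_
    by_cases ha : v ∈ A <;> by_cases hb : v ∈ ball d c (j * t) Rm <;> simp [ha, hb]
    have := h5 v ha v ((hball _ _).1 hb).1
    rw [hd0 v (h1 v ha)] at this
    omega
  have hR : wS n w Rm = wS n w (Rm.filter fun v => decide ((j + 1) * t < d c v)) +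
      wS n w (ball d c ((j + 1) * t) Rm) := by
    rw [wS_eq, wS_eq, wS_eq, ← sum_add_distrib]
    refine sum_congr rfl fun v _ => ?_
    simp only [hball, List.mem_filter, decide_eq_true_eq]
    by_cases ha : v ∈ Rm <;> by_cases hb : (j + 1) * t < d c v <;>
      simp [ha, hb, Nat.not_lt.1, Nat.not_le.2]
  unfold carveAt
  simp only
  refine ⟨fun v hv => ?_, fun v hv => h2 v (List.mem_of_mem_filter hv),
    fun v hv => h2 v (List.mem_of_mem_filter hv), by omega, fun a ha z hz => ?_,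
    fun a ha z hz => ?_, by omega, Or.inr ?_⟩
  · rcases List.mem_append.1 hv with h | h
    · exact h1 v h
    · exact h2 v (List.mem_of_mem_filter h)
  · simp only [List.mem_filter, decide_eq_true_eq] at hz
    rcases List.mem_append.1 ha with h | h
    · exact h5 a h z hz.1
    · have h9 := (hball _ _).1 h
      have h10 := htri c hcP a (h2 a h9.1) z (h2 z hz.1)
      have : (j + 1) * t = j * t + t := by ring
      omega
  · have h9 := (hball _ _).1 ha
    have h10 := (hball _ _).1 hz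
    have h11 := htri a (h2 a h9.1) c hcP z (h2 z h10.1)
    have h12 := hsym a (h2 a h9.1) c hcP
    have : j * t ≤ m * t := Nat.mul_le_mul_right _ hrad.1.le
    have : 2 * m * t = m * t + m * t := by ring
    omega
  · have h9 : (Rm.filter fun v => decide ((j + 1) * t < d c v)).length < Rm.length :=
      List.length_filter_lt_length_iff_exists.2 ⟨c, hcen.1, by simp [hd0 c hcP]⟩
    omega

theorem metric_of_no_cut (n : ℕ) (X d len : ℕ → ℕ → ℕ) (w : ℕ → ℕ) (K L m : ℕ) (P : List ℕ)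
    (hP : ∀ v ∈ P, v < n) (hPl : P.length ≤ n) (hm : wS n w P < 2 ^ m) (hK : 1 ≤ K)
    (hWL : wS n w P ≤ L)
    (hd0 : ∀ a ∈ P, d a a = 0) (htri : ∀ a ∈ P, ∀ b ∈ P, ∀ c ∈ P, d a c ≤ d a b + d b c)
    (hsym : ∀ a ∈ P, ∀ b ∈ P, d a b = d b a) (hlen : ∀ a ∈ P, ∀ b ∈ P, d a b ≤ len a b)
    (hL : ∑ u ∈ range n, ∑ v ∈ range n, (if u ∈ P ∧ v ∈ P then X u v * len u v else 0) ≤ L)
    (hs : ∀ U ∈ cands n w d (16 * K * L / wS n w P + 1) m P, sparse n X w K P U = false) :
    ∑ a ∈ range n, ∑ z ∈ range n, (if a ∈ P ∧ z ∈ P then w a * w z * d a z else 0) ≤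
      50 * m * K * wS n w P * L := by
  set t := 16 * K * L / wS n w P + 1 with ht
  obtain ⟨h1, h2, h3, h4, h5, h6, h7, h8⟩ := carve_spec n d w t m P hP hPl hm hd0 htri hsym
  have hs1 : ∀ U ∈ sweep P d (carve n w d t m P).1, sparse n X w K P U = false :=
    fun U hU => hs U (List.mem_append_left _ hU)
  have hs2 : ∀ U ∈ sweep P d (carve n w d t m P).2.2, sparse n X w K P U = false :=
    fun U hU => hs U (List.mem_append_right _ hU)
  generalize carve n w d t m P = s at *
  obtain ⟨A, Rm, Kc⟩ := s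
  simp only at *
  rcases Nat.eq_zero_or_pos (wS n w P) with h0 | h0
  · rw [wS_eq, sum_eq_zero_iff] at h0
    rw [sum_eq_zero]
    · exact Nat.zero_le _
    · intro a ha
      refine sum_eq_zero fun z _ => ?_
      have := h0 a ha
      split_ifs with h
      · simp only [h.1, if_true] at this
        simp [this]
      · rfl
  have hm1 : 1 ≤ m := by
    rcases Nat.eq_zero_or_pos m with rfl | h
    · simp at hm; omega
    · exact h
  by_cases hc : wS n w P ≤ 8 * wS n w Kc
  · have h9 := sweep_bound n X d len w K L P Kc h3 hc hd0 htri hlen hL hs2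
    have hK0 : Kc ≠ [] := by
      rintro rfl
      simp [wS_eq n w []] at hc
      omega
    have h10 : wS n w P * t ≤ 17 * K * L := by
      have := Nat.mul_div_le (16 * K * L) (wS n w P)
      rw [ht, mul_add]
      nlinarith
    calc _ ≤ ∑ a ∈ range n, ∑ z ∈ range n,
          ((if a ∈ P then w a * phi d Kc a else 0) * (if z ∈ P then w z else 0) +
          (if a ∈ P then w a else 0) * (if z ∈ P then w z * phi d Kc z else 0) +
          (if a ∈ P then w a else 0) * (if z ∈ P then w z else 0) * (2 * m * t)) := by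
          refine sum_le_sum fun a _ => sum_le_sum fun z _ => ?_
          by_cases h : a ∈ P ∧ z ∈ P
          · simp only [h.1, h.2, and_self, if_true]
            obtain ⟨x, hx, e1⟩ := phi_exists d hK0 a
            obtain ⟨y, hy, e2⟩ := phi_exists d hK0 z
            have e3 := htri a h.1 x (h3 x hx) z h.2
            have e4 := htri x (h3 x hx) y (h3 y hy) z h.2
            have e5 := h6 x hx y hy
            have e6 := hsym a h.1 x (h3 x hx)
            have e7 : d a z ≤ phi d Kc a + phi d Kc z + 2 * m * t := by omega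
            calc _ ≤ w a * w z * (phi d Kc a + phi d Kc z + 2 * m * t) := by gcongr
              _ = _ := by ring
          · rw [if_neg h]; exact Nat.zero_le _
      _ = (∑ a ∈ range n, if a ∈ P then w a * phi d Kc a else 0) * wS n w P +
          wS n w P * (∑ a ∈ range n, if a ∈ P then w a * phi d Kc a else 0) +
          wS n w P * wS n w P * (2 * m * t) := by
          simp only [sum_add_distrib, wS_eq, ← sum_mul_sum, ← sum_mul, ← mul_sum]
      _ ≤ (8 * K * L) * wS n w P + wS n w P * (8 * K * L) + wS n w P * (2 * m) * (17 * K * L) := by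
          have : wS n w P * wS n w P * (2 * m * t) = wS n w P * (2 * m) * (wS n w P * t) := by ring
          rw [this]
          gcongr
      _ ≤ _ := by
          have : K * wS n w P * L ≤ m * (K * wS n w P * L) := Nat.le_mul_of_pos_left _ hm1
          nlinarith
  · exfalso
    have h9 := sweep_bound n X d len w K L P A h1 h8 hd0 htri hlen hL hs1
    have hA0 : A ≠ [] := by
      rintro rfl
      simp [wS_eq n w []] at h8
      omega
    have h10 : wS n w Rm * t ≤ ∑ v ∈ range n, (if v ∈ P then w v * phi d A v else 0) := by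
      rw [wS_eq, sum_mul]
      refine sum_le_sum fun v _ => ?_
      by_cases h : v ∈ Rm
      · simp only [h, h2 v h, if_true]
        obtain ⟨x, hx, e1⟩ := phi_exists d hA0 v
        rw [e1]
        exact Nat.mul_le_mul_left _ (h5 x hx v h).le
      · simp [h]
    have h11 : 16 * K * L < wS n w P * t := by
      rw [ht]
      exact Nat.lt_mul_div_succ _ h0
    have h12 : wS n w P ≤ 2 * wS n w Rm := by omega
    have h13 := Nat.mul_le_mul_right t h12
    nlinarith

end Pool.Agent.Lib.MP_fec922_lc
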