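import Pool.Agent.Lib.MP_fec922_lc.SP
import Pool.Agent.Lib.MP_fec922_lc.Cut

/-!
The data used by the rounding procedure, and its numerical parameters.
-/

namespace Pool.Agent.Lib.MP_fec922_lc

open Pool.Agent.Shared.PolyTime Finset

attribute [local fun_prop] PB.comp

variable {α β : Type} [N487b59b3 α] [N487b59b3 β]

/-- Number of vertices, height, number of groups, scale, threshold, root, bound on bit lengths;
capacities, costs, degree bounds, group masses, group membership, hierarchy. -/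
structure Ctx where
  n : ℕ
  h : ℕ
  k : ℕ
  T : ℕ
  th : ℕ
  r : ℕ
  m : ℕ
  X : ℕ → ℕ → ℕ
  c : ℕ → ℕ → ℕ
  b : ℕ → ℕ
  mu : ℕ → ℕ → ℕ
  mem : ℕ → ℕ → Bool
  ht : ℕ → ℕ → ℕ

/-- All parts of the data are computable in polynomial time. -/
@[fun_prop] def CPT (D : α → Ctx) : Prop :=
  (PT (fun a => (D a).n) ∧ PB (fun a => (D a).n)) ∧ (PT (fun a => (D a).h) ∧ PB (fun a => (D a).h)) ∧
  (PT (fun a => (D a).k) ∧ PB (fun a => (D a).k)) ∧ (PT (fun a => (D a).T) ∧ PB (fun a => (D a).T)) ∧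
  PT (fun a => (D a).th) ∧ PT (fun a => (D a).r) ∧ (PT (fun a => (D a).m) ∧ PB (fun a => (D a).m)) ∧
  PT (fun p : α × ℕ × ℕ => (D p.1).X p.2.1 p.2.2) ∧ PT (fun p : α × ℕ × ℕ => (D p.1).c p.2.1 p.2.2) ∧
  PT (fun p : α × ℕ => (D p.1).b p.2) ∧ PT (fun p : α × ℕ × ℕ => (D p.1).mu p.2.1 p.2.2) ∧
  PT (fun p : α × ℕ × ℕ => (D p.1).mem p.2.1 p.2.2) ∧
  PT (fun p : α × ℕ × ℕ => (D p.1).ht p.2.1 p.2.2)

namespace CPT

variable {D : α → Ctx}

@[fun_prop] theorem comp (h : CPT D) {f : β → α} (hf : PT f) : CPT (fun b => D (f b)) := by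
  obtain ⟨⟨h1, h1'⟩, ⟨h2, h2'⟩, ⟨h3, h3'⟩, ⟨h4, h4'⟩, h5, h6, ⟨h7, h7'⟩, h8, h9, h10, h11, h12,
    h13⟩ := h
  have e2 : PT (fun p : β × ℕ × ℕ => (f p.1, p.2)) := by fun_prop
  have e1 : PT (fun p : β × ℕ => (f p.1, p.2)) := by fun_prop
  exact ⟨⟨h1.comp' hf, h1'.comp hf⟩, ⟨h2.comp' hf, h2'.comp hf⟩, ⟨h3.comp' hf, h3'.comp hf⟩,
    ⟨h4.comp' hf, h4'.comp hf⟩, h5.comp' hf, h6.comp' hf, ⟨h7.comp' hf, h7'.comp hf⟩,
    h8.comp' e2, h9.comp' e2, h10.comp' e1, h11.comp' e2, h12.comp' e2, h13.comp' e2⟩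

@[fun_prop] theorem n_pt (h : CPT D) : PT (fun a => (D a).n) := h.1.1
@[fun_prop] theorem n_pb (h : CPT D) : PB (fun a => (D a).n) := h.1.2
@[fun_prop] theorem h_pt (h : CPT D) : PT (fun a => (D a).h) := h.2.1.1
@[fun_prop] theorem h_pb (h : CPT D) : PB (fun a => (D a).h) := h.2.1.2
@[fun_prop] theorem k_pt (h : CPT D) : PT (fun a => (D a).k) := h.2.2.1.1
@[fun_prop] theorem k_pb (h : CPT D) : PB (fun a => (D a).k) := h.2.2.1.2
@[fun_prop] theorem T_pt (h : CPT D) : PT (fun a => (D a).T) := h.2.2.2.1.1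
@[fun_prop] theorem T_pb (h : CPT D) : PB (fun a => (D a).T) := h.2.2.2.1.2
@[fun_prop] theorem th_pt (h : CPT D) : PT (fun a => (D a).th) := h.2.2.2.2.1
@[fun_prop] theorem r_pt (h : CPT D) : PT (fun a => (D a).r) := h.2.2.2.2.2.1
@[fun_prop] theorem m_pt (h : CPT D) : PT (fun a => (D a).m) := h.2.2.2.2.2.2.1.1
@[fun_prop] theorem m_pb (h : CPT D) : PB (fun a => (D a).m) := h.2.2.2.2.2.2.1.2
@[fun_prop] theorem X_pt (h : CPT D) {u v : α → ℕ} (hu : PT u) (hv : PT v) :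
    PT (fun a => (D a).X (u a) (v a)) :=
  h.2.2.2.2.2.2.2.1.comp' (f := fun a => (a, u a, v a)) (by fun_prop)
@[fun_prop] theorem c_pt (h : CPT D) {u v : α → ℕ} (hu : PT u) (hv : PT v) :
    PT (fun a => (D a).c (u a) (v a)) :=
  h.2.2.2.2.2.2.2.2.1.comp' (f := fun a => (a, u a, v a)) (by fun_prop)
@[fun_prop] theorem b_pt (h : CPT D) {u : α → ℕ} (hu : PT u) :
    PT (fun a => (D a).b (u a)) :=
  h.2.2.2.2.2.2.2.2.2.1.comp' (f := fun a => (a, u a)) (by fun_prop)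
@[fun_prop] theorem mu_pt (h : CPT D) {u v : α → ℕ} (hu : PT u) (hv : PT v) :
    PT (fun a => (D a).mu (u a) (v a)) :=
  h.2.2.2.2.2.2.2.2.2.2.1.comp' (f := fun a => (a, u a, v a)) (by fun_prop)
@[fun_prop] theorem mem_pt (h : CPT D) {u v : α → ℕ} (hu : PT u) (hv : PT v) :
    PT (fun a => (D a).mem (u a) (v a)) :=
  h.2.2.2.2.2.2.2.2.2.2.2.1.comp' (f := fun a => (a, u a, v a)) (by fun_prop)
@[fun_prop] theorem ht_pt (h : CPT D) {u v : α → ℕ} (hu : PT u) (hv : PT v) :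
    PT (fun a => (D a).ht (u a) (v a)) :=
  h.2.2.2.2.2.2.2.2.2.2.2.2.comp' (f := fun a => (a, u a, v a)) (by fun_prop)

end CPT

/-- Replacement of the hierarchy. -/
def Ctx.setHt (D : Ctx) (t : List (List ℕ)) : Ctx := { D with ht := g2 t }

@[fun_prop] theorem CPT.setHt {D : α → Ctx} (h : CPT D) {t : α → List (List ℕ)} (ht : PT t) :
    CPT (fun a => (D a).setHt (t a)) := by
  obtain ⟨h1, h2, h3, h4, h5, h6, h7, h8, h9, h10, h11, h12, -⟩ := h
  refine ⟨h1, h2, h3, h4, h5, h6, h7, h8, h9, h10, h11, h12, ?_⟩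
  change PT (fun p : α × ℕ × ℕ => g2 (t p.1) p.2.1 p.2.2)
  fun_prop

/-! Numerical parameters. -/

def pK (h : ℕ) : ℕ := 7 * (h + 1) ^ 3
def pC (h m : ℕ) : ℕ := 50 * m * pK h
def pc0 (h : ℕ) : ℕ := 3 * h + 2
def pmr (h : ℕ) : ℕ := 4 * pc0 h * (h + 1)
def pR (h : ℕ) : ℕ := pmr h * h
def peta (h m : ℕ) : ℕ := 26 * pC h m * pc0 h * h
def psig (h m : ℕ) : ℕ := 4 * pR h * peta h m * pmr h
def plam (n h m : ℕ) : ℕ := 2 * n ^ 2 + 48 * pR h * (1 + 8 * pmr h) * n ^ 2 * pC h m * h * n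
def pcap (n h m : ℕ) : ℕ := sz (plam n h m)
def pK1 (h m : ℕ) : ℕ := 1 + 12 * pR h * (1 + 8 * pmr h) * pC h m * h
def pK2 (n h m : ℕ) : ℕ := psig h m * pcap n h m
def psigB (n h m : ℕ) : ℕ := 32 * h * pK2 n h m
def plamB (n h m : ℕ) : ℕ := 2 * n ^ 2 + 32 * h * n ^ 2 * pK1 h m
def pcapB (n h m : ℕ) : ℕ := sz (plamB n h m)
def palpha (h m : ℕ) : ℕ := 1 + 8 * h * pK1 h m
def pbeta (n h m : ℕ) : ℕ := psigB n h m * pcapB n h m

section
variable {n h m : α → ℕ}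

@[fun_prop] theorem pK_pt (hh : PT h) : PT (fun a => pK (h a)) := by unfold pK; fun_prop
@[fun_prop] theorem pC_pt (hh : PT h) (hm : PT m) : PT (fun a => pC (h a) (m a)) := by
  unfold pC; fun_prop
@[fun_prop] theorem pc0_pt (hh : PT h) : PT (fun a => pc0 (h a)) := by unfold pc0; fun_prop
@[fun_prop] theorem pmr_pt (hh : PT h) : PT (fun a => pmr (h a)) := by unfold pmr; fun_prop
@[fun_prop] theorem pR_pt (hh : PT h) : PT (fun a => pR (h a)) := by unfold pR; fun_prop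
@[fun_prop] theorem pR_pb (hh : PB h) : PB (fun a => pR (h a)) := by
  unfold pR pmr pc0; fun_prop
@[fun_prop] theorem peta_pt (hh : PT h) (hm : PT m) : PT (fun a => peta (h a) (m a)) := by
  unfold peta; fun_prop
@[fun_prop] theorem psig_pt (hh : PT h) (hm : PT m) : PT (fun a => psig (h a) (m a)) := by
  unfold psig; fun_prop
@[fun_prop] theorem plam_pt (hn : PT n) (hh : PT h) (hm : PT m) :
    PT (fun a => plam (n a) (h a) (m a)) := by
  unfold plam; fun_prop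
@[fun_prop] theorem pcap_pt (hn : PT n) (hh : PT h) (hm : PT m) :
    PT (fun a => pcap (n a) (h a) (m a)) := by
  unfold pcap; fun_prop
@[fun_prop] theorem pcap_pb (hn : PT n) (hh : PT h) (hm : PT m) :
    PB (fun a => pcap (n a) (h a) (m a)) := by
  unfold pcap; fun_prop
@[fun_prop] theorem pK1_pt (hh : PT h) (hm : PT m) : PT (fun a => pK1 (h a) (m a)) := by
  unfold pK1; fun_prop
@[fun_prop] theorem pK2_pt (hn : PT n) (hh : PT h) (hm : PT m) :
    PT (fun a => pK2 (n a) (h a) (m a)) := by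
  unfold pK2; fun_prop
@[fun_prop] theorem psigB_pt (hn : PT n) (hh : PT h) (hm : PT m) :
    PT (fun a => psigB (n a) (h a) (m a)) := by
  unfold psigB; fun_prop
@[fun_prop] theorem plamB_pt (hn : PT n) (hh : PT h) (hm : PT m) :
    PT (fun a => plamB (n a) (h a) (m a)) := by
  unfold plamB; fun_prop
@[fun_prop] theorem pcapB_pt (hn : PT n) (hh : PT h) (hm : PT m) :
    PT (fun a => pcapB (n a) (h a) (m a)) := by
  unfold pcapB; fun_prop
@[fun_prop] theorem pcapB_pb (hn : PT n) (hh : PT h) (hm : PT m) :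
    PB (fun a => pcapB (n a) (h a) (m a)) := by
  unfold pcapB; fun_prop
@[fun_prop] theorem palpha_pt (hh : PT h) (hm : PT m) : PT (fun a => palpha (h a) (m a)) := by
  unfold palpha; fun_prop
@[fun_prop] theorem pbeta_pt (hn : PT n) (hh : PT h) (hm : PT m) :
    PT (fun a => pbeta (n a) (h a) (m a)) := by
  unfold pbeta; fun_prop

end

namespace Ctx

variable (D : Ctx)

/-- The cluster of height `j` around `s`. -/
def clu (j s : ℕ) : List ℕ := (List.range D.n).filter fun v => decide (D.ht s v ≤ j)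

/-- Capacity at `u` leaving the cluster of height `j - 1` around `u`. -/
def wj (j u : ℕ) : ℕ := sm D.n fun v => if j ≤ D.ht u v then D.X u v else 0

/-- Sum of `f` over the cluster of height `j` around `s`. -/
def cs (j s : ℕ) (f : ℕ → ℕ) : ℕ := sm D.n fun v => if D.ht s v ≤ j then f v else 0

def out (j s : ℕ) : ℕ := D.cs j s (D.wj (j + 1))

def WW (j s : ℕ) : ℕ := D.cs j s (D.wj j)

/-- Vertex weight for the load table `ld`. -/
def lam (ld : List ℕ) (v : ℕ) : ℕ :=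
  ew (psig D.h D.m * D.n * D.b v) (pcap D.n D.h D.m) (g1 ld v)

def kap : ℕ := psig D.h D.m * D.n * D.n

def len (ld : List ℕ) (u v : ℕ) : ℕ := D.kap * D.c u v + D.lam ld u + D.lam ld v

def cX (u : ℕ) : ℕ := sm D.n fun v => D.X u v * D.c u v

def dX (u : ℕ) : ℕ := sm D.n fun v => D.X u v

def vol (ld : List ℕ) (u : ℕ) : ℕ := D.kap * D.cX u + 2 * D.lam ld u * D.dX u

theorem mem_clu {j s v : ℕ} : v ∈ D.clu j s ↔ v < D.n ∧ D.ht s v ≤ j := by simp [clu]

theorem cs_eq (j s : ℕ) (f : ℕ → ℕ) :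
    D.cs j s f = ∑ v ∈ range D.n, if D.ht s v ≤ j then f v else 0 := sm_eq _ _

theorem wj_eq (j u : ℕ) :
    D.wj j u = ∑ v ∈ range D.n, if j ≤ D.ht u v then D.X u v else 0 := sm_eq _ _

theorem wS_clu (j s : ℕ) (f : ℕ → ℕ) : wS D.n f (D.clu j s) = D.cs j s f := by
  rw [wS_eq, cs_eq]
  refine sum_congr rfl fun v hv => if_congr ?_ rfl rfl
  simp [mem_clu, mem_range.1 hv]

end Ctx

section
variable {D : α → Ctx} {j s u v : α → ℕ} {ld : α → List ℕ}

@[fun_prop] theorem clu_pt (hD : CPT D) (hj : PT j) (hs : PT s) :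
    PT (fun a => (D a).clu (j a) (s a)) := by
  unfold Ctx.clu; fun_prop
@[fun_prop] theorem wj_pt (hD : CPT D) (hj : PT j) (hu : PT u) :
    PT (fun a => (D a).wj (j a) (u a)) := by
  unfold Ctx.wj; fun_prop
@[fun_prop] theorem cs_pt {f : α → ℕ → ℕ} (hD : CPT D) (hj : PT j) (hs : PT s)
    (hf : PT (fun p : α × ℕ => f p.1 p.2)) : PT (fun a => (D a).cs (j a) (s a) (f a)) := by
  unfold Ctx.cs; fun_prop
@[fun_prop] theorem out_pt (hD : CPT D) (hj : PT j) (hs : PT s) :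
    PT (fun a => (D a).out (j a) (s a)) := by
  unfold Ctx.out; fun_prop
@[fun_prop] theorem WW_pt (hD : CPT D) (hj : PT j) (hs : PT s) :
    PT (fun a => (D a).WW (j a) (s a)) := by
  unfold Ctx.WW; fun_prop
@[fun_prop] theorem lam_pt (hD : CPT D) (hl : PT ld) (hv : PT v) :
    PT (fun a => (D a).lam (ld a) (v a)) := by
  unfold Ctx.lam; fun_prop
@[fun_prop] theorem kap_pt (hD : CPT D) : PT (fun a => (D a).kap) := by
  unfold Ctx.kap; fun_prop
@[fun_prop] theorem len_pt (hD : CPT D) (hl : PT ld) (hu : PT u) (hv : PT v) :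
    PT (fun a => (D a).len (ld a) (u a) (v a)) := by
  unfold Ctx.len; fun_prop
@[fun_prop] theorem cX_pt (hD : CPT D) (hu : PT u) : PT (fun a => (D a).cX (u a)) := by
  unfold Ctx.cX; fun_prop
@[fun_prop] theorem dX_pt (hD : CPT D) (hu : PT u) : PT (fun a => (D a).dX (u a)) := by
  unfold Ctx.dX; fun_prop
@[fun_prop] theorem vol_pt (hD : CPT D) (hl : PT ld) (hu : PT u) :
    PT (fun a => (D a).vol (ld a) (u a)) := by
  unfold Ctx.vol; fun_prop

end

end Pool.Agent.Lib.MP_fec922_lc
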