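import Pool.Agent.Lib.MP_fec922_lc.Alg

/-!
Rational costs are scaled to integers, and the lists are translated to subgraphs.
-/

namespace Pool.Agent.Lib.MP_fec922_lc

open Finset Pool.Agent.Shared.PolyTime

attribute [local fun_prop] PB.comp

variable {α : Type} [N487b59b3 α]

abbrev QInst := List (List (Bool × ℚ)) × List (List Bool) × List ℕ

def den (M : List (List (Bool × ℚ))) : ℕ := (M.flatten.map fun x => x.2.den).foldl (· * ·) 1

def toI (J : QInst) : IInst :=
  (J.2.2, J.1.map (fun row => row.map fun x => (x.1, x.2.num.toNat * (den J.1 / x.2.den))),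
    J.2.1.map fun row => (List.range J.2.2.length).filter fun v => row.getD v false)

def alg (J : QInst) : List ℕ × List (ℕ × ℕ) := algI (toI J)

theorem rat_pt {q : α → ℚ} (hq : PT q) :
    PT (fun a => (((q a).num.toNat, (-(q a).num).toNat), (q a).den)) :=
  hq.of_enc fun _ => rfl

@[fun_prop] theorem num_pt {q : α → ℚ} (hq : PT q) : PT (fun a => (q a).num.toNat) :=
  (rat_pt hq).fst.fst

@[fun_prop] theorem qden_pt {q : α → ℚ} (hq : PT q) : PT (fun a => (q a).den) :=
  (rat_pt hq).snd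

@[fun_prop] theorem cden_pt {M : α → List (List (Bool × ℚ))} (hM : PT M) :
    PT (fun a => den (M a)) := by
  unfold den
  refine PT.foldl_grow (f := fun _ (s x : ℕ) => s * x) (by fun_prop) (by fun_prop) (by fun_prop)
    (g := fun a => sz ((M a).flatten.map fun x => x.2.den)) (by fun_prop) fun a s x hx => ?_
  have := sz_mem hx
  have := sz_mul_le s x
  omega

theorem alg_pt : PT alg := by
  have : PT toI := by unfold toI; fun_prop
  exact algI_pt this

theorem den_eq (M : List (List (Bool × ℚ))) : den M = (M.flatten.map fun x => x.2.den).prod :=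
  List.prod_eq_foldl.symm

theorem den_pos (M : List (List (Bool × ℚ))) : 0 < den M := by
  rw [den_eq]
  refine List.prod_pos fun x hx => ?_
  obtain ⟨y, -, rfl⟩ := List.mem_map.1 hx
  exact y.2.pos

theorem den_cast {M : List (List (Bool × ℚ))} {x : Bool × ℚ} (hx : x ∈ M.flatten) (h0 : 0 ≤ x.2) :
    ((x.2.num.toNat * (den M / x.2.den) : ℕ) : ℚ) = den M * x.2 := by
  have h1 : x.2.den ∣ den M := by
    rw [den_eq]
    exact List.dvd_prod (List.mem_map.2 ⟨x, hx, rfl⟩)
  obtain ⟨d, hd⟩ := h1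
  rw [hd, Nat.mul_div_cancel_left _ x.2.pos]
  have h2 : ((x.2.num.toNat : ℕ) : ℚ) = x.2.num := by
    rw [← Int.cast_natCast, Int.toNat_of_nonneg (Rat.num_nonneg.2 h0)]
  have h3 : (x.2.num : ℚ) = x.2 * x.2.den := (Rat.mul_den_eq_num _).symm
  push_cast
  rw [h2, h3]
  ring

theorem sum_toFinset_le {β : Type} [DecidableEq β] (f : β → ℕ) (l : List β) :
    ∑ x ∈ l.toFinset, f x ≤ (l.map f).sum := by
  induction l with
  | nil => simp
  | cons x l ih =>
    rw [List.toFinset_cons, List.map_cons, List.sum_cons]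
    by_cases h : x ∈ l.toFinset
    · rw [insert_eq_of_mem h]; omega
    · rw [sum_insert h]; omega

theorem walk_ch {n : ℕ} {G : SimpleGraph (Fin n)} {T : G.Subgraph} {a v : T.verts}
    (w : T.coe.Walk a v) :
    ∃ l, Ch a.1.1 l v.1.1 ∧ ∀ e ∈ l, ∃ x y : Fin n, x.1 = e.1 ∧ y.1 = e.2 ∧ T.Adj x y := by
  induction w with
  | nil => exact ⟨[], Ch.nil _, by simp⟩
  | @cons x y z h _ ih =>
    obtain ⟨l, a1, a2⟩ := ih
    refine ⟨(x.1.1, y.1.1) :: l, Ch.cons _ _ _ _ a1, fun e he => ?_⟩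
    rcases List.mem_cons.1 he with rfl | he
    · exact ⟨x.1, y.1, rfl, rfl, h⟩
    · exact a2 e he

/-- The subgraph described by a pair of lists. -/
def sub {n : ℕ} (G : SimpleGraph (Fin n)) (p : List ℕ × List (ℕ × ℕ))
    (h1 : ∀ u v : Fin n, (u.1, v.1) ∈ p.2 → G.Adj u v)
    (h2 : ∀ e ∈ p.2, e.1 ∈ p.1 ∧ e.2 ∈ p.1) : G.Subgraph where
  verts := {v | v.1 ∈ p.1}
  Adj u v := (u.1, v.1) ∈ p.2 ∨ (v.1, u.1) ∈ p.2
  adj_sub h := h.elim (h1 _ _) fun h => (h1 _ _ h).symm
  edge_vert h := h.elim (fun h => (h2 _ h).1) fun h => (h2 _ h).2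
  symm := ⟨fun _ _ h => h.symm⟩

section
variable {n : ℕ} {G : SimpleGraph (Fin n)} {T : G.Subgraph} {p : List ℕ × List (ℕ × ℕ)}

theorem edge_image (hA : ∀ u v, T.Adj u v ↔ (u.1, v.1) ∈ p.2 ∨ (v.1, u.1) ∈ p.2) :
    T.edgeSet.toFinite.toFinset.image (Sym2.map Fin.val) ⊆
      (p.2.map fun e => s(e.1, e.2)).toFinset := by
  intro x hx
  obtain ⟨e, he, rfl⟩ := mem_image.1 hx
  induction e using Sym2.ind with
  | h u v =>
    have := (hA u v).1 (by simpa using he)
    simp only [List.mem_toFinset, List.mem_map]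
    rcases this with h | h
    · exact ⟨_, h, rfl⟩
    · exact ⟨_, h, Sym2.eq_swap⟩

theorem edge_sum_le (hA : ∀ u v, T.Adj u v ↔ (u.1, v.1) ∈ p.2 ∨ (v.1, u.1) ∈ p.2)
    (f : Sym2 ℕ → ℕ) : ∑ e ∈ T.edgeSet.toFinite.toFinset, f (e.map Fin.val) ≤
      (p.2.map fun e => f s(e.1, e.2)).sum := by
  rw [← sum_image (f := f) fun x _ y _ h => Sym2.map.injective Fin.val_injective h]
  refine (sum_le_sum_of_subset (edge_image hA)).trans ((sum_toFinset_le _ _).trans ?_)
  rw [List.map_map]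
  rfl

theorem isTree_of {H : List (ℕ × ℕ)} {t : ℕ} (P : TreeP H t p) (hlt : ∀ v ∈ p.1, v < n)
    (hV : ∀ v, v ∈ T.verts ↔ v.1 ∈ p.1)
    (hA : ∀ u v, T.Adj u v ↔ (u.1, v.1) ∈ p.2 ∨ (v.1, u.1) ∈ p.2) : T.coe.IsTree := by
  let mk : ∀ v ∈ p.1, T.verts := fun v hv => ⟨⟨v, hlt v hv⟩, (hV _).2 hv⟩
  have h1 : ∀ v, Conn p.2 t v → ∃ hv : v ∈ p.1, T.coe.Reachable (mk t P.mem) (mk v hv) := by
    intro v hv
    induction hv with
    | refl => exact ⟨P.mem, SimpleGraph.Reachable.refl _⟩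
    | tail _ h ih =>
      obtain ⟨a1, a2⟩ := ih
      exact ⟨h.elim (fun h => (P.ends _ h).2) fun h => (P.ends _ h).1,
        a2.trans (SimpleGraph.Adj.reachable ((hA _ _).2 h))⟩
  have hc : T.coe.Connected := by
    rw [SimpleGraph.connected_iff_exists_forall_reachable]
    exact ⟨mk t P.mem, fun w => (h1 _ (P.conn _ ((hV _).1 w.2))).2⟩
  refine SimpleGraph.isTree_iff_connected_and_card.2
    ⟨hc, le_antisymm ?_ hc.card_vert_le_card_edgeSet_add_one⟩
  have h2 : Nat.card T.coe.edgeSet ≤ p.2.length := by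
    have a1 := edge_sum_le hA fun _ => 1
    have a2 : Nat.card T.coe.edgeSet = T.edgeSet.ncard := by
      rw [← SimpleGraph.Subgraph.image_coe_edgeSet_coe,
        Set.ncard_image_of_injective _ (Sym2.map.injective Subtype.val_injective)]
      rfl
    rw [a2, Set.ncard_eq_toFinset_card _ T.edgeSet.toFinite]
    simpa using a1
  have h3 : p.1.length ≤ Nat.card T.verts := by
    rw [← List.toFinset_card_of_nodup P.nodup, ← Set.ncard_coe_finset]
    change _ ≤ T.verts.ncard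
    rw [← Set.ncard_image_of_injective _ Fin.val_injective]
    refine Set.ncard_le_ncard fun v hv => ?_
    have hv : v ∈ p.1 := by simpa using hv
    exact ⟨_, (mk v hv).2, rfl⟩
  have := P.len
  omega

theorem deg_le (hA : ∀ u v, T.Adj u v ↔ (u.1, v.1) ∈ p.2 ∨ (v.1, u.1) ∈ p.2) (v : Fin n) :
    (T.neighborSet v).ncard ≤ inc v.1 p.2 := by
  let l := (p.2.filter fun e => e.1 == v.1).map Prod.snd ++
    (p.2.filter fun e => e.2 == v.1).map Prod.fst
  have h1 : l.length = inc v.1 p.2 := by simp [l, inc, List.countP_eq_length_filter]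
  rw [← h1, ← Set.ncard_image_of_injective _ Fin.val_injective]
  refine le_trans ?_ l.toFinset_card_le
  rw [← Set.ncard_coe_finset]
  refine Set.ncard_le_ncard ?_
  rintro _ ⟨w, hw, rfl⟩
  have := (hA v w).1 hw
  simpa [l] using this

theorem dart_sum_le (T : G.Subgraph) [DecidableRel T.Adj] (f : Sym2 (Fin n) → ℕ) :
    ∑ u, ∑ w, (decide (T.Adj u w)).toNat * f s(u, w) ≤
      2 * ∑ e ∈ T.edgeSet.toFinite.toFinset, f e := by
  have h1 : ∑ u, ∑ w, (decide (T.Adj u w)).toNat * f s(u, w) =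
      ∑ x ∈ univ.filter fun x : Fin n × Fin n => T.Adj x.1 x.2, f s(x.1, x.2) := by
    rw [← Fintype.sum_prod_type', sum_filter]
    exact sum_congr rfl fun x _ => by by_cases h : T.Adj x.1 x.2 <;> simp [h]
  have h2 : ∀ S : Finset (Fin n × Fin n), (∀ x ∈ S, T.Adj x.1 x.2) →
      (∀ x ∈ S, ∀ y ∈ S, x = y.swap → x = y) →
      ∑ x ∈ S, f s(x.1, x.2) ≤ ∑ e ∈ T.edgeSet.toFinite.toFinset, f e := by
    intro S a1 a2
    rw [← sum_image (g := fun x : Fin n × Fin n => s(x.1, x.2)) (f := f)]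
    · refine sum_le_sum_of_subset fun e he => ?_
      obtain ⟨x, hx, rfl⟩ := mem_image.1 he
      simpa using a1 x hx
    · intro x hx y hy h
      rcases Sym2.eq_iff.1 h with ⟨b1, b2⟩ | ⟨b1, b2⟩
      · exact Prod.ext b1 b2
      · exact a2 x hx y hy (Prod.ext b1 b2)
  rw [h1, ← sum_filter_add_sum_filter_not _ fun x : Fin n × Fin n => x.1 < x.2, two_mul]
  refine Nat.add_le_add (h2 _ (fun x hx => by simp_all) ?_) (h2 _ (fun x hx => by simp_all) ?_)
  · rintro x hx y hy rfl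
    simp only [mem_filter, Prod.fst_swap, Prod.snd_swap] at hx hy
    exact absurd hx.2 (not_lt.2 hy.2.le)
  · rintro x hx y hy rfl
    simp only [mem_filter, Prod.fst_swap, Prod.snd_swap, not_lt] at hx hy
    have := le_antisymm hx.2 hy.2
    exact Prod.ext this.symm this

end

end Pool.Agent.Lib.MP_fec922_lc
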