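import Pool.Agent.Lib.MP_fec922_lc.Round

/-!
The guarantee of the terminal selection.
-/

namespace Pool.Agent.Lib.MP_fec922_lc

open Finset Pool.Agent.Shared.PolyTime

theorem bernoulli_nat (a n : ℕ) : a ^ (n + 1) + (n + 1) * a ^ n ≤ (a + 1) ^ (n + 1) := by
  induction n with
  | zero => simp
  | succ n ih =>
    calc a ^ (n + 1 + 1) + (n + 1 + 1) * a ^ (n + 1)
        ≤ (a ^ (n + 1) + (n + 1) * a ^ n) * (a + 1) := by
          have : 0 ≤ (n + 1) * a ^ n := Nat.zero_le _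
          ring_nf
          omega
      _ ≤ (a + 1) ^ (n + 1) * (a + 1) := Nat.mul_le_mul_right _ ih
      _ = _ := by ring

theorem two_mul_pred_pow {m : ℕ} (hm : 0 < m) : 2 * (m - 1) ^ m ≤ m ^ m := by
  obtain ⟨a, rfl⟩ : ∃ a, m = a + 1 := ⟨m - 1, by omega⟩
  have h1 := bernoulli_nat a a
  have h2 : a ^ (a + 1) ≤ (a + 1) * a ^ a := by
    rw [pow_succ, mul_comm]; exact Nat.mul_le_mul_right _ (by omega)
  rw [Nat.add_sub_cancel]
  omega

theorem eq_zero_of_decay {m h k u : ℕ} (hm : 0 < m) (hk : k < 2 ^ h)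
    (H : m ^ (m * h) * u ≤ (m - 1) ^ (m * h) * k) : u = 0 := by
  have h1 : 2 ^ h * (m - 1) ^ (m * h) ≤ m ^ (m * h) := by
    rw [pow_mul, pow_mul, ← mul_pow]
    exact Nat.pow_le_pow_left (two_mul_pred_pow hm) _
  have h2 : 0 < m ^ (m * h) := by positivity
  have h3 : m ^ (m * h) * (2 ^ h * u) ≤ m ^ (m * h) * k := by
    calc _ = 2 ^ h * (m ^ (m * h) * u) := by ring
      _ ≤ 2 ^ h * ((m - 1) ^ (m * h) * k) := Nat.mul_le_mul_left _ H
      _ = (2 ^ h * (m - 1) ^ (m * h)) * k := by ring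
      _ ≤ _ := Nat.mul_le_mul_right _ h1
  have h4 := Nat.le_of_mul_le_mul_left h3 h2
  by_contra hu
  have : 2 ^ h ≤ 2 ^ h * u := Nat.le_mul_of_pos_right _ (Nat.pos_of_ne_zero hu)
  omega

theorem lt_two_pow_sz (x : ℕ) : x < 2 ^ sz x := by rw [sz_nat]; exact Nat.lt_size_self x

namespace Ctx

variable {D : Ctx}

theorem stepA_nodup : D.stepA.1.Nodup :=
  iterate_induction D.aRound ([], []) (fun _ q => q.1.Nodup) List.nodup_nil (fun _ q h => by
    unfold aRound
    split_ifs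
    · exact h
    · exact List.nodup_range.filter _) _

theorem Good.stepA_spec (G : D.Good) (M : D.Metric D.stepA.2) :
    ∃ x : ℕ → ℕ → ℝ, (∀ u w, 0 ≤ x u w) ∧ (∀ v < D.n, D.xdeg x v ≤ pK2 D.n D.h D.m * D.b v) ∧
      D.xcost x ≤ pK1 D.h D.m * D.n ∧
      (∀ t ∈ D.stepA.1, t < D.n ∧ ∀ f, |f t - D.avg D.h 0 f| ≤ D.NN x f) ∧
      ∀ g < D.k, ∃ v ∈ D.stepA.1, D.mem g v = true := by
  set ls := D.stepA.2 with hls
  have key := iterate_induction D.aRound ([], []) (fun i q =>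
    (∀ v < D.n, g1 q.2 v ≤ g1 ls v) → ∃ x, D.XInv q.1 q.2 x ∧
      D.FF q.2 x ≤ D.kap * D.n + i * (D.bud + peta D.h D.m * D.n * D.Lam ls + D.xi) ∧
      (pmr D.h * (D.bud + peta D.h D.m * D.n * D.Lam ls) ≤ D.xi →
        pmr D.h ^ i * D.usum q.1 (fun _ => 1) ≤ (pmr D.h - 1) ^ i * D.k))
    (fun _ => ⟨fun _ _ => 0, ⟨fun _ _ => le_rfl, fun v _ => by simp [xdeg], by simp⟩, by
      have : D.Psi [] ≤ D.kap * D.n := by
        refine (sum_le_card_nsmul _ _ D.kap fun v hv => ?_).trans (by simp [mul_comm])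
        simp only [g1, List.getD_nil, psi_zero, kap]
        exact Nat.mul_le_mul_left _ (G.hb v (mem_range.1 hv)).2
      simp only [FF, xcost, zero_mul, sum_const_zero, mul_zero, add_zero, Nat.cast_zero]
      exact_mod_cast this, fun _ => by
        simp only [pow_zero, one_mul, usum, sm_eq]
        exact (sum_le_card_nsmul _ _ 1 fun g _ => by cases D.unc [] g <;> simp).trans (by simp)⟩)
    (fun i q ih hq => by
      obtain ⟨x, a1, a2, a3⟩ := ih fun v hv => (aRound_ld q v hv).trans (hq v hv)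
      obtain ⟨x', b1, b2, b3⟩ := G.round M q x a1 hq
      refine ⟨x', b1, by push_cast; linarith, fun hs => ?_⟩
      calc _ = pmr D.h ^ i * (pmr D.h * D.usum (D.aRound q).1 fun _ => 1) := by ring
        _ ≤ pmr D.h ^ i * ((pmr D.h - 1) * D.usum q.1 fun _ => 1) := Nat.mul_le_mul_left _ (b3 hs)
        _ = (pmr D.h - 1) * (pmr D.h ^ i * D.usum q.1 fun _ => 1) := by ring
        _ ≤ (pmr D.h - 1) * ((pmr D.h - 1) ^ i * D.k) := Nat.mul_le_mul_left _ (a3 hs)
        _ = _ := by ring) (pR D.h) (fun _ _ => le_rfl)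
  obtain ⟨x, XI, hF, hS⟩ := key
  change D.XInv D.stepA.1 ls x at XI
  change D.FF ls x ≤ _ at hF
  change _ → _ * D.usum D.stepA.1 _ ≤ _ at hS
  have hsig : 0 < psig D.h D.m := by have := psig_ge G.hh G.hm; omega
  have hn := G.hn
  have hh := G.hh
  have hR := pR_pos G.hh
  have hmr := pmr_pos D.h
  have hC := pC_pos D.h G.hm
  have hkap : 0 < D.kap := by unfold kap; positivity
  have h1 : psig D.h D.m * D.n * D.Lam ls ≤ D.Psi ls := by
    rw [Lam, mul_sum]
    refine sum_le_sum fun v hv => ?_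
    have := (G.hb v (mem_range.1 hv)).1
    refine le_trans (le_of_eq ?_) (psi_ge _ _ _ (by positivity))
    unfold lam; ring
  have h2 : 2 * (pR D.h * (peta D.h D.m * D.n * D.Lam ls)) ≤ psig D.h D.m * D.n * D.Lam ls := by
    calc _ = (2 * 1) * (pR D.h * (peta D.h D.m * D.n * D.Lam ls)) := by ring
      _ ≤ (4 * pmr D.h) * (pR D.h * (peta D.h D.m * D.n * D.Lam ls)) := by gcongr <;> omega
      _ = _ := by unfold psig; ring
  have hc0 := xcost_nonneg (D := D) XI.pos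
  have h3 : ((psig D.h D.m * D.n * D.Lam ls : ℕ) : ℝ) + 4 * D.n * D.kap * D.xcost x ≤
      (2 * (D.kap * D.n) + 2 * (pR D.h * ((1 + 8 * pmr D.h) * D.bud)) : ℕ) := by
    have h1' : ((psig D.h D.m * D.n * D.Lam ls : ℕ) : ℝ) ≤ D.Psi ls := Nat.cast_le.2 h1
    have h2' : ((2 * (pR D.h * (peta D.h D.m * D.n * D.Lam ls)) : ℕ) : ℝ) ≤
      (psig D.h D.m * D.n * D.Lam ls : ℕ) := Nat.cast_le.2 h2
    rw [FF, xi] at hF
    push_cast at h1' h2' hF ⊢
    linarith
  have h4 : psig D.h D.m * D.n * D.Lam ls ≤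
      2 * (D.kap * D.n) + 2 * (pR D.h * ((1 + 8 * pmr D.h) * D.bud)) := by
    have : 0 ≤ 4 * (D.n : ℝ) * D.kap * D.xcost x := by positivity
    exact_mod_cast (show ((psig D.h D.m * D.n * D.Lam ls : ℕ) : ℝ) ≤
      (2 * (D.kap * D.n) + 2 * (pR D.h * ((1 + 8 * pmr D.h) * D.bud)) : ℕ) by linarith)
  have h5 : D.Lam ls ≤ plam D.n D.h D.m := by
    refine Nat.le_of_mul_le_mul_left (h4.trans (le_of_eq ?_))
      (show 0 < psig D.h D.m * D.n by positivity)
    unfold plam bud kap; ring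
  have h6 : D.kap * D.n ≤ D.bud := by
    calc D.kap * D.n = 1 * (D.n * 1) * 1 * D.kap * 1 := by ring
      _ ≤ 24 * (D.n * D.n) * pC D.h D.m * D.kap * D.h := by gcongr <;> omega
      _ = _ := by unfold bud; ring
  have h7 : peta D.h D.m * D.n * D.Lam ls ≤ 5 * D.bud := by
    refine Nat.le_of_mul_le_mul_left ?_ (show 0 < 4 * pR D.h * pmr D.h by positivity)
    calc _ = psig D.h D.m * D.n * D.Lam ls := by unfold psig; ring
      _ ≤ 2 * (1 * 1 * D.bud) + 2 * (pR D.h * ((1 + 8 * pmr D.h) * D.bud)) := by omega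
      _ ≤ 2 * (pR D.h * pmr D.h * D.bud) + 2 * (pR D.h * ((pmr D.h + 8 * pmr D.h) * D.bud)) := by
          gcongr <;> omega
      _ = _ := by ring
  have h8 := eq_zero_of_decay hmr G.hk (hS (by
    calc _ ≤ pmr D.h * (8 * D.bud) := Nat.mul_le_mul_left _ (by omega)
      _ = _ := by unfold xi; ring))
  refine ⟨x, XI.pos, fun v hv => ?_, ?_, XI.term, fun g hg => ?_⟩
  · have hb := (G.hb v hv).1
    have a1 : D.lam ls v ≤ plam D.n D.h D.m := by
      refine le_trans ?_ h5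
      refine le_trans ?_ (single_le_sum (f := fun v => D.lam ls v * D.b v)
        (fun _ _ => Nat.zero_le _) (mem_range.2 hv))
      exact Nat.le_mul_of_pos_right _ hb
    have a2 := lt_of_ew_le (by positivity) a1 (lt_two_pow_sz _)
    have a3 : (g1 ls v : ℝ) ≤ D.n * (pK2 D.n D.h D.m * D.b v) := by
      have : g1 ls v ≤ D.n * (pK2 D.n D.h D.m * D.b v) := a2.le.trans (le_of_eq (by
        unfold pK2 pcap; ring))
      exact_mod_cast this
    exact le_of_mul_le_mul_left ((XI.deg v hv).trans a3) (by exact_mod_cast hn)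
  · have a1 : 2 * (D.kap * D.n) + 2 * (pR D.h * ((1 + 8 * pmr D.h) * D.bud)) ≤
        4 * D.n * D.kap * (pK1 D.h D.m * D.n) := by
      have : D.kap * D.n ≤ 2 * (D.kap * D.n * D.n) := by
        have := Nat.le_mul_of_pos_right (D.kap * D.n) hn
        omega
      unfold pK1 bud
      nlinarith
    have a2 : ((2 * (D.kap * D.n) + 2 * (pR D.h * ((1 + 8 * pmr D.h) * D.bud)) : ℕ) : ℝ) ≤
      (4 * D.n * D.kap * (pK1 D.h D.m * D.n) : ℕ) := Nat.cast_le.2 a1
    have a3 := Nat.cast_nonneg (α := ℝ) (psig D.h D.m * D.n * D.Lam ls)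
    refine le_of_mul_le_mul_left ?_ (show (0 : ℝ) < 4 * D.n * D.kap by positivity)
    have a4 : ((4 * D.n * D.kap * (pK1 D.h D.m * D.n) : ℕ) : ℝ) =
      4 * D.n * D.kap * (pK1 D.h D.m * D.n) := by push_cast; ring
    linarith
  · rw [usum, sm_eq, sum_eq_zero_iff] at h8
    have a1 := h8 g (mem_range.2 hg)
    have a2 : ¬ D.unc D.stepA.1 g = true := by
      intro h; simp [h] at a1
    rw [unc_iff] at a2
    push Not at a2
    obtain ⟨v, -, a3, a4⟩ := a2
    exact ⟨v, a3, by simpa using a4⟩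

end Ctx

end Pool.Agent.Lib.MP_fec922_lc
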