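import Pool.Agent.Lib.MP_fec922_lc.StepA

/-!
Facts on clusters and on the fractional flows between the distributions of nested clusters.
-/

namespace Pool.Agent.Lib.MP_fec922_lc

open Finset

theorem sum4_comm {M : Type} [AddCommMonoid M] (s : Finset ℕ) (F : ℕ → ℕ → ℕ → ℕ → M) :
    ∑ u ∈ s, ∑ w ∈ s, ∑ a ∈ s, ∑ z ∈ s, F u w a z = ∑ a ∈ s, ∑ z ∈ s, ∑ u ∈ s, ∑ w ∈ s, F u w a z :=
  calc _ = ∑ u ∈ s, ∑ a ∈ s, ∑ w ∈ s, ∑ z ∈ s, F u w a z := sum_congr rfl fun _ _ => sum_comm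
    _ = ∑ a ∈ s, ∑ u ∈ s, ∑ w ∈ s, ∑ z ∈ s, F u w a z := sum_comm
    _ = ∑ a ∈ s, ∑ u ∈ s, ∑ z ∈ s, ∑ w ∈ s, F u w a z :=
      sum_congr rfl fun _ _ => sum_congr rfl fun _ _ => sum_comm
    _ = _ := sum_congr rfl fun _ _ => sum_comm

theorem wt_cast (c : ℕ → ℕ → ℕ) (l : List (ℕ × ℕ)) :
    (wt c l : ℝ) = (l.map fun e => (c e.1 e.2 : ℝ)).sum := by
  induction l with
  | nil => simp
  | cons e l ih => simp [ih]

theorem inc_cast (v : ℕ) (l : List (ℕ × ℕ)) : (inc v l : ℝ) =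
    (l.map fun e => (if e.1 = v then (1 : ℝ) else 0) + (if e.2 = v then 1 else 0)).sum := by
  induction l with
  | nil => simp
  | cons e l ih =>
    rw [inc_cons, List.map_cons, List.sum_cons, ← ih]
    push_cast
    rfl

namespace Ctx

variable (D : Ctx)

/-- What the rounding needs from the linear program and from the hierarchy. -/
structure Good : Prop where
  H : HInv D.n D.h D.r D.ht
  hn : 0 < D.n
  hh : 0 < D.h
  hm : 0 < D.m
  hk : D.k < 2 ^ D.h
  hX : ∀ u < D.n, ∀ v < D.n, D.X u v = D.X v u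
  hc : ∀ u < D.n, ∀ v < D.n, D.c u v = D.c v u
  hb : ∀ v < D.n, 1 ≤ D.b v ∧ D.b v ≤ D.n
  th : 1 ≤ D.th
  hT : 8 * D.n * D.h * D.th ≤ D.T
  sup : ∀ g < D.k, ∀ v < D.n, D.mem g v = false → D.mu g v = 0
  tot : ∀ g < D.k, D.T ≤ ∑ v ∈ range D.n, D.mu g v + D.th ∧ ∑ v ∈ range D.n, D.mu g v ≤ 2 * D.T
  cut : ∀ g < D.k, ∀ j < D.h, ∀ s < D.n, D.cs j s (D.mu g) ≤ 2 * D.out j s + D.th
  hY : ∀ v < D.n, ∃ y ≤ D.T, D.dX v ≤ 2 * D.b v * y + D.th ∧ ∀ j < D.h, y ≤ 2 * D.out j v + D.th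
  cost : ∑ u ∈ range D.n, D.cX u ≤ 6 * D.n * D.T

variable {D}

theorem Good.th_le (G : D.Good) : D.th ≤ D.T := by
  have h1 := G.hT
  have h2 : 1 ≤ D.n * D.h := Nat.mul_pos G.hn G.hh
  nlinarith

theorem Good.T_pos (G : D.Good) : 0 < D.T := G.th.trans G.th_le

theorem Good.cs_congr (G : D.Good) {j s v : ℕ} (hs : s < D.n) (hv : v < D.n) (h : D.ht s v ≤ j)
    (f : ℕ → ℕ) : D.cs j v f = D.cs j s f := by
  rw [cs_eq, cs_eq]
  refine sum_congr rfl fun u hu => if_congr ?_ rfl rfl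
  have := G.H.facts hs hv (mem_range.1 hu)
  omega

theorem RR_eq (j s : ℕ) :
    D.RR j s = 1 + ∑ i ∈ range D.h, if j ≤ i then D.T / D.out i s else 0 := by
  rw [RR, sm_eq]

theorem ok_iff {j s : ℕ} : D.ok j s = true ↔ ∀ i < D.h, j ≤ i → D.th ≤ D.out i s := by
  simp only [ok, List.all_eq_true, List.mem_range, Bool.or_eq_true, decide_eq_true_eq]
  exact forall₂_congr fun i _ => by omega

theorem Good.RR_congr (G : D.Good) {j s v : ℕ} (hs : s < D.n) (hv : v < D.n)
    (h : D.ht s v ≤ j) : D.RR j v = D.RR j s := by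
  rw [RR_eq, RR_eq]
  congr 1
  refine sum_congr rfl fun i _ => ?_
  split_ifs with hi
  · rw [out, out, G.cs_congr hs hv (h.trans hi)]
  · rfl

theorem Good.ok_congr (G : D.Good) {j s v : ℕ} (hs : s < D.n) (hv : v < D.n)
    (h : D.ht s v ≤ j) : D.ok j v = true ↔ D.ok j s = true := by
  rw [ok_iff, ok_iff]
  refine forall₃_congr fun i _ hi => ?_
  rw [out, out, G.cs_congr hs hv (h.trans hi)]

theorem ok_mono {j j' s : ℕ} (h : j ≤ j') (hj : D.ok j s = true) : D.ok j' s = true :=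
  ok_iff.2 fun i hi hji => ok_iff.1 hj i hi (h.trans hji)

theorem ok_top (s : ℕ) : D.ok D.h s = true := ok_iff.2 fun i hi h => by omega

theorem RR_top (s : ℕ) : D.RR D.h s = 1 := by
  rw [RR_eq, sum_eq_zero fun i hi => if_neg (by simpa using hi), Nat.add_zero]

theorem RR_pos (j s : ℕ) : 1 ≤ D.RR j s := by rw [RR_eq]; omega

theorem RR_succ_le (j s : ℕ) : D.RR (j + 1) s ≤ D.RR j s := by
  rw [RR_eq, RR_eq]
  exact Nat.add_le_add_left (sum_le_sum fun i _ => by
    split_ifs <;> first | omega | exact Nat.zero_le _) _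

theorem Good.T_le_RR (G : D.Good) {j s : ℕ} (hj : j < D.h) (h : D.ok j s = true) :
    D.T ≤ D.RR j s * D.out j s := by
  have h1 := G.th.trans (ok_iff.1 h j hj le_rfl)
  have h2 : 1 + D.T / D.out j s ≤ D.RR j s := by
    rw [RR_eq]
    refine Nat.add_le_add_left ?_ _
    have := single_le_sum (f := fun i => if j ≤ i then D.T / D.out i s else 0)
      (fun _ _ => Nat.zero_le _) (mem_range.2 hj)
    simpa using this
  have h3 := Nat.lt_mul_div_succ D.T h1
  nlinarith

theorem mul_RR_le {j s q : ℕ} (h : D.ok j s = true) (hq : q ≤ 2 * D.T)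
    (hq' : ∀ i < D.h, j ≤ i → q ≤ 2 * D.out i s + D.th) : q * D.RR j s ≤ pc0 D.h * D.T := by
  rw [RR_eq, mul_add, mul_sum, pc0]
  have : ∑ i ∈ range D.h, q * (if j ≤ i then D.T / D.out i s else 0) ≤ D.h * (3 * D.T) := by
    refine (sum_le_card_nsmul _ _ (3 * D.T) fun i hi => ?_).trans (by simp)
    split_ifs with hji
    · have h1 := ok_iff.1 h i (mem_range.1 hi) hji
      have h2 := hq' i (mem_range.1 hi) hji
      have h3 := Nat.mul_div_le D.T (D.out i s)
      have h4 := Nat.mul_le_mul_right (D.T / D.out i s) (show q ≤ 3 * D.out i s by omega)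
      nlinarith
    · simp
  nlinarith

theorem Good.dX_RR (G : D.Good) {j v : ℕ} (hv : v < D.n) (h : D.ok j v = true) :
    D.dX v * D.RR j v ≤ 3 * pc0 D.h * D.b v * D.T := by
  obtain ⟨y, h1, h2, h3⟩ := G.hY v hv
  have h4 := mul_RR_le h (q := y) (by omega) fun i hi _ => h3 i hi
  have h5 := mul_RR_le h (q := D.th) (by have := G.th_le; omega) fun i hi _ => by omega
  have h6 := Nat.mul_le_mul_right (D.RR j v) h2
  have h7 := Nat.mul_le_mul_left (2 * D.b v) h4
  have h8 := Nat.mul_le_mul_right (pc0 D.h * D.T) (G.hb v hv).1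
  nlinarith

theorem cs_mono {j j' s : ℕ} (h : j ≤ j') {f f' : ℕ → ℕ} (hf : ∀ v, f v ≤ f' v) :
    D.cs j s f ≤ D.cs j' s f' := by
  rw [cs_eq, cs_eq]
  refine sum_le_sum fun v _ => ?_
  have := hf v
  split_ifs <;> omega

theorem mu'_le (g v : ℕ) : D.mu' g v ≤ D.mu g v := by
  unfold mu'; cases D.ok 0 v <;> simp

theorem cs_le_sum (j s : ℕ) (f : ℕ → ℕ) : D.cs j s f ≤ ∑ v ∈ range D.n, f v := by
  rw [cs_eq]
  exact sum_le_sum fun v _ => by split_ifs <;> omega

theorem Good.zeta_le (G : D.Good) {j s g : ℕ} (hs : s < D.n) (hg : g < D.k)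
    (h : D.ok j s = true) : D.zeta j s g ≤ pc0 D.h * D.T := by
  rw [zeta, mul_comm]
  refine mul_RR_le h ?_ fun i hi hji => (cs_mono hji (mu'_le g)).trans (G.cut g hg i hi s hs)
  exact ((cs_mono le_rfl (mu'_le g)).trans (cs_le_sum _ _ _)).trans (G.tot g hg).2

theorem Good.cs_mu'_zero (G : D.Good) {j s : ℕ} (hs : s < D.n) (h : D.ok j s = false) (g : ℕ) :
    D.cs j s (D.mu' g) = 0 := by
  rw [cs_eq]
  refine sum_eq_zero fun v hv => ?_
  split_ifs with h1
  · unfold mu'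
    cases h2 : D.ok 0 v
    · rfl
    · have := (G.ok_congr hs (mem_range.1 hv) h1).1 (ok_mono (Nat.zero_le j) h2)
      rw [h] at this
      exact absurd this (by simp)
  · rfl

theorem Good.mass (G : D.Good) {g : ℕ} (hg : g < D.k) :
    D.T ≤ 2 * ∑ v ∈ range D.n, D.mu' g v := by
  have h1 : ∑ v ∈ range D.n, D.mu g v ≤ ∑ v ∈ range D.n, D.mu' g v +
      ∑ i ∈ range D.h, ∑ s ∈ range D.n,
        if D.out i s < D.th then D.cs i s (D.mu g) else 0 := by
    rw [sum_comm, ← sum_add_distrib]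
    refine sum_le_sum fun v hv => ?_
    unfold mu'
    cases h2 : D.ok 0 v
    · have h3 : ¬ ∀ i < D.h, 0 ≤ i → D.th ≤ D.out i v := by rw [← ok_iff, h2]; simp
      push Not at h3
      obtain ⟨i, hi, -, h3⟩ := h3
      refine le_trans ?_ (Nat.le_add_left _ _)
      refine le_trans ?_ (single_le_sum (f := fun i => if D.out i v < D.th then D.cs i v (D.mu g)
        else 0) (fun _ _ => Nat.zero_le _) (mem_range.2 hi))
      simp only [h3, if_true, cs_eq]
      refine le_trans ?_ (single_le_sum (f := fun u => if D.ht v u ≤ i then D.mu g u else 0)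
        (fun _ _ => Nat.zero_le _) hv)
      simp [G.H.self v (mem_range.1 hv)]
    · simp
  have h2 : ∑ i ∈ range D.h, ∑ s ∈ range D.n,
      (if D.out i s < D.th then D.cs i s (D.mu g) else 0) ≤ D.h * (D.n * (3 * D.th)) := by
    refine (sum_le_card_nsmul _ _ (D.n * (3 * D.th)) fun i hi => ?_).trans (by simp)
    refine (sum_le_card_nsmul _ _ (3 * D.th) fun s hs => ?_).trans (by simp)
    have := G.cut g hg i (mem_range.1 hi) s (mem_range.1 hs)
    split_ifs <;> omega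
  have h3 := (G.tot g hg).1
  have h4 := G.hT
  have h5 : D.th ≤ D.n * D.h * D.th := Nat.le_mul_of_pos_left _ (Nat.mul_pos G.hn G.hh)
  nlinarith

theorem wj_succ_le (j u : ℕ) : D.wj (j + 1) u ≤ D.wj j u := by
  rw [wj_eq, wj_eq]
  exact sum_le_sum fun v _ => by split_ifs <;> omega

theorem Good.WW_pos (G : D.Good) {j s : ℕ} (hj : j < D.h) (h : D.ok j s = true) :
    0 < D.WW j s ∧ 0 < D.WW (j + 1) s := by
  have h1 := G.th.trans (ok_iff.1 h j hj le_rfl)
  exact ⟨lt_of_lt_of_le h1 (cs_mono le_rfl (wj_succ_le j)),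
    lt_of_lt_of_le h1 (cs_mono (Nat.le_succ j) fun _ => le_rfl)⟩

theorem lam_mono {ld ld' : List ℕ} {v : ℕ} (h : g1 ld v ≤ g1 ld' v) : D.lam ld v ≤ D.lam ld' v :=
  ew_mono _ _ h

theorem len_mono {ld ld' : List ℕ} (h : ∀ v < D.n, g1 ld v ≤ g1 ld' v) :
    ∀ u < D.n, ∀ v < D.n, D.len ld u v ≤ D.len ld' u v := fun u hu v hv => by
  have := D.lam_mono (h u hu)
  have := D.lam_mono (h v hv)
  unfold len; omega

theorem pairSum_eq (j s : ℕ) (f : ℕ → ℕ → ℕ) : D.pairSum j s f =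
    ∑ a ∈ range D.n, ∑ z ∈ range D.n,
      if D.ht s a ≤ j ∧ D.ht s z ≤ j + 1 then D.wj j a * D.wj (j + 1) z * f a z else 0 := by
  rw [pairSum, cs_eq]
  refine sum_congr rfl fun a _ => ?_
  rw [cs_eq]
  split_ifs with h <;> simp [h]

variable (D) in
/-- Weighted sum of the distances from `a` to the points of its cluster of height `j`. -/
def spread (ld : List ℕ) (j a : ℕ) : ℕ := D.cs j a fun z => D.wj j z * dist D.n (D.len ld) a z

theorem Good.length_bound (G : D.Good) {ld ls : List ℕ} (hl : ∀ v < D.n, g1 ld v ≤ g1 ls v)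
    (M : D.Metric ls) {j s : ℕ} (hj : j < D.h) (hs : s < D.n) (h : D.ok j s = true) :
    D.T * D.pairSum j s (dist D.n (D.len ld)) ≤ D.RR j s *
      (pC D.h D.m * D.cs j s (D.vol ls) * D.den j s +
        D.WW j s * D.cs j s fun a => D.wj (j + 1) a * D.spread ls (j + 1) a) := by
  have h1 : D.pairSum j s (dist D.n (D.len ld)) ≤ D.pairSum j s (dist D.n (D.len ls)) := by
    rw [pairSum_eq, pairSum_eq]
    refine sum_le_sum fun a ha => sum_le_sum fun z hz => ?_
    split_ifs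
    · exact Nat.mul_le_mul_left _ (dist_mono (len_mono hl) (mem_range.1 ha) (mem_range.1 hz))
    · rfl
  have h2 := M j hj.le s hs
  set d := dist D.n (D.len ls) with hd
  have h3 : D.out j s * D.pairSum j s d ≤
      D.WW (j + 1) s * (∑ a ∈ range D.n, ∑ z ∈ range D.n,
        (if D.ht s a ≤ j ∧ D.ht s z ≤ j then D.wj j a * D.wj j z * d a z else 0)) +
      D.WW j s * D.cs j s fun a => D.wj (j + 1) a * D.spread ls (j + 1) a := by
    have e1 : D.out j s * D.pairSum j s d = ∑ a ∈ range D.n, ∑ y ∈ range D.n, ∑ z ∈ range D.n,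
        (if D.ht s y ≤ j then D.wj (j + 1) y else 0) *
        if D.ht s a ≤ j ∧ D.ht s z ≤ j + 1 then D.wj j a * D.wj (j + 1) z * d a z else 0 := by
      rw [out, cs_eq, pairSum_eq, mul_sum]
      exact sum_congr rfl fun a _ => sum_mul_sum _ _ _ _
    have e2 : D.WW (j + 1) s * (∑ a ∈ range D.n, ∑ z ∈ range D.n,
        (if D.ht s a ≤ j ∧ D.ht s z ≤ j then D.wj j a * D.wj j z * d a z else 0)) =
        ∑ a ∈ range D.n, ∑ y ∈ range D.n, ∑ z ∈ range D.n,
        (if D.ht s z ≤ j + 1 then D.wj (j + 1) z else 0) *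
        (if D.ht s a ≤ j ∧ D.ht s y ≤ j then D.wj j a * D.wj j y * d a y else 0) := by
      rw [WW, cs_eq, mul_sum]
      refine sum_congr rfl fun a _ => ?_
      rw [mul_sum]
      exact sum_congr rfl fun y _ => sum_mul _ _ _
    have e3 : (D.WW j s * D.cs j s fun a => D.wj (j + 1) a * D.spread ls (j + 1) a) =
        ∑ a ∈ range D.n, ∑ y ∈ range D.n, ∑ z ∈ range D.n,
        (if D.ht s a ≤ j then D.wj j a else 0) *
        (if D.ht s y ≤ j ∧ D.ht s z ≤ j + 1 then D.wj (j + 1) y * (D.wj (j + 1) z * d y z)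
          else 0) := by
      rw [WW, cs_eq, cs_eq, sum_mul_sum]
      refine sum_congr rfl fun a _ => sum_congr rfl fun y hy => ?_
      rw [← mul_sum]
      congr 1
      split_ifs with h
      · rw [spread, G.cs_congr hs (mem_range.1 hy) (h.trans (Nat.le_succ j)), cs_eq, mul_sum]
        refine sum_congr rfl fun z _ => ?_
        simp [h, hd]
      · simp [h]
    rw [e1, e2, e3]
    simp only [← sum_add_distrib]
    refine sum_le_sum fun a ha => sum_le_sum fun y hy => sum_le_sum fun z hz => ?_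
    have h4 := dist_triangle (D.len ls) (mem_range.1 ha) (mem_range.1 hy) (mem_range.1 hz)
    have h5 := D.wj_succ_le j y
    by_cases a1 : D.ht s a ≤ j <;> by_cases a2 : D.ht s y ≤ j <;>
      by_cases a3 : D.ht s z ≤ j + 1 <;> simp only [a1, a2, a3, and_self, and_false, false_and,
        if_true, if_false, mul_zero, zero_mul, Nat.zero_le]
    rw [← hd] at h4
    calc _ ≤ D.wj (j + 1) y * (D.wj j a * D.wj (j + 1) z * (d a y + d y z)) := by gcongr
      _ = D.wj (j + 1) z * (D.wj j a * D.wj (j + 1) y * d a y) +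
          D.wj j a * (D.wj (j + 1) y * (D.wj (j + 1) z * d y z)) := by ring
      _ ≤ _ := by gcongr
  calc D.T * D.pairSum j s (dist D.n (D.len ld)) ≤ (D.RR j s * D.out j s) * D.pairSum j s d :=
        Nat.mul_le_mul (G.T_le_RR hj h) h1
    _ = D.RR j s * (D.out j s * D.pairSum j s d) := by ring
    _ ≤ _ := by
        refine Nat.mul_le_mul_left _ (h3.trans (Nat.add_le_add_right ?_ _))
        refine (Nat.mul_le_mul_left _ h2).trans (le_of_eq ?_)
        unfold den; ring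

variable (D)

/-- Fractional degree. -/
noncomputable def xdeg (x : ℕ → ℕ → ℝ) (v : ℕ) : ℝ := ∑ u ∈ range D.n, ∑ w ∈ range D.n,
  x u w * ((if u = v then 1 else 0) + (if w = v then 1 else 0))

noncomputable def xcost (x : ℕ → ℕ → ℝ) : ℝ := ∑ u ∈ range D.n, ∑ w ∈ range D.n, x u w * D.c u w

noncomputable def NN (x : ℕ → ℕ → ℝ) (f : ℕ → ℝ) : ℝ :=
  ∑ u ∈ range D.n, ∑ w ∈ range D.n, x u w * |f u - f w|

noncomputable def avg (j s : ℕ) (f : ℕ → ℝ) : ℝ :=
  (∑ u ∈ range D.n, if D.ht s u ≤ j then (D.wj j u : ℝ) * f u else 0) / D.WW j s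

noncomputable def flow (ld : List ℕ) (j s u w : ℕ) : ℝ :=
  (D.pairSum j s fun a z => (path D.n (D.len ld) a z).count (u, w) : ℕ) / D.den j s

variable {D}

theorem flow_nonneg (ld : List ℕ) (j s u w : ℕ) : 0 ≤ D.flow ld j s u w := by
  unfold flow; positivity

theorem flow_sum (ld : List ℕ) (j s : ℕ) (g : ℕ → ℕ → ℝ) :
    ∑ u ∈ range D.n, ∑ w ∈ range D.n, D.flow ld j s u w * g u w =
    (∑ a ∈ range D.n, ∑ z ∈ range D.n, if D.ht s a ≤ j ∧ D.ht s z ≤ j + 1 then
      (D.wj j a : ℝ) * D.wj (j + 1) z * ((path D.n (D.len ld) a z).map fun e => g e.1 e.2).sum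
      else 0) / D.den j s := by
  calc _ = (∑ u ∈ range D.n, ∑ w ∈ range D.n, ∑ a ∈ range D.n, ∑ z ∈ range D.n,
        if D.ht s a ≤ j ∧ D.ht s z ≤ j + 1 then (D.wj j a : ℝ) * D.wj (j + 1) z *
          (((path D.n (D.len ld) a z).count (u, w) : ℝ) * g u w) else 0) / D.den j s := by
        rw [sum_div]
        refine sum_congr rfl fun u _ => ?_
        rw [sum_div]
        refine sum_congr rfl fun w _ => ?_
        rw [flow, div_mul_eq_mul_div, pairSum_eq]
        congr 1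
        push_cast
        simp only [sum_mul, ite_mul, zero_mul, mul_assoc]
    _ = _ := by
        congr 1
        rw [sum4_comm]
        refine sum_congr rfl fun a ha => sum_congr rfl fun z hz => ?_
        split_ifs
        · rw [← sum_count g (path_in (D.len ld) (mem_range.1 ha) (mem_range.1 hz))]
          simp only [mul_sum]
        · simp

theorem xcost_flow (ld : List ℕ) (j s : ℕ) : D.xcost (D.flow ld j s) =
    (D.pairSum j s fun a z => wt D.c (path D.n (D.len ld) a z) : ℕ) / D.den j s := by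
  rw [xcost, flow_sum, pairSum_eq]
  push_cast
  simp only [wt_cast]

theorem xdeg_flow (ld : List ℕ) (j s v : ℕ) : D.xdeg (D.flow ld j s) v =
    (D.pairSum j s fun a z => inc v (path D.n (D.len ld) a z) : ℕ) / D.den j s := by
  rw [xdeg, flow_sum, pairSum_eq]
  push_cast
  simp only [inc_cast]

theorem pairSum_dist (ld : List ℕ) (j s : ℕ) : D.pairSum j s (dist D.n (D.len ld)) =
    D.kap * D.pairSum j s (fun a z => wt D.c (path D.n (D.len ld) a z)) +
      ∑ v ∈ range D.n, D.lam ld v * D.pairSum j s fun a z => inc v (path D.n (D.len ld) a z) := by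
  simp only [pairSum_eq, mul_sum]
  rw [eq_comm, sum_comm (f := fun v a => ∑ z ∈ range D.n, D.lam ld v * _), ← sum_add_distrib]
  refine sum_congr rfl fun a ha => ?_
  rw [sum_comm (f := fun v z => D.lam ld v * _), ← sum_add_distrib]
  refine sum_congr rfl fun z hz => Eq.symm ?_
  split_ifs
  · have := wt_split D.kap D.c (D.lam ld) (path_in (D.len ld) (mem_range.1 ha) (mem_range.1 hz))
    change dist D.n (D.len ld) a z = _ at this
    rw [this, mul_add, mul_sum]
    congr 1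
    · ring
    · exact sum_congr rfl fun v _ => by ring
  · simp

theorem pairSum_inc_le (ld : List ℕ) (j s v : ℕ) :
    D.pairSum j s (fun a z => inc v (path D.n (D.len ld) a z)) ≤ 2 * D.den j s := by
  rw [pairSum_eq, den, WW, WW, cs_eq, cs_eq, sum_mul_sum, mul_sum]
  refine sum_le_sum fun a ha => ?_
  rw [mul_sum]
  refine sum_le_sum fun z hz => ?_
  have := path_inc (D.len ld) (mem_range.1 ha) (mem_range.1 hz) v
  by_cases a1 : D.ht s a ≤ j <;> by_cases a2 : D.ht s z ≤ j + 1 <;> simp [a1, a2]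
  nlinarith [Nat.zero_le (D.wj j a * D.wj (j + 1) z)]

theorem avg_flow (ld : List ℕ) {j s : ℕ} (h1 : 0 < D.WW j s) (h2 : 0 < D.WW (j + 1) s)
    (f : ℕ → ℝ) : |D.avg j s f - D.avg (j + 1) s f| ≤ D.NN (D.flow ld j s) f := by
  rw [NN, flow_sum]
  have h1' : (0 : ℝ) < D.WW j s := by exact_mod_cast h1
  have h2' : (0 : ℝ) < D.WW (j + 1) s := by exact_mod_cast h2
  have e : D.avg j s f - D.avg (j + 1) s f = (∑ a ∈ range D.n, ∑ z ∈ range D.n,
      if D.ht s a ≤ j ∧ D.ht s z ≤ j + 1 then (D.wj j a : ℝ) * D.wj (j + 1) z * (f a - f z)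
      else 0) / D.den j s := by
    have e1 : (D.WW j s : ℝ) = ∑ u ∈ range D.n, if D.ht s u ≤ j then (D.wj j u : ℝ) else 0 := by
      rw [WW, cs_eq]; push_cast; rfl
    have e2 : (D.WW (j + 1) s : ℝ) =
        ∑ u ∈ range D.n, if D.ht s u ≤ j + 1 then (D.wj (j + 1) u : ℝ) else 0 := by
      rw [WW, cs_eq]; push_cast; rfl
    rw [avg, avg, den, div_sub_div _ _ h1'.ne' h2'.ne']
    push_cast
    congr 1
    rw [e1, e2, sum_mul_sum, sum_mul_sum, ← sum_sub_distrib]
    refine sum_congr rfl fun a _ => ?_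
    rw [← sum_sub_distrib]
    refine sum_congr rfl fun z _ => ?_
    by_cases a1 : D.ht s a ≤ j <;> by_cases a2 : D.ht s z ≤ j + 1 <;> simp [a1, a2]
    ring
  rw [e, abs_div, Nat.abs_cast]
  refine div_le_div_of_nonneg_right ?_ (Nat.cast_nonneg _)
  refine (abs_sum_le_sum_abs _ _).trans (sum_le_sum fun a ha => ?_)
  refine (abs_sum_le_sum_abs _ _).trans (sum_le_sum fun z hz => ?_)
  split_ifs
  · rw [abs_mul, abs_of_nonneg (by positivity)]
    exact mul_le_mul_of_nonneg_left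
      ((path_ch (D.len ld) (mem_range.1 ha) (mem_range.1 hz)).abs_sub_le f) (by positivity)
  · simp

theorem Good.avg_congr (G : D.Good) {j s v : ℕ} (hs : s < D.n) (hv : v < D.n)
    (h : D.ht s v ≤ j) (f : ℕ → ℝ) : D.avg j v f = D.avg j s f := by
  rw [avg, avg, WW, WW, G.cs_congr hs hv h]
  congr 1
  refine sum_congr rfl fun u hu => if_congr ?_ rfl rfl
  have := G.H.facts hs hv (mem_range.1 hu)
  omega

theorem Good.avg_zero (G : D.Good) {v : ℕ} (hv : v < D.n) (h : D.ok 0 v = true) (f : ℕ → ℝ) :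
    D.avg 0 v f = f v := by
  have h1 := (G.WW_pos G.hh h).1
  have h2 : ∀ u ∈ range D.n, u ≠ v → ¬ D.ht v u ≤ 0 := fun u hu hne h =>
    hne (G.H.eq_of_zero G.hh hv (mem_range.1 hu) h).symm
  rw [WW, cs_eq, sum_eq_single v (fun u hu hne => if_neg (h2 u hu hne))
    (fun h => absurd (mem_range.2 hv) h), if_pos (G.H.self v hv).le] at h1
  rw [avg, WW, cs_eq, sum_eq_single v (fun u hu hne => if_neg (h2 u hu hne))
    (fun h => absurd (mem_range.2 hv) h), sum_eq_single v (fun u hu hne => if_neg (h2 u hu hne))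
    (fun h => absurd (mem_range.2 hv) h), if_pos (G.H.self v hv).le, if_pos (G.H.self v hv).le]
  have : (D.wj 0 v : ℝ) ≠ 0 := by exact_mod_cast h1.ne'
  field_simp

theorem NN_add (x y : ℕ → ℕ → ℝ) (f : ℕ → ℝ) :
    D.NN (fun u w => x u w + y u w) f = D.NN x f + D.NN y f := by
  simp only [NN, add_mul, sum_add_distrib]

theorem xdeg_add (x y : ℕ → ℕ → ℝ) (v : ℕ) :
    D.xdeg (fun u w => x u w + y u w) v = D.xdeg x v + D.xdeg y v := by
  simp only [xdeg, add_mul, sum_add_distrib]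

theorem xcost_add (x y : ℕ → ℕ → ℝ) :
    D.xcost (fun u w => x u w + y u w) = D.xcost x + D.xcost y := by
  simp only [xcost, add_mul, sum_add_distrib]

theorem NN_nonneg {x : ℕ → ℕ → ℝ} (hx : ∀ u w, 0 ≤ x u w) (f : ℕ → ℝ) : 0 ≤ D.NN x f :=
  sum_nonneg fun u _ => sum_nonneg fun w _ => mul_nonneg (hx u w) (abs_nonneg _)

theorem xcost_nonneg {x : ℕ → ℕ → ℝ} (hx : ∀ u w, 0 ≤ x u w) : 0 ≤ D.xcost x :=
  sum_nonneg fun u _ => sum_nonneg fun w _ => mul_nonneg (hx u w) (Nat.cast_nonneg _)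

end Ctx

end Pool.Agent.Lib.MP_fec922_lc
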