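import Pool.Agent.Lib.MP_fec922_lc.Inst

/-!
Extraction of a spanning tree of a component, and growth rates of the parameters.
-/

namespace Pool.Agent.Lib.MP_fec922_lc

open Finset Pool.Agent.Shared.PolyTime

attribute [local fun_prop] PB.comp

variable {α : Type} [N487b59b3 α]

def growStep (H : List (ℕ × ℕ)) (p : List ℕ × List (ℕ × ℕ)) : List ℕ × List (ℕ × ℕ) :=
  (H.find? fun e => xor (decide (e.1 ∈ p.1)) (decide (e.2 ∈ p.1))).elim p
    fun e => ((if e.1 ∈ p.1 then e.2 else e.1) :: p.1, e :: p.2)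

def grow (n : ℕ) (H : List (ℕ × ℕ)) (t : ℕ) : List ℕ × List (ℕ × ℕ) := (growStep H)^[n] ([t], [])

theorem growStep_cases (H : List (ℕ × ℕ)) (p : List ℕ × List (ℕ × ℕ)) :
    ((∀ e ∈ H, e.1 ∈ p.1 ↔ e.2 ∈ p.1) ∧ growStep H p = p) ∨
    ∃ e ∈ H, (e.1 ∈ p.1 ∧ e.2 ∉ p.1 ∧ growStep H p = (e.2 :: p.1, e :: p.2)) ∨
      (e.1 ∉ p.1 ∧ e.2 ∈ p.1 ∧ growStep H p = (e.1 :: p.1, e :: p.2)) := by
  unfold growStep
  cases h : H.find? fun e => xor (decide (e.1 ∈ p.1)) (decide (e.2 ∈ p.1)) with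
  | none =>
    refine Or.inl ⟨fun e he => ?_, rfl⟩
    have := List.find?_eq_none.1 h e he
    simpa using this
  | some e =>
    refine Or.inr ⟨e, List.mem_of_find?_eq_some h, ?_⟩
    have := List.find?_some h
    by_cases h1 : e.1 ∈ p.1 <;> by_cases h2 : e.2 ∈ p.1 <;> simp_all

@[fun_prop] theorem grow_pt {n t : α → ℕ} {H : α → List (ℕ × ℕ)} (hn : PT n) (hb : PB n)
    (hH : PT H) (ht : PT t) : PT (fun a => grow (n a) (H a) (t a)) := by
  unfold grow
  refine PT.iterate_grow (f := fun a p => growStep (H a) p) (by unfold growStep; fun_prop) hn hb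
    (by fun_prop) (g := fun a => 3 * sz (H a)) (by fun_prop) fun a p => ?_
  rcases growStep_cases (H a) p with ⟨-, e⟩ | ⟨e, he, ⟨-, -, h⟩ | ⟨-, -, h⟩⟩
  · rw [e]; omega
  all_goals
    have h1 := sz_mem he
    rw [h, sz_prod p]
    rw [sz_prod e] at h1
    simp only [sz_pair, sz_cons, sz_prod e]
    omega

/-- The vertex list and the dart list describe a tree all of whose darts lie in `H`. -/
structure TreeP (H : List (ℕ × ℕ)) (t : ℕ) (p : List ℕ × List (ℕ × ℕ)) : Prop where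
  nodup : p.1.Nodup
  nodup' : p.2.Nodup
  sub : ∀ e ∈ p.2, e ∈ H
  ends : ∀ e ∈ p.2, e.1 ∈ p.1 ∧ e.2 ∈ p.1
  len : p.1.length = p.2.length + 1
  mem : t ∈ p.1
  conn : ∀ v ∈ p.1, Conn p.2 t v

theorem grow_inv (n : ℕ) (H : List (ℕ × ℕ)) (t : ℕ) : TreeP H t (grow n H t) ∧
    (In n H → t < n → ∀ v ∈ (grow n H t).1, v < n) ∧
    ((∀ e ∈ H, e.1 ∈ (grow n H t).1 ↔ e.2 ∈ (grow n H t).1) ∨ n + 1 ≤ (grow n H t).1.length) := by
  refine iterate_induction (growStep H) ([t], []) (fun i p => TreeP H t p ∧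
    (In n H → t < n → ∀ v ∈ p.1, v < n) ∧
    ((∀ e ∈ H, e.1 ∈ p.1 ↔ e.2 ∈ p.1) ∨ i + 1 ≤ p.1.length))
    ⟨⟨by simp, by simp, by simp, by simp, by simp, by simp, ?_⟩, by simp, by simp⟩ ?_ n
  · intro v hv
    rw [List.mem_singleton.1 hv]
    exact Relation.ReflTransGen.refl
  rintro i p ⟨T, h1, h2⟩
  have key : ∀ e ∈ H, ∀ a b, (e = (a, b) ∨ e = (b, a)) → a ∈ p.1 → b ∉ p.1 →
      TreeP H t (b :: p.1, e :: p.2) ∧ (In n H → t < n → ∀ v ∈ b :: p.1, v < n) ∧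
      ((∀ e ∈ H, e.1 ∈ b :: p.1 ↔ e.2 ∈ b :: p.1) ∨ i + 1 + 1 ≤ (b :: p.1).length) := by
    intro e he a b hab ha hb
    refine ⟨⟨List.nodup_cons.2 ⟨hb, T.nodup⟩, List.nodup_cons.2 ⟨fun h => hb ?_, T.nodup'⟩,
      fun x hx => ?_, fun x hx => ?_, by simp [T.len], List.mem_cons_of_mem _ T.mem,
      fun v hv => ?_⟩, fun c1 c2 v hv => ?_, Or.inr ?_⟩
    · have := T.ends e h
      rcases hab with rfl | rfl
      · exact this.2
      · exact this.1
    · rcases List.mem_cons.1 hx with rfl | hx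
      · exact he
      · exact T.sub x hx
    · rcases List.mem_cons.1 hx with rfl | hx
      · rcases hab with rfl | rfl <;> simp [ha]
      · exact ⟨List.mem_cons_of_mem _ (T.ends x hx).1, List.mem_cons_of_mem _ (T.ends x hx).2⟩
    · rcases List.mem_cons.1 hv with rfl | hv
      · refine ((T.conn a ha).mono fun x hx => List.mem_cons_of_mem _ hx).tail ?_
        rcases hab with rfl | rfl <;> simp
      · exact (T.conn v hv).mono fun x hx => List.mem_cons_of_mem _ hx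
    · rcases List.mem_cons.1 hv with rfl | hv
      · have := c1 e he
        rcases hab with rfl | rfl
        · exact this.2
        · exact this.1
      · exact h1 c1 c2 v hv
    · rcases h2 with h2 | h2
      · have := h2 e he
        rcases hab with rfl | rfl
        · exact absurd (this.1 ha) hb
        · exact absurd (this.2 ha) hb
      · simpa using h2
  rcases growStep_cases H p with ⟨c, e⟩ | ⟨e, he, ⟨a1, a2, h⟩ | ⟨a1, a2, h⟩⟩
  · rw [e]; exact ⟨T, h1, Or.inl c⟩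
  · rw [h]; exact key e he e.1 e.2 (Or.inl rfl) a1 a2
  · rw [h]; exact key e he e.2 e.1 (Or.inr rfl) a2 a1

theorem grow_complete {n : ℕ} {H : List (ℕ × ℕ)} {t : ℕ} (hH : In n H) (ht : t < n) {v : ℕ}
    (h : Conn H t v) : v ∈ (grow n H t).1 := by
  obtain ⟨T, h1, h2⟩ := grow_inv n H t
  have h3 : ∀ e ∈ H, e.1 ∈ (grow n H t).1 ↔ e.2 ∈ (grow n H t).1 := by
    refine h2.resolve_right ?_
    have h4 : (grow n H t).1.toFinset ⊆ range n := fun x hx =>
      mem_range.2 (h1 hH ht x (List.mem_toFinset.1 hx))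
    have h5 := card_le_card h4
    rw [List.toFinset_card_of_nodup T.nodup, card_range] at h5
    omega
  induction h with
  | refl => exact T.mem
  | tail _ h' ih =>
    rcases h' with h' | h'
    · exact (h3 _ h').1 ih
    · exact (h3 _ h').2 ih

theorem TreeP.wt_le {H : List (ℕ × ℕ)} {t : ℕ} {p : List ℕ × List (ℕ × ℕ)} (T : TreeP H t p)
    (c : ℕ → ℕ → ℕ) : wt c p.2 ≤ wt c H := by
  obtain ⟨l, h1, h2⟩ := List.subperm_of_subset T.nodup' T.sub
  calc wt c p.2 = wt c l := ((h1.map _).sum_eq).symm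
    _ ≤ _ := wt_sublist c h2

theorem TreeP.inc_le {H : List (ℕ × ℕ)} {t : ℕ} {p : List ℕ × List (ℕ × ℕ)} (T : TreeP H t p)
    (v : ℕ) : inc v p.2 ≤ inc v H :=
  Nat.add_le_add ((List.subperm_of_subset T.nodup' T.sub).countP_le _)
    ((List.subperm_of_subset T.nodup' T.sub).countP_le _)

/-! Growth rates. -/

def pH (n k : ℕ) : ℕ := sz (n + k) + 1

theorem pH_ge {n : ℕ} (k : ℕ) (hn : 0 < n) : 2 ≤ pH n k := by
  have : 0 < (n + k).size := Nat.size_pos.2 (by omega)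
  rw [pH, sz_nat]; omega

theorem lt_pH (n k : ℕ) : n + k < 2 ^ (pH n k - 1) := lt_two_pow_sz _

/-- Bounded by a power of the logarithm. -/
def Pl (f : ℕ → ℕ → ℕ) : Prop := ∃ c, ∀ n k, 0 < n → f n k ≤ pH n k ^ c

/-- Bounded by a polynomial. -/
def Po (f : ℕ → ℕ → ℕ) : Prop := ∃ c, ∀ n k, 0 < n → f n k ≤ 2 ^ (c * pH n k)

theorem Pl.const (a : ℕ) : Pl fun _ _ => a :=
  ⟨a, fun n k hn => (Nat.lt_two_pow_self.le).trans (Nat.pow_le_pow_left (pH_ge k hn) _)⟩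

theorem Pl.mul {f g : ℕ → ℕ → ℕ} (hf : Pl f) (hg : Pl g) : Pl fun n k => f n k * g n k := by
  obtain ⟨c, hc⟩ := hf
  obtain ⟨d, hd⟩ := hg
  exact ⟨c + d, fun n k hn => by rw [pow_add]; exact Nat.mul_le_mul (hc n k hn) (hd n k hn)⟩

theorem Pl.add {f g : ℕ → ℕ → ℕ} (hf : Pl f) (hg : Pl g) : Pl fun n k => f n k + g n k := by
  obtain ⟨c, hc⟩ := hf
  obtain ⟨d, hd⟩ := hg
  refine ⟨c + d + 1, fun n k hn => ?_⟩
  have h1 := pH_ge k hn
  have h2 : pH n k ^ c ≤ pH n k ^ (c + d) := Nat.pow_le_pow_right (by omega) (by omega)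
  have h3 : pH n k ^ d ≤ pH n k ^ (c + d) := Nat.pow_le_pow_right (by omega) (by omega)
  have h4 := hc n k hn
  have h5 := hd n k hn
  rw [pow_succ]
  nlinarith

theorem Pl.pow {f : ℕ → ℕ → ℕ} (hf : Pl f) (a : ℕ) : Pl fun n k => f n k ^ a := by
  induction a with
  | zero => simpa using Pl.const 1
  | succ a ih => simpa [pow_succ] using ih.mul hf

theorem Pl.H : Pl fun n k => pH n k := ⟨1, fun _ _ _ => by simp⟩

theorem Pl.sz {f : ℕ → ℕ → ℕ} (hf : Po f) : Pl fun n k => sz (f n k) := by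
  obtain ⟨c, hc⟩ := hf
  obtain ⟨d, hd⟩ := ((Pl.const c).mul Pl.H).add (Pl.const 1)
  refine ⟨d, fun n k hn => le_trans ?_ (hd n k hn)⟩
  beta_reduce
  rw [sz_nat, Nat.size_le, pow_succ]
  have := hc n k hn
  have : 0 < 2 ^ (c * pH n k) := by positivity
  omega

theorem Pl.po {f : ℕ → ℕ → ℕ} (hf : Pl f) : Po f := by
  obtain ⟨c, hc⟩ := hf
  refine ⟨c, fun n k hn => (hc n k hn).trans ?_⟩
  rw [mul_comm, pow_mul]
  exact Nat.pow_le_pow_left Nat.lt_two_pow_self.le _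

theorem Po.mul {f g : ℕ → ℕ → ℕ} (hf : Po f) (hg : Po g) : Po fun n k => f n k * g n k := by
  obtain ⟨c, hc⟩ := hf
  obtain ⟨d, hd⟩ := hg
  exact ⟨c + d, fun n k hn => by
    rw [add_mul, pow_add]; exact Nat.mul_le_mul (hc n k hn) (hd n k hn)⟩

theorem Po.add {f g : ℕ → ℕ → ℕ} (hf : Po f) (hg : Po g) : Po fun n k => f n k + g n k := by
  obtain ⟨c, hc⟩ := hf
  obtain ⟨d, hd⟩ := hg
  refine ⟨c + d + 1, fun n k hn => ?_⟩
  have h1 := pH_ge k hn
  have h2 : 2 ^ (c * pH n k) ≤ 2 ^ ((c + d) * pH n k) :=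
    Nat.pow_le_pow_right (by omega) (by nlinarith)
  have h3 : 2 ^ (d * pH n k) ≤ 2 ^ ((c + d) * pH n k) :=
    Nat.pow_le_pow_right (by omega) (by nlinarith)
  have h4 := hc n k hn
  have h5 := hd n k hn
  have h6 : 2 ^ ((c + d) * pH n k + 1) ≤ 2 ^ ((c + d + 1) * pH n k) :=
    Nat.pow_le_pow_right (by omega) (by nlinarith)
  rw [pow_succ] at h6
  beta_reduce
  omega

theorem Po.pow {f : ℕ → ℕ → ℕ} (hf : Po f) (a : ℕ) : Po fun n k => f n k ^ a := by
  induction a with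
  | zero => simpa using (Pl.const 1).po
  | succ a ih => simpa [pow_succ] using ih.mul hf

theorem Po.n : Po fun n _ => n := ⟨1, fun n k _ => by
  have h1 := lt_pH n k
  have h2 : 2 ^ (pH n k - 1) ≤ 2 ^ (1 * pH n k) := Nat.pow_le_pow_right (by omega) (by omega)
  simp only
  omega⟩

theorem Po.k : Po fun _ k => k := ⟨1, fun n k _ => by
  have h1 := lt_pH n k
  have h2 : 2 ^ (pH n k - 1) ≤ 2 ^ (1 * pH n k) := Nat.pow_le_pow_right (by omega) (by omega)
  simp only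
  omega⟩

theorem Po.const (a : ℕ) : Po fun _ _ => a := (Pl.const a).po

theorem po_N : Po fun n k => pN n k :=
  (((((Po.n.add Po.k).mul (Po.n.mul Po.n)).add Po.n).add (Po.const 1)).add Po.k).add Po.k
theorem po_W : Po fun n _ => pW n :=
  ((Po.n.mul (Po.n.mul Po.n)).add ((Po.const 2).mul Po.n)).add (Po.const 1)
theorem po_s : Po fun n k => ps n (pH n k) k :=
  (((Po.const 8).mul Po.n).mul Pl.H.po).mul
    ((((Po.n.mul Po.n).add Po.n).add (Po.const 1)).mul (po_N.mul po_W))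
theorem pl_m : Pl fun n k => pm n (pH n k) k :=
  Pl.sz (Po.n.mul (Po.n.mul ((Po.const 2).mul (po_s.mul po_s))))
theorem pl_K : Pl fun n k => pK (pH n k) := (Pl.const 7).mul ((Pl.H.add (Pl.const 1)).pow 3)
theorem pl_C : Pl fun n k => pC (pH n k) (pm n (pH n k) k) := ((Pl.const 50).mul pl_m).mul pl_K
theorem pl_c0 : Pl fun n k => pc0 (pH n k) := ((Pl.const 3).mul Pl.H).add (Pl.const 2)
theorem pl_mr : Pl fun n k => pmr (pH n k) := ((Pl.const 4).mul pl_c0).mul (Pl.H.add (Pl.const 1))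
theorem pl_R : Pl fun n k => pR (pH n k) := pl_mr.mul Pl.H
theorem pl_eta : Pl fun n k => peta (pH n k) (pm n (pH n k) k) :=
  (((Pl.const 26).mul pl_C).mul pl_c0).mul Pl.H
theorem pl_sig : Pl fun n k => psig (pH n k) (pm n (pH n k) k) :=
  (((Pl.const 4).mul pl_R).mul pl_eta).mul pl_mr
theorem pl_mr' : Pl fun n k => 1 + 8 * pmr (pH n k) := (Pl.const 1).add ((Pl.const 8).mul pl_mr)
theorem pl_cap : Pl fun n k => pcap n (pH n k) (pm n (pH n k) k) :=
  Pl.sz (((Po.const 2).mul (Po.n.pow 2)).add (((((((Po.const 48).mul pl_R.po).mul pl_mr'.po).mul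
    (Po.n.pow 2)).mul pl_C.po).mul Pl.H.po).mul Po.n))
theorem pl_K1 : Pl fun n k => pK1 (pH n k) (pm n (pH n k) k) :=
  (Pl.const 1).add (((((Pl.const 12).mul pl_R).mul pl_mr').mul pl_C).mul Pl.H)
theorem pl_alpha : Pl fun n k => palpha (pH n k) (pm n (pH n k) k) :=
  (Pl.const 1).add (((Pl.const 8).mul Pl.H).mul pl_K1)
theorem pl_beta : Pl fun n k => pbeta n (pH n k) (pm n (pH n k) k) :=
  (((Pl.const 32).mul Pl.H).mul (pl_sig.mul pl_cap)).mul
    (Pl.sz (((Po.const 2).mul (Po.n.pow 2)).add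
      ((((Po.const 32).mul Pl.H.po).mul (Po.n.pow 2)).mul pl_K1.po)))

theorem exists_exponent : ∃ c, ∀ n k, 0 < n →
    2 * (palpha (pH n k) (pm n (pH n k) k) + 1) ≤ (Nat.log 2 (n + k) + 2) ^ c ∧
      pbeta n (pH n k) (pm n (pH n k) k) ≤ (Nat.log 2 (n + k) + 2) ^ c := by
  obtain ⟨c, hc⟩ := ((Pl.const 2).mul (pl_alpha.add (Pl.const 1))).add pl_beta
  refine ⟨c, fun n k hn => ?_⟩
  have h1 := hc n k hn
  have h2 : pH n k ≤ Nat.log 2 (n + k) + 2 := by
    rw [pH, sz_nat]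
    exact Nat.succ_le_succ (Nat.size_le.2 (Nat.lt_pow_succ_log_self (by omega) _))
  have h3 := Nat.pow_le_pow_left h2 c
  simp only at h1
  omega

end Pool.Agent.Lib.MP_fec922_lc
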