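import Pool.Agent.Lib.MP_fec922_lc.Ctx

/-!
Hierarchies of clusters, given as ultrametrics, and the two local moves that improve them.
-/

namespace Pool.Agent.Lib.MP_fec922_lc

open Pool.Agent.Shared.PolyTime Finset

attribute [local fun_prop] PB.comp

variable {α β : Type} [N487b59b3 α] [N487b59b3 β]

/-- Size of a cluster. -/
def csz (n : ℕ) (ht : ℕ → ℕ → ℕ) (j u : ℕ) : ℕ := ∑ v ∈ range n, if ht u v ≤ j then 1 else 0

structure HInv (n h r : ℕ) (ht : ℕ → ℕ → ℕ) : Prop where
  self : ∀ u < n, ht u u = 0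
  symm : ∀ u < n, ∀ v < n, ht u v = ht v u
  ultra : ∀ u < n, ∀ v < n, ∀ w < n, ht u w ≤ max (ht u v) (ht v w)
  le : ∀ u < n, ∀ v < n, ht u v ≤ h
  root : ∀ u < n, u ≠ r → ht u r = h
  size : ∀ u < n, ∀ j < h, csz n ht j u ≤ 2 ^ j

/-- Potential of a hierarchy. -/
def Phi (n h : ℕ) (X ht : ℕ → ℕ → ℕ) : ℕ := ∑ i ∈ range h, ∑ u ∈ range n, ∑ v ∈ range n,
  if i < ht u v then X u v * (1 + Nat.log 2 (csz n ht i u)) else 0

theorem csz_congr {n : ℕ} {ht ht' : ℕ → ℕ → ℕ} (e : ∀ u < n, ∀ v < n, ht' u v = ht u v) (j : ℕ)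
    {u : ℕ} (hu : u < n) : csz n ht' j u = csz n ht j u :=
  sum_congr rfl fun v hv => by rw [e u hu v (mem_range.1 hv)]

theorem HInv.congr {n h r : ℕ} {ht ht' : ℕ → ℕ → ℕ} (H : HInv n h r ht) (hr : r < n)
    (e : ∀ u < n, ∀ v < n, ht' u v = ht u v) : HInv n h r ht' where
  self u hu := by rw [e u hu u hu, H.self u hu]
  symm u hu v hv := by rw [e u hu v hv, e v hv u hu, H.symm u hu v hv]
  ultra u hu v hv w hw := by
    rw [e u hu v hv, e v hv w hw, e u hu w hw]; exact H.ultra u hu v hv w hw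
  le u hu v hv := by rw [e u hu v hv]; exact H.le u hu v hv
  root u hu hne := by rw [e u hu r hr]; exact H.root u hu hne
  size u hu j hj := by rw [csz_congr e j hu]; exact H.size u hu j hj

theorem Phi_congr {n : ℕ} (h : ℕ) (X : ℕ → ℕ → ℕ) {ht ht' : ℕ → ℕ → ℕ}
    (e : ∀ u < n, ∀ v < n, ht' u v = ht u v) : Phi n h X ht' = Phi n h X ht :=
  sum_congr rfl fun i _ => sum_congr rfl fun u hu => sum_congr rfl fun v hv => by
    rw [e u (mem_range.1 hu) v (mem_range.1 hv), csz_congr e i (mem_range.1 hu)]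

theorem HInv.log_le {n h r : ℕ} {ht : ℕ → ℕ → ℕ} (H : HInv n h r ht) {u i : ℕ} (hu : u < n)
    (hi : i < h) : Nat.log 2 (csz n ht i u) ≤ i := by
  have := Nat.log_mono_right (b := 2) (H.size u hu i hi)
  rwa [Nat.log_pow (by omega)] at this

theorem Phi_le {n h r : ℕ} {X ht : ℕ → ℕ → ℕ} (H : HInv n h r ht) {B : ℕ}
    (hX : ∀ u < n, ∀ v < n, X u v ≤ B) : Phi n h X ht ≤ h * (n * (n * (B * h))) := by
  unfold Phi
  refine (sum_le_card_nsmul _ _ (n * (n * (B * h))) fun i hi => ?_).trans (by simp)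
  refine (sum_le_card_nsmul _ _ (n * (B * h)) fun u hu => ?_).trans (by simp)
  refine (sum_le_card_nsmul _ _ (B * h) fun v hv => ?_).trans (by simp)
  have h1 := H.log_le (mem_range.1 hu) (mem_range.1 hi)
  have h2 := mem_range.1 hi
  split_ifs
  · exact Nat.mul_le_mul (hX u (mem_range.1 hu) v (mem_range.1 hv)) (by omega)
  · exact Nat.zero_le _

theorem HInv.eq_of_zero {n h r : ℕ} {ht : ℕ → ℕ → ℕ} (H : HInv n h r ht) (hh : 0 < h) {u v : ℕ}
    (hu : u < n) (hv : v < n) (e : ht u v ≤ 0) : u = v := by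
  by_contra hne
  have h1 := H.size u hu 0 hh
  have h2 : ∑ x ∈ ({u, v} : Finset ℕ), (if ht u x ≤ 0 then 1 else 0) ≤ csz n ht 0 u :=
    sum_le_sum_of_subset (by
      intro x hx
      simp only [mem_insert, mem_singleton] at hx
      rcases hx with rfl | rfl <;> simpa)
  rw [sum_pair hne, H.self u hu, if_pos e] at h2
  simp at h1 h2
  omega

theorem HInv.init (n h r : ℕ) : HInv n h r (fun u v => if u = v then 0 else h) where
  self u _ := by simp
  symm u _ v _ := by simp only [eq_comm]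
  ultra u _ v _ w _ := by split_ifs <;> omega
  le u _ v _ := by split_ifs <;> omega
  root u _ hne := by simp [hne]
  size u hu j hj := by
    unfold csz
    rw [sum_eq_single u]
    · simpa using Nat.one_le_two_pow
    · intro v _ hv
      simp only [if_neg (Ne.symm hv)]
      rw [if_neg (by omega)]
    · intro h; exact absurd (mem_range.2 hu) h

/-- The pair `u, v` is separated by the cut `A` of the cluster of height `j` around `s`. -/
def across (ht : ℕ → ℕ → ℕ) (j s : ℕ) (A : List ℕ) (u v : ℕ) : Bool :=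
  (decide (u ∈ A) && !decide (v ∈ A) && decide (ht s v ≤ j)) ||
    (decide (v ∈ A) && !decide (u ∈ A) && decide (ht s u ≤ j))

def newHt (ht : ℕ → ℕ → ℕ) (j s : ℕ) (A : List ℕ) (mv : Bool) (u v : ℕ) : ℕ :=
  cond (across ht j s A u v) (cond mv (j + 1) j)
    (cond (!mv && decide (u ∈ A) && decide (v ∈ A)) (min (ht u v) (j - 1)) (ht u v))

theorem newHt_true (ht : ℕ → ℕ → ℕ) (j s : ℕ) (A : List ℕ) (u v : ℕ) :
    newHt ht j s A true u v = if (u ∈ A ∧ v ∉ A ∧ ht s v ≤ j) ∨ (v ∈ A ∧ u ∉ A ∧ ht s u ≤ j)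
      then j + 1 else ht u v := by
  unfold newHt across
  by_cases h1 : u ∈ A <;> by_cases h2 : v ∈ A <;> by_cases h3 : ht s u ≤ j <;>
    by_cases h4 : ht s v ≤ j <;> simp [h1, h2, h3, h4]

theorem newHt_false (ht : ℕ → ℕ → ℕ) (j s : ℕ) (A : List ℕ) (u v : ℕ) :
    newHt ht j s A false u v = if (u ∈ A ∧ v ∉ A ∧ ht s v ≤ j) ∨ (v ∈ A ∧ u ∉ A ∧ ht s u ≤ j)
      then j else if u ∈ A ∧ v ∈ A then min (ht u v) (j - 1) else ht u v := by
  unfold newHt across
  by_cases h1 : u ∈ A <;> by_cases h2 : v ∈ A <;> by_cases h3 : ht s u ≤ j <;>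
    by_cases h4 : ht s v ≤ j <;> simp [h1, h2, h3, h4]

section moves

variable {n h r j s : ℕ} {X ht : ℕ → ℕ → ℕ} {A : List ℕ}

theorem HInv.facts (H : HInv n h r ht) (hs : s < n) {u v : ℕ} (hu : u < n) (hv : v < n) :
    ht u v = ht v u ∧ ht u v ≤ max (ht s u) (ht s v) ∧ ht s v ≤ max (ht s u) (ht u v) ∧
      ht s u ≤ max (ht s v) (ht u v) := by
  have h1 := H.symm u hu v hv
  have h2 := H.ultra u hu s hs v hv
  have h3 := H.symm u hu s hs
  have h4 := H.ultra s hs u hu v hv
  have h5 := H.ultra s hs v hv u hu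
  omega

theorem sum_across (hX : ∀ u < n, ∀ v < n, X u v = X v u) :
    ∑ u ∈ range n, ∑ v ∈ range n,
      (if (u ∈ A ∧ v ∉ A ∧ ht s v ≤ j) ∨ (v ∈ A ∧ u ∉ A ∧ ht s u ≤ j) then X u v else 0) =
    2 * ∑ u ∈ range n, ∑ v ∈ range n, if u ∈ A ∧ v ∉ A ∧ ht s v ≤ j then X u v else 0 := by
  rw [two_mul]
  conv_rhs => rw [sum_comm (s := range n) (t := range n)]; congr; rfl; rw [sum_comm]
  rw [← sum_add_distrib]
  refine sum_congr rfl fun u hu => ?_
  rw [← sum_add_distrib]
  refine sum_congr rfl fun v hv => ?_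
  rw [hX v (mem_range.1 hv) u (mem_range.1 hu)]
  by_cases h1 : u ∈ A <;> by_cases h2 : v ∈ A <;> simp [h1, h2]

theorem move1_inv (H : HInv n h r ht) (hr : r < n) (hs : s < n) (hj : j < h)
    (hA : ∀ v ∈ A, ht s v ≤ j) : HInv n h r (newHt ht j s A true) where
  self u hu := by rw [newHt_true, if_neg (by tauto), H.self u hu]
  symm u hu v hv := by simp only [newHt_true, H.symm u hu v hv, or_comm]
  ultra u hu v hv w hw := by
    have h1 := H.facts hs hu hv
    have h2 := H.facts hs hv hw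
    have h3 := H.facts hs hu hw
    have h4 := H.ultra u hu v hv w hw
    have h5 := hA u
    have h6 := hA v
    have h7 := hA w
    simp only [newHt_true]
    by_cases a1 : u ∈ A <;> by_cases a2 : v ∈ A <;> by_cases a3 : w ∈ A <;>
      simp only [a1, a2, a3, not_true, not_false_iff, true_and, false_and, false_or, or_false,
        if_false, forall_true_left, false_imp_iff] at h5 h6 h7 ⊢ <;> (try split_ifs) <;> omega
  le u hu v hv := by
    have := H.le u hu v hv
    rw [newHt_true]; split_ifs <;> omega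
  root u hu hne := by
    have h1 := H.root u hu hne
    have h2 := H.facts hs hu hr
    have h5 := hA u
    have h6 := hA r
    rw [newHt_true, if_neg, h1]
    rintro (⟨a, -, b⟩ | ⟨a, -, b⟩)
    · have := h5 a; omega
    · have := h6 a; omega
  size u hu i hi := by
    refine le_trans (sum_le_sum fun v hv => ?_) (H.size u hu i hi)
    have h2 := H.facts hs hu (mem_range.1 hv)
    have h5 := hA u
    have h6 := hA v
    rw [newHt_true]
    split_ifs with a1 a2 a3 <;> first | omega | (rcases a1 with a | a <;> grind)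

theorem move1_phi (H : HInv n h r ht) (hr : r < n) (hs : s < n) (hj : j < h)
    (hA : ∀ v ∈ A, ht s v ≤ j) (hX : ∀ u < n, ∀ v < n, X u v = X v u)
    (hsz : 2 * (∑ v ∈ range n, if v ∈ A then 1 else 0) ≤ csz n ht j s) :
    Phi n h X (newHt ht j s A true) +
      (∑ u ∈ range n, ∑ v ∈ range n, if u ∈ A ∧ j < ht s v then X u v else 0) ≤
    Phi n h X ht + h * ((h + 1) * (2 * ∑ u ∈ range n, ∑ v ∈ range n,
      if u ∈ A ∧ v ∉ A ∧ ht s v ≤ j then X u v else 0)) := by
  have H' := move1_inv H hr hs hj hA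
  have e1 : (∑ u ∈ range n, ∑ v ∈ range n, if u ∈ A ∧ j < ht s v then X u v else 0) =
      ∑ i ∈ range h, ∑ u ∈ range n, ∑ v ∈ range n,
        if i = j ∧ u ∈ A ∧ j < ht s v then X u v else 0 := by
    rw [sum_eq_single (s := range h) j]
    · simp
    · intro i _ hi; simp [hi]
    · intro h; exact absurd (mem_range.2 hj) h
  have e2 : ∀ c : ℕ, h * c = ∑ _i ∈ range h, c := fun c => by simp
  rw [e1, ← sum_across hX, e2]
  unfold Phi
  simp only [mul_sum, ← sum_add_distrib]
  refine sum_le_sum fun i hi => sum_le_sum fun u hu => sum_le_sum fun v hv => ?_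
  have hi := mem_range.1 hi
  have hu := mem_range.1 hu
  have hv := mem_range.1 hv
  have h1 := H'.log_le hu hi
  have h2 : csz n (newHt ht j s A true) i u ≤ csz n ht i u := by
    refine sum_le_sum fun v hv => ?_
    have h2 := H.facts hs hu (mem_range.1 hv)
    have h5 := hA u
    have h6 := hA v
    rw [newHt_true]
    split_ifs with a1 a2 a3 <;> first | omega | (rcases a1 with a | a <;> grind)
  have h3 := Nat.log_mono_right (b := 2) h2
  have h4 : i = j → u ∈ A → Nat.log 2 (csz n (newHt ht j s A true) i u) + 1 ≤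
      Nat.log 2 (csz n ht i u) := by
    rintro rfl hu'
    have a1 : csz n (newHt ht i s A true) i u ≤ ∑ v ∈ range n, if v ∈ A then 1 else 0 := by
      refine sum_le_sum fun v hv => ?_
      have h2 := H.facts hs hu (mem_range.1 hv)
      have h5 := hA u hu'
      rw [newHt_true]
      by_cases hv' : v ∈ A <;> simp only [hu', hv', not_true, not_false_iff, true_and, false_and,
        or_false, if_false, if_true] <;> split_ifs <;> omega
    have a2 : csz n ht i s = csz n ht i u := by
      refine sum_congr rfl fun v hv => if_congr ?_ rfl rfl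
      have h2 := H.facts hs hu (mem_range.1 hv)
      have h5 := hA u hu'
      omega
    have a3 : 1 ≤ csz n (newHt ht i s A true) i u := by
      refine le_trans ?_ (single_le_sum (f := fun v => if newHt ht i s A true u v ≤ i then 1 else 0)
        (fun _ _ => Nat.zero_le _) (mem_range.2 hu))
      simp [H'.self u hu]
    rw [← Nat.log_mul_base (by omega) (by omega)]
    exact Nat.log_mono_right (by omega)
  have h5 := H.facts hs hu hv
  have h6 := hA u
  generalize Nat.log 2 (csz n (newHt ht j s A true) i u) = l' at *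
  generalize Nat.log 2 (csz n ht i u) = l at *
  rw [newHt_true]
  by_cases a1 : (u ∈ A ∧ v ∉ A ∧ ht s v ≤ j) ∨ (v ∈ A ∧ u ∉ A ∧ ht s u ≤ j)
  · have a2 : ¬ (i = j ∧ u ∈ A ∧ j < ht s v) := by
      rcases a1 with a | a
      · omega
      · tauto
    rw [if_pos a1, if_pos a1, if_neg a2]
    have : X u v * (1 + l') ≤ (h + 1) * X u v := by
      rw [mul_comm]; exact Nat.mul_le_mul_right _ (by omega)
    split_ifs <;> omega
  · rw [if_neg a1, if_neg a1]
    by_cases a2 : i = j ∧ u ∈ A ∧ j < ht s v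
    · have a3 := h4 a2.1 a2.2.1
      have a4 := h6 a2.2.1
      rw [if_pos a2, if_pos (by omega), if_pos (by omega)]
      have := Nat.mul_le_mul_left (X u v) (show 1 + l' + 1 ≤ 1 + l by omega)
      nlinarith
    · rw [if_neg a2]
      have := Nat.mul_le_mul_left (X u v) (show 1 + l' ≤ 1 + l by omega)
      split_ifs <;> omega

theorem move2_inv (H : HInv n h r ht) (hr : r < n) (hs : s < n) (hj : 1 ≤ j) (hjh : j ≤ h)
    (hA : ∀ v ∈ A, ht s v ≤ j) (hrA : j = h → r ∉ A)
    (hsz : (∑ v ∈ range n, if v ∈ A then 1 else 0) ≤ 2 ^ (j - 1)) :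
    HInv n h r (newHt ht j s A false) where
  self u hu := by rw [newHt_false, if_neg (by tauto), H.self u hu]; simp
  symm u hu v hv := by simp only [newHt_false, H.symm u hu v hv, or_comm, and_comm]
  ultra u hu v hv w hw := by
    have h1 := H.facts hs hu hv
    have h2 := H.facts hs hv hw
    have h3 := H.facts hs hu hw
    have h4 := H.ultra u hu v hv w hw
    have h5 := hA u
    have h6 := hA v
    have h7 := hA w
    simp only [newHt_false]
    by_cases a1 : u ∈ A <;> by_cases a2 : v ∈ A <;> by_cases a3 : w ∈ A <;>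
      simp only [a1, a2, a3, not_true, not_false_iff, true_and, false_and, false_or, or_false,
        if_false, if_true, and_false, forall_true_left, false_imp_iff] at h5 h6 h7 ⊢ <;>
      (try split_ifs) <;> omega
  le u hu v hv := by
    have := H.le u hu v hv
    rw [newHt_false]; split_ifs <;> omega
  root u hu hne := by
    have h1 := H.root u hu hne
    have h2 := H.facts hs hu hr
    have h5 := hA u
    have h6 := hA r
    rw [newHt_false]
    split_ifs with a1 a2
    · rcases a1 with ⟨a, -, b⟩ | ⟨a, -, b⟩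
      · have := h5 a; omega
      · have := h6 a; omega
    · have := h5 a2.1
      have := h6 a2.2
      exact absurd a2.2 (hrA (by omega))
    · exact h1
  size u hu i hi := by
    by_cases hc : i = j - 1 ∧ u ∈ A
    · refine le_trans (sum_le_sum fun v hv => ?_) (hc.1 ▸ hsz)
      have h2 := H.facts hs hu (mem_range.1 hv)
      have h5 := hA u hc.2
      rw [newHt_false]
      by_cases hv' : v ∈ A <;> simp only [hc.2, hv', not_true, not_false_iff, true_and, false_and,
        or_false, if_false, if_true] <;> split_ifs <;> omega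
    · refine le_trans (sum_le_sum fun v hv => ?_) (H.size u hu i hi)
      have h2 := H.facts hs hu (mem_range.1 hv)
      have h5 := hA u
      have h6 := hA v
      rw [newHt_false]
      split_ifs with a1 a2 a3 <;> first | omega | grind

theorem move2_phi (H : HInv n h r ht) (hr : r < n) (hs : s < n) (hj : 1 ≤ j) (hjh : j ≤ h)
    (hA : ∀ v ∈ A, ht s v ≤ j) (hrA : j = h → r ∉ A)
    (hsz : (∑ v ∈ range n, if v ∈ A then 1 else 0) ≤ 2 ^ (j - 1))
    (hX : ∀ u < n, ∀ v < n, X u v = X v u) :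
    Phi n h X (newHt ht j s A false) +
      (∑ u ∈ range n, ∑ v ∈ range n, if u ∈ A ∧ v ∈ A ∧ ht u v = j then X u v else 0) ≤
    Phi n h X ht + h * ((h + 1) * (2 * ∑ u ∈ range n, ∑ v ∈ range n,
      if u ∈ A ∧ v ∉ A ∧ ht s v ≤ j then X u v else 0)) +
      h * (∑ u ∈ range n, ∑ v ∈ range n, if u ∈ A ∧ j < ht s v then X u v else 0) := by
  have H' := move2_inv H hr hs hj hjh hA hrA hsz
  have e1 : ∀ (p : ℕ → ℕ → Prop) [∀ u v, Decidable (p u v)],
      (∑ u ∈ range n, ∑ v ∈ range n, if p u v then X u v else 0) =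
      ∑ i ∈ range h, ∑ u ∈ range n, ∑ v ∈ range n, if i = j - 1 ∧ p u v then X u v else 0 := by
    intro p _
    rw [sum_eq_single (s := range h) (j - 1)]
    · simp
    · intro i _ hi; simp [hi]
    · intro h; exact absurd (mem_range.2 (by omega)) h
  have e2 : ∀ c : ℕ, h * c = ∑ _i ∈ range h, c := fun c => by simp
  rw [e1 (fun u v => u ∈ A ∧ v ∈ A ∧ ht u v = j), e1 (fun u v => u ∈ A ∧ j < ht s v),
    ← sum_across hX, e2 ((h + 1) * _)]
  unfold Phi
  simp only [mul_sum, ← sum_add_distrib]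
  refine sum_le_sum fun i hi => sum_le_sum fun u hu => sum_le_sum fun v hv => ?_
  have hi := mem_range.1 hi
  have hu := mem_range.1 hu
  have hv := mem_range.1 hv
  have h1 := H'.log_le hu hi
  have h2 : ¬ (i = j - 1 ∧ u ∈ A) → Nat.log 2 (csz n (newHt ht j s A false) i u) ≤
      Nat.log 2 (csz n ht i u) := by
    intro hc
    refine Nat.log_mono_right (sum_le_sum fun v hv => ?_)
    have h2 := H.facts hs hu (mem_range.1 hv)
    have h5 := hA u
    have h6 := hA v
    rw [newHt_false]
    split_ifs with a1 a2 a3 <;> first | omega | grind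
  have h5 := H.facts hs hu hv
  have h6 := hA u
  have h7 := hA v
  generalize Nat.log 2 (csz n (newHt ht j s A false) i u) = l' at *
  generalize Nat.log 2 (csz n ht i u) = l at *
  rw [newHt_false]
  have b1 : X u v * (1 + l') ≤ (h + 1) * X u v := by
    rw [mul_comm]; exact Nat.mul_le_mul_right _ (by omega)
  have b2 : X u v ≤ X u v * (1 + l) := Nat.le_mul_of_pos_right _ (by omega)
  have b3 : l' ≤ l → X u v * (1 + l') ≤ X u v * (1 + l) := fun h => Nat.mul_le_mul_left _ (by omega)
  have b4 : (h + 1) * X u v = h * X u v + X u v := by ring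
  by_cases a1 : (u ∈ A ∧ v ∉ A ∧ ht s v ≤ j) ∨ (v ∈ A ∧ u ∉ A ∧ ht s u ≤ j)
  · have a2 : ¬ (i = j - 1 ∧ u ∈ A ∧ v ∈ A ∧ ht u v = j) := by tauto
    rw [if_pos a1, if_pos a1, if_neg a2]
    split_ifs <;> omega
  · rw [if_neg a1, if_neg a1]
    by_cases a2 : i = j - 1 ∧ u ∈ A
    · by_cases a3 : v ∈ A
      · have := h7 a3
        rw [if_pos (show u ∈ A ∧ v ∈ A from ⟨a2.2, a3⟩), if_neg (by omega)]
        split_ifs <;> omega
      · have a4 : j < ht s v := by
          by_contra a5
          exact a1 (Or.inl ⟨a2.2, a3, by omega⟩)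
        rw [if_neg (show ¬ (u ∈ A ∧ v ∈ A) by tauto),
          if_neg (show ¬ (i = j - 1 ∧ u ∈ A ∧ v ∈ A ∧ ht u v = j) by tauto),
          if_pos (show i = j - 1 ∧ u ∈ A ∧ j < ht s v from ⟨a2.1, a2.2, a4⟩)]
        split_ifs <;> omega
    · have := b3 (h2 a2)
      rw [if_neg (show ¬ (i = j - 1 ∧ u ∈ A ∧ v ∈ A ∧ ht u v = j) by tauto)]
      split_ifs <;> omega

end moves

end Pool.Agent.Lib.MP_fec922_lc
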