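import Pool.Agent.Lib.MP_fec922_lc.Basic

/-!
Approximate solution of a system of linear inequalities over the unit cube by Blackwell's
approachability procedure, in integer arithmetic.
-/

namespace Pool.Agent.Lib.MP_fec922_lc

open Pool.Agent.Shared.PolyTime Finset

attribute [local fun_prop] PB.comp

variable {α : Type} [N487b59b3 α]

abbrev Col := ℕ × ℕ × ℕ
abbrev Side := List (Col × ℕ) × ℕ
abbrev Row := Side × Side

/-- Value of one side of an inequality at the point `Z`, constants being scaled by `t`. -/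
def ev (Z : Col → ℕ) (t : ℕ) (s : Side) : ℕ := (s.1.map fun p => p.2 * Z p.1).sum + t * s.2

def cnt (lg : List (List Col)) (c : Col) : ℕ := lg.countP fun m => decide (c ∈ m)

def viol (lg : List (List Col)) (r : Row) : ℕ :=
  ev (cnt lg) lg.length r.1 - ev (cnt lg) lg.length r.2

def coef (c : Col) (s : Side) : ℕ := (s.1.map fun p => if p.1 = c then p.2 else 0).sum

def cols (R : List Row) : List Col := R.flatMap fun r => (r.1.1 ++ r.2.1).map Prod.fst

def pick (R : List Row) (lg : List (List Col)) (c : Col) : Bool :=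
  decide ((R.map fun r => viol lg r * coef c r.1).sum < (R.map fun r => viol lg r * coef c r.2).sum)

def lpStep (R : List Row) (lg : List (List Col)) : List (List Col) :=
  (cols R).filter (pick R lg) :: lg

def lpLog (R : List Row) (T : ℕ) : List (List Col) := (lpStep R)^[T] []

@[fun_prop] theorem cnt_pt {lg : α → List (List Col)} {c : α → Col} (h : PT lg) (hc : PT c) :
    PT (fun a => cnt (lg a) (c a)) := by
  unfold cnt; fun_prop

@[fun_prop] theorem viol_pt {lg : α → List (List Col)} {r : α → Row} (h : PT lg) (hr : PT r) :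
    PT (fun a => viol (lg a) (r a)) := by
  unfold viol ev; fun_prop

@[fun_prop] theorem coef_pt {c : α → Col} {s : α → Side} (hc : PT c) (hs : PT s) :
    PT (fun a => coef (c a) (s a)) := by
  unfold coef; fun_prop

@[fun_prop] theorem cols_pt {R : α → List Row} (hR : PT R) : PT (fun a => cols (R a)) := by
  unfold cols; fun_prop

@[fun_prop] theorem pick_pt {R : α → List Row} {lg : α → List (List Col)} {c : α → Col}
    (hR : PT R) (h : PT lg) (hc : PT c) : PT (fun a => pick (R a) (lg a) (c a)) := by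
  unfold pick; fun_prop

@[fun_prop] theorem lpLog_pt {R : α → List Row} {T : α → ℕ} (hR : PT R) (hT : PT T) (hb : PB T) :
    PT (fun a => lpLog (R a) (T a)) := by
  unfold lpLog
  refine PT.iterate_grow (f := fun a lg => lpStep (R a) lg) (by unfold lpStep; fun_prop) hT hb
    (by fun_prop) (g := fun a => 2 * sz (cols (R a)) + 1) (by fun_prop) fun a s => ?_
  have := sz_sublist (List.filter_sublist (p := pick (R a) s) (l := cols (R a)))
  simp only [lpStep, sz_cons]
  omega

theorem ev_eq (C : Finset Col) (z : Col → ℕ) (t : ℕ) (s : Side) (h : ∀ p ∈ s.1, p.1 ∈ C) :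
    ev z t s = ∑ c ∈ C, coef c s * z c + t * s.2 := by
  obtain ⟨l, k⟩ := s
  unfold ev coef
  simp only at h ⊢
  congr 1
  induction l with
  | nil => simp
  | cons p l ih =>
    simp only [List.map_cons, List.sum_cons, add_mul, sum_add_distrib]
    rw [ih fun q hq => h q (by simp [hq])]
    congr 1
    simp [h p (by simp)]

theorem ev_add (z z' : Col → ℕ) (t t' : ℕ) (s : Side) :
    ev (fun c => z c + z' c) (t + t') s = ev z t s + ev z' t' s := by
  unfold ev
  simp only [mul_add, List.sum_map_add]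
  ring

theorem ev_mono {z z' : Col → ℕ} (h : ∀ c, z c ≤ z' c) (t : ℕ) (s : Side) :
    ev z t s ≤ ev z' t s :=
  Nat.add_le_add_right (List.sum_le_sum fun p _ => Nat.mul_le_mul_left _ (h p.1)) _

theorem sum_comm_list {ι κ : Type} (R : List ι) (C : Finset κ) (f : ι → κ → ℕ) :
    (R.map fun r => ∑ c ∈ C, f r c).sum = ∑ c ∈ C, (R.map fun r => f r c).sum := by
  induction R with
  | nil => simp
  | cons r R ih => simp [ih, sum_add_distrib]

theorem oracle (R : List Row) (z : Col → ℕ) (hz : ∀ c, z c ≤ 1)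
    (hf : ∀ r ∈ R, ev z 1 r.1 ≤ ev z 1 r.2) (lg : List (List Col)) :
    (R.map fun r => viol lg r *
      ev (fun c => if c ∈ (cols R).filter (pick R lg) then 1 else 0) 1 r.1).sum ≤
    (R.map fun r => viol lg r *
      ev (fun c => if c ∈ (cols R).filter (pick R lg) then 1 else 0) 1 r.2).sum := by
  set C := (cols R).toFinset with hC
  have h1 : ∀ r ∈ R, ∀ p ∈ r.1.1, p.1 ∈ C := fun r hr p hp => by
    simp only [hC, cols, List.mem_toFinset, List.mem_flatMap, List.mem_map, List.mem_append]
    exact ⟨r, hr, p, Or.inl hp, rfl⟩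
  have h2 : ∀ r ∈ R, ∀ p ∈ r.2.1, p.1 ∈ C := fun r hr p hp => by
    simp only [hC, cols, List.mem_toFinset, List.mem_flatMap, List.mem_map, List.mem_append]
    exact ⟨r, hr, p, Or.inr hp, rfl⟩
  have e1 : ∀ y : Col → ℕ, (R.map fun r => viol lg r * ev y 1 r.1).sum =
      ∑ c ∈ C, (R.map fun r => viol lg r * coef c r.1).sum * y c +
        (R.map fun r => viol lg r * r.1.2).sum := by
    intro y
    rw [List.map_congr_left (g := fun r => ∑ c ∈ C, viol lg r * coef c r.1 * y c +
      viol lg r * r.1.2), List.sum_map_add, sum_comm_list]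
    · simp only [List.sum_map_mul_right]
    · intro r hr
      rw [ev_eq C y 1 _ (h1 r hr), mul_add, mul_sum, one_mul]
      simp only [mul_assoc]
  have e2 : ∀ y : Col → ℕ, (R.map fun r => viol lg r * ev y 1 r.2).sum =
      ∑ c ∈ C, (R.map fun r => viol lg r * coef c r.2).sum * y c +
        (R.map fun r => viol lg r * r.2.2).sum := by
    intro y
    rw [List.map_congr_left (g := fun r => ∑ c ∈ C, viol lg r * coef c r.2 * y c +
      viol lg r * r.2.2), List.sum_map_add, sum_comm_list]
    · simp only [List.sum_map_mul_right]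
    · intro r hr
      rw [ev_eq C y 1 _ (h2 r hr), mul_add, mul_sum, one_mul]
      simp only [mul_assoc]
  have h3 : (R.map fun r => viol lg r * ev z 1 r.1).sum ≤
      (R.map fun r => viol lg r * ev z 1 r.2).sum :=
    List.sum_le_sum fun r hr => Nat.mul_le_mul_left _ (hf r hr)
  rw [e1, e2] at h3 ⊢
  have h4 : ∑ c ∈ C, ((R.map fun r => viol lg r * coef c r.1).sum *
        (if c ∈ (cols R).filter (pick R lg) then 1 else 0) +
        (R.map fun r => viol lg r * coef c r.2).sum * z c) ≤
      ∑ c ∈ C, ((R.map fun r => viol lg r * coef c r.2).sum *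
        (if c ∈ (cols R).filter (pick R lg) then 1 else 0) +
        (R.map fun r => viol lg r * coef c r.1).sum * z c) := by
    refine sum_le_sum fun c hc => ?_
    have hc' : c ∈ cols R := List.mem_toFinset.1 hc
    have := hz c
    simp only [List.mem_filter, hc', true_and, pick, decide_eq_true_eq]
    generalize (R.map fun r => viol lg r * coef c r.1).sum = A
    generalize (R.map fun r => viol lg r * coef c r.2).sum = B
    rcases Nat.le_one_iff_eq_zero_or_eq_one.1 this with h | h <;> rw [h] <;> split_ifs <;> omega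
  rw [sum_add_distrib, sum_add_distrib] at h4
  omega

theorem sq_step (P N p q W : ℕ) (hp : p ≤ W) (hq : q ≤ W) :
    ((P + p) - (N + q)) ^ 2 + 2 * ((P - N) * q) ≤ (P - N) ^ 2 + 2 * ((P - N) * p) + W ^ 2 := by
  rcases le_total (P + p) (N + q) with h | h
  · rw [Nat.sub_eq_zero_of_le h]
    zify at *
    nlinarith [sq_nonneg (((P - N : ℕ) : ℤ) - q), mul_nonneg (Int.natCast_nonneg (P - N))
      (Int.natCast_nonneg p), Int.natCast_nonneg q]
  · have h1 : (((P + p) - (N + q) : ℕ) : ℤ) ≤ ((P - N : ℕ) : ℤ) + p - q := by omega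
    have h2 : (0 : ℤ) ≤ ((P + p) - (N + q) : ℕ) := Int.natCast_nonneg _
    have h3 := pow_le_pow_left₀ h2 h1 2
    have h4 : ((p : ℤ) - q) ^ 2 ≤ (W : ℤ) ^ 2 := by
      apply sq_le_sq'
      · omega
      · omega
    zify
    nlinarith

theorem lp_main (R : List Row) (z : Col → ℕ) (hz : ∀ c, z c ≤ 1)
    (hf : ∀ r ∈ R, ev z 1 r.1 ≤ ev z 1 r.2) (W : ℕ)
    (hW : ∀ r ∈ R, ev (fun _ => 1) 1 r.1 ≤ W ∧ ev (fun _ => 1) 1 r.2 ≤ W) (T : ℕ) :
    (lpLog R T).length = T ∧
      (R.map fun r => viol (lpLog R T) r ^ 2).sum ≤ T * (R.length * W ^ 2) := by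
  refine iterate_induction (lpStep R) [] (fun t lg => lg.length = t ∧
    (R.map fun r => viol lg r ^ 2).sum ≤ t * (R.length * W ^ 2)) ⟨rfl, ?_⟩ (fun t lg h => ?_) T
  · simp [viol, ev, cnt]
  · refine ⟨by simp [lpStep, h.1], ?_⟩
    have h1 := oracle R z hz hf lg
    set y : Col → ℕ := fun c => if c ∈ (cols R).filter (pick R lg) then 1 else 0 with hy
    have hy1 : ∀ c, y c ≤ 1 := fun c => by simp only [hy]; split_ifs <;> omega
    have e : cnt (lpStep R lg) = fun c => cnt lg c + y c := by
      funext c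
      simp only [cnt, lpStep, List.countP_cons, hy, decide_eq_true_eq]
    have h2 : (R.map fun r => viol (lpStep R lg) r ^ 2 + 2 * (viol lg r * ev y 1 r.2)).sum ≤
        (R.map fun r => viol lg r ^ 2 + 2 * (viol lg r * ev y 1 r.1) + W ^ 2).sum := by
      refine List.sum_le_sum fun r hr => ?_
      have e2 : (lpStep R lg).length = lg.length + 1 := by simp [lpStep]
      unfold viol
      rw [e, e2, ev_add, ev_add]
      exact sq_step _ _ _ _ _ ((ev_mono hy1 _ _).trans (hW r hr).1)
        ((ev_mono hy1 _ _).trans (hW r hr).2)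
    simp only [List.sum_map_add, List.sum_map_mul_left, List.map_const', List.sum_replicate,
      smul_eq_mul] at h2
    have h3 := h.2
    nlinarith

theorem lp_spec (R : List Row) (z : Col → ℕ) (hz : ∀ c, z c ≤ 1)
    (hf : ∀ r ∈ R, ev z 1 r.1 ≤ ev z 1 r.2) (W : ℕ)
    (hW : ∀ r ∈ R, ev (fun _ => 1) 1 r.1 ≤ W ∧ ev (fun _ => 1) 1 r.2 ≤ W) (s N : ℕ)
    (hN : R.length ≤ N) :
    (∀ c, cnt (lpLog R (s * s)) c ≤ s * s) ∧ ∀ r ∈ R, ev (cnt (lpLog R (s * s))) (s * s) r.1 ≤
      ev (cnt (lpLog R (s * s))) (s * s) r.2 + s * (N * W) := by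
  obtain ⟨h1, h2⟩ := lp_main R z hz hf W hW (s * s)
  refine ⟨fun c => List.countP_le_length.trans h1.le, fun r hr => ?_⟩
  have h3 : viol (lpLog R (s * s)) r ^ 2 ≤ (R.map fun r => viol (lpLog R (s * s)) r ^ 2).sum :=
    List.single_le_sum (fun _ _ => Nat.zero_le _) _ (List.mem_map_of_mem hr)
  have h4 : viol (lpLog R (s * s)) r ^ 2 ≤ (s * (N * W)) ^ 2 := by
    refine h3.trans (h2.trans ?_)
    have : R.length ≤ N * N := hN.trans (Nat.le_mul_self N)
    calc s * s * (R.length * W ^ 2) ≤ s * s * (N * N * W ^ 2) := by gcongr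
      _ = _ := by ring
  have h5 := (Nat.pow_le_pow_iff_left (by omega : 2 ≠ 0)).1 h4
  unfold viol at h5
  rw [h1] at h5
  omega

end Pool.Agent.Lib.MP_fec922_lc
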