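import Pool.Agent.Lib.MP_fec922_lc.Route
import Pool.Agent.Lib.MP_fec922_lc.LP

/-!
The linear programming relaxation: capacities, one flow for every vertex and one for every group.
-/

namespace Pool.Agent.Lib.MP_fec922_lc

open Finset Pool.Agent.Shared.PolyTime

attribute [local fun_prop] PB.comp

variable {α : Type} [N487b59b3 α]

theorem ev_tab (Z : Col → ℕ) (t n c : ℕ) (f : ℕ → Col × ℕ) :
    ev Z t (tab n f, c) = ∑ i ∈ range n, (f i).2 * Z (f i).1 + t * c := by
  rw [← sm_eq]; simp [ev, tab, sm, Function.comp_def]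

theorem ev_append (Z : Col → ℕ) (t c : ℕ) (l l' : List (Col × ℕ)) :
    ev Z t (l ++ l', c) = ev Z t (l, 0) + ev Z t (l', c) := by
  simp [ev]; ring

theorem ev_flat (Z : Col → ℕ) (t n c : ℕ) (f : ℕ → List (Col × ℕ)) :
    ev Z t ((List.range n).flatMap f, c) = ∑ i ∈ range n, ev Z t (f i, 0) + t * c := by
  induction n with
  | zero => simp [ev]
  | succ n ih =>
    rw [List.range_succ, List.flatMap_append, sum_range_succ]
    simp only [ev, List.map_append, List.sum_append, List.flatMap_cons, List.flatMap_nil,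
      List.append_nil, mul_zero, add_zero] at ih ⊢
    omega

theorem sum_count_fst {n : ℕ} {l : List (ℕ × ℕ)} (hl : In n l) (u : ℕ) :
    ∑ w ∈ range n, l.count (u, w) = (l.map Prod.fst).count u := by
  induction l with
  | nil => simp
  | cons e l ih =>
    obtain ⟨a, b⟩ := e
    have he := (hl (a, b) (by simp)).2
    simp only [List.count_cons, List.map_cons, sum_add_distrib, ih fun x hx => hl x (by simp [hx])]
    congr 1
    by_cases h : a = u
    · simp [h, show b < n from he]
    · simp [h]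

theorem sum_count_snd {n : ℕ} {l : List (ℕ × ℕ)} (hl : In n l) (u : ℕ) :
    ∑ w ∈ range n, l.count (w, u) = (l.map Prod.snd).count u := by
  induction l with
  | nil => simp
  | cons e l ih =>
    obtain ⟨a, b⟩ := e
    have he := (hl (a, b) (by simp)).1
    simp only [List.count_cons, List.map_cons, sum_add_distrib, ih fun x hx => hl x (by simp [hx])]
    congr 1
    by_cases h : b = u
    · simp [h, show a < n from he]
    · simp [h]

theorem Ch.no_loop {a z : ℕ} {l : List (ℕ × ℕ)} (h : Ch a l z) (hs : Simple l z) (u : ℕ) :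
    (u, u) ∉ l := by
  induction h with
  | nil => simp
  | cons a b l z h ih =>
    unfold Simple at hs ih
    rw [List.map_cons, List.cons_append, List.nodup_cons] at hs
    rw [List.mem_cons, not_or]
    refine ⟨fun e => hs.1 ?_, ih hs.2⟩
    rw [h.fst_snd]
    simp only [Prod.mk.injEq] at e
    simp [← e.1, ← e.2]

def pN (n k : ℕ) : ℕ := (n + k) * (n * n) + n + 1 + k + k
def pW (n : ℕ) : ℕ := n * (n * n) + 2 * n + 1
def ps (n h k : ℕ) : ℕ := 8 * n * h * ((n * n + n + 1) * (pN n k * pW n))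
def pT (n h k : ℕ) : ℕ := ps n h k * ps n h k
def pth (n h k : ℕ) : ℕ := (n * n + n + 1) * (ps n h k * (pN n k * pW n))
def pm (n h k : ℕ) : ℕ := sz (n * (n * (2 * pT n h k)))

namespace Ctx

variable (D : Ctx)

def ed (u w : ℕ) : ℕ := if D.c u w ≤ D.n then 1 else 0

def rowCap (t u w : ℕ) : Row := (([((t, u, w), 1)], 0), ([((D.n + D.k, u, w), D.ed u w)], 0))

def rowCons (t u : ℕ) : Row :=
  ((tab D.n fun w => ((t, u, w), 1), 0), (tab D.n fun w => ((t, w, u), if w = u then 0 else 1), 0))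

def rowF (t u w : ℕ) : Row :=
  if u = w then (if u = D.r then (([], 0), ([], 0)) else D.rowCons t u) else D.rowCap t u w

def rowDeg (v : ℕ) : Row :=
  (((tab D.n fun w => ((D.n + D.k, v, w), 1)) ++ (tab D.n fun w => ((D.n + D.k, w, v), 1)), 0),
    ([((v, v, v), 2 * D.b v)], 0))

def rowCost : Row :=
  (((List.range D.n).flatMap fun u => tab D.n fun w => ((D.n + D.k, u, w), D.ed u w * D.c u w), 0),
    ([], 2 * D.n))

def rowLo (g : ℕ) : Row := (([], 1), (tab D.n fun u => ((D.n + g, u, u), (D.mem g u).toNat), 0))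

def rows : List Row :=
  ((List.range (D.n + D.k)).flatMap fun t => (List.range D.n).flatMap fun u =>
    tab D.n fun w => D.rowF t u w) ++ tab D.n D.rowDeg ++ [D.rowCost] ++ tab D.k D.rowLo ++
    tab D.k fun g => (D.rowLo g).swap

/-- The data with the solution of the linear program. -/
def setLP (lg : List (List Col)) : Ctx :=
  { D with X := fun u w => D.ed u w * (cnt lg (D.n + D.k, u, w) + cnt lg (D.n + D.k, w, u))
           mu := fun g u => (D.mem g u).toNat * cnt lg (D.n + g, u, u) }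

def solve : List ℕ × List (ℕ × ℕ) := (D.setLP (lpLog D.rows D.T)).route

theorem mem_rows {x : Row} : x ∈ D.rows ↔
    (∃ t < D.n + D.k, ∃ u < D.n, ∃ w < D.n, D.rowF t u w = x) ∨ (∃ v < D.n, D.rowDeg v = x) ∨
      x = D.rowCost ∨ (∃ g < D.k, D.rowLo g = x) ∨ ∃ g < D.k, (D.rowLo g).swap = x := by
  simp only [rows, List.mem_append, List.mem_flatMap, List.mem_range, mem_tab, List.mem_singleton,
    or_assoc]

theorem length_rows : D.rows.length ≤ pN D.n D.k := by
  simp [rows, pN, List.length_flatMap]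
  omega

end Ctx

section
variable {D : α → Ctx} {t u w : α → ℕ}

@[fun_prop] theorem ed_pt (hD : CPT D) (hu : PT u) (hw : PT w) :
    PT (fun a => (D a).ed (u a) (w a)) := by
  unfold Ctx.ed; fun_prop
@[fun_prop] theorem rowF_pt (hD : CPT D) (ht : PT t) (hu : PT u) (hw : PT w) :
    PT (fun a => (D a).rowF (t a) (u a) (w a)) := by
  unfold Ctx.rowF Ctx.rowCons Ctx.rowCap; fun_prop
@[fun_prop] theorem rowDeg_pt (hD : CPT D) (hu : PT u) : PT (fun a => (D a).rowDeg (u a)) := by
  unfold Ctx.rowDeg; fun_prop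
@[fun_prop] theorem rowCost_pt (hD : CPT D) : PT (fun a => (D a).rowCost) := by
  unfold Ctx.rowCost; fun_prop
@[fun_prop] theorem rowLo_pt (hD : CPT D) (hu : PT u) : PT (fun a => (D a).rowLo (u a)) := by
  unfold Ctx.rowLo; fun_prop
@[fun_prop] theorem rows_pt (hD : CPT D) : PT (fun a => (D a).rows) := by
  unfold Ctx.rows; fun_prop
@[fun_prop] theorem CPT.setLP (hD : CPT D) {lg : α → List (List Col)} (hl : PT lg) :
    CPT (fun a => (D a).setLP (lg a)) := by
  have hX : PT (fun p : α × ℕ × ℕ => (D p.1).ed p.2.1 p.2.2 *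
      (cnt (lg p.1) ((D p.1).n + (D p.1).k, p.2.1, p.2.2) +
        cnt (lg p.1) ((D p.1).n + (D p.1).k, p.2.2, p.2.1))) := by fun_prop
  have hm : PT (fun p : α × ℕ × ℕ => ((D p.1).mem p.2.1 p.2.2).toNat *
      cnt (lg p.1) ((D p.1).n + p.2.1, p.2.2, p.2.2)) := by fun_prop
  obtain ⟨h1, h2, h3, h4, h5, h6, h7, -, h9, h10, -, h12, h13⟩ := hD
  exact ⟨h1, h2, h3, h4, h5, h6, h7, hX, h9, h10, hm, h12, h13⟩
@[fun_prop] theorem solve_pt (hD : CPT D) : PT (fun a => (D a).solve) := by
  unfold Ctx.solve; fun_prop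

end

namespace Ctx

variable (D : Ctx)

/-- A feasible solution of small cost, given by its edge relation and its vertex set. -/
structure Sol (te : ℕ → ℕ → Bool) (tv : ℕ → Prop) : Prop where
  symm : ∀ u w, te u w = te w u
  ed : ∀ u w, te u w = true → D.c u w ≤ D.n
  ends : ∀ u w, te u w = true → tv u
  conn : ∀ v, tv v → ∃ l, Ch D.r l v ∧ In D.n l ∧ ∀ e ∈ l, te e.1 e.2 = true
  deg : ∀ v < D.n, ∑ w ∈ range D.n, (te v w).toNat ≤ D.b v
  cost : ∑ u ∈ range D.n, ∑ w ∈ range D.n, (te u w).toNat * D.c u w ≤ 2 * D.n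
  cover : ∀ g < D.k, ∃ v < D.n, tv v ∧ D.mem g v = true

variable {D}

theorem Sol.feasible {te : ℕ → ℕ → Bool} {tv : ℕ → Prop} (S : D.Sol te tv) :
    ∃ z : Col → ℕ, (∀ c, z c ≤ 1) ∧ ∀ x ∈ D.rows, ev z 1 x.1 ≤ ev z 1 x.2 := by
  have h1 : ∀ v, tv v → ∃ l, Ch D.r l v ∧ Simple l v ∧ In D.n l ∧ ∀ e ∈ l, te e.1 e.2 = true := by
    intro v hv
    obtain ⟨l, a1, a2, a3⟩ := S.conn v hv
    exact ⟨short v l, (short_spec a1).1, (short_spec a1).2, a2.sublist (short_sublist _ _),
      fun e he => a3 e ((short_sublist _ _).subset he)⟩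
  have h2 : ∀ t, ∃ (l : List (ℕ × ℕ)) (y a : ℕ), ((a = 0 ∧ l = []) ∨ (a = 1 ∧ Ch D.r l y ∧
      Simple l y ∧ In D.n l ∧ ∀ e ∈ l, te e.1 e.2 = true)) ∧ (t < D.n → y = t ∧ (tv t → a = 1)) ∧
      ∀ g < D.k, t = D.n + g → a = 1 ∧ y < D.n ∧ D.mem g y = true := by
    intro t
    by_cases ht : t < D.n
    · by_cases h : tv t
      · obtain ⟨l, hl⟩ := h1 t h
        exact ⟨l, t, 1, Or.inr ⟨rfl, hl⟩, fun _ => ⟨rfl, fun _ => rfl⟩, fun g _ e => by omega⟩
      · exact ⟨[], t, 0, Or.inl ⟨rfl, rfl⟩, fun _ => ⟨rfl, fun h' => absurd h' h⟩,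
          fun g _ e => by omega⟩
    · by_cases h : t - D.n < D.k
      · obtain ⟨v, a1, a2, a3⟩ := S.cover _ h
        obtain ⟨l, hl⟩ := h1 v a2
        exact ⟨l, v, 1, Or.inr ⟨rfl, hl⟩, fun h' => absurd h' ht, fun g _ e =>
          ⟨rfl, a1, by rwa [e, Nat.add_sub_cancel_left] at a3⟩⟩
      · exact ⟨[], t, 0, Or.inl ⟨rfl, rfl⟩, fun h' => absurd h' ht, fun g _ e => by omega⟩
  choose l y a h3 h4 h5 using h2
  have hloop : ∀ t u, (l t).count (u, u) = 0 := fun t u => by
    rcases h3 t with h | h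
    · simp [h.2]
    · exact List.count_eq_zero_of_not_mem (h.2.1.no_loop h.2.2.1 u)
  have hcnt : ∀ t u w, (l t).count (u, w) ≤ (te u w).toNat := fun t u w => by
    rcases h3 t with h | h
    · simp [h.2]
    · by_cases hm : (u, w) ∈ l t
      · rw [h.2.2.2.2 _ hm]
        exact List.nodup_iff_count_le_one.1
          (List.Nodup.of_map _ (h.2.2.1.sublist (List.sublist_append_left _ _))) _
      · rw [List.count_eq_zero_of_not_mem hm]; exact Nat.zero_le _
  have ha : ∀ t, a t ≤ 1 := fun t => by rcases h3 t with h | h <;> omega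
  have hb : ∀ b : Bool, b.toNat ≤ 1 := fun b => by cases b <;> simp
  set z : Col → ℕ := fun c => if c.1 = D.n + D.k then (te c.2.1 c.2.2).toNat else
    (l c.1).count (c.2.1, c.2.2) + if c.2.1 = c.2.2 ∧ c.2.1 = y c.1 then a c.1 else 0 with hz
  have z1 : ∀ u w, z (D.n + D.k, u, w) = (te u w).toNat := fun u w => by simp [hz]
  have z2 : ∀ t < D.n + D.k, ∀ u w, z (t, u, w) =
      (l t).count (u, w) + if u = w ∧ u = y t then a t else 0 := fun t ht u w => by
    simp only [hz]; rw [if_neg ht.ne]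
  have hgrp : ∀ g < D.k, ev z 1 (D.rowLo g).2 = 1 := by
    intro g hg
    obtain ⟨a1, a2, a3⟩ := h5 _ g hg rfl
    rw [rowLo, ev_tab, sum_eq_single (y (D.n + g))]
    · simp [z2 _ (Nat.add_lt_add_left hg _), hloop, a1, a3]
    · intro u _ hu
      simp [z2 _ (Nat.add_lt_add_left hg _), hloop, hu]
    · intro h; exact absurd (mem_range.2 a2) h
  refine ⟨z, fun ⟨t, u, w⟩ => ?_, fun x hx => ?_⟩
  · simp only [hz]
    split_ifs with b1 b2
    · exact hb _
    · rw [← b2.1, hloop]; simpa using ha t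
    · simpa using (hcnt t u w).trans (hb _)
  rcases D.mem_rows.1 hx with ⟨t, ht, u, hu, w, hw, rfl⟩ | ⟨v, hv, rfl⟩ | rfl | ⟨g, hg, rfl⟩ |
    ⟨g, hg, rfl⟩
  · unfold rowF
    split_ifs with b1 b2
    · simp [ev]
    · rw [rowCons, ev_tab, ev_tab]
      have e1 : ∑ w ∈ range D.n, (if w = u then 0 else 1) * z (t, w, u) =
          ∑ w ∈ range D.n, (l t).count (w, u) := sum_congr rfl fun w _ => by
        rw [z2 t ht]
        by_cases c1 : w = u
        · rw [c1, hloop]; simp
        · simp [c1]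
      have e2 : ∑ w ∈ range D.n, 1 * z (t, u, w) =
          ∑ w ∈ range D.n, (l t).count (u, w) + if u = y t then a t else 0 := by
        simp only [z2 t ht, one_mul, sum_add_distrib, ite_and, sum_ite_eq, mem_range, hu, if_true]
      simp only [e1, e2, mul_zero, add_zero]
      rcases h3 t with h | h
      · simp [h.1, h.2]
      · rw [sum_count_fst h.2.2.2.1, sum_count_snd h.2.2.2.1, h.1]
        have := congrArg (List.count u) h.2.1.fst_snd
        simp only [List.count_append, List.count_cons, List.count_nil, beq_iff_eq] at this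
        split_ifs at this ⊢ <;> omega
    · simp only [rowCap, ev, List.map_cons, List.map_nil, List.sum_cons, List.sum_nil, z1, z2 t ht,
        b1, false_and, if_false, mul_zero, add_zero, one_mul]
      refine (hcnt t u w).trans ?_
      cases h : te u w
      · simp
      · simp [Ctx.ed, S.ed u w h]
  · rw [rowDeg, ev_append, ev_tab, ev_tab]
    have e1 := S.deg v hv
    simp only [z1, one_mul, mul_zero, add_zero, S.symm _ v, ev, List.map_cons, List.map_nil,
      List.sum_cons, List.sum_nil, z2 v (by omega), hloop, (h4 v hv).1, and_self, if_true, zero_add]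
    by_cases h : tv v
    · rw [(h4 v hv).2 h]; omega
    · rw [sum_eq_zero]
      · exact Nat.zero_le _
      · intro w _
        cases h' : te v w
        · rfl
        · exact absurd (S.ends v w h') h
  · rw [rowCost, ev_flat]
    simp only [ev_tab, z1, mul_zero, add_zero]
    simp only [ev, List.map_nil, List.sum_nil, zero_add, one_mul]
    refine le_trans (sum_le_sum fun u _ => sum_le_sum fun w _ => ?_) S.cost
    unfold Ctx.ed
    split_ifs <;> simp [mul_comm]
  · rw [hgrp g hg]; simp [rowLo, ev]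
  · rw [Prod.fst_swap, hgrp g hg]; simp [rowLo, ev]

theorem width (hb : ∀ v < D.n, D.b v ≤ D.n) :
    ∀ x ∈ D.rows, ev (fun _ => 1) 1 x.1 ≤ pW D.n ∧ ev (fun _ => 1) 1 x.2 ≤ pW D.n := by
  have h1 : ∀ f : ℕ → ℕ, (∀ i, f i ≤ 1) → ∑ i ∈ range D.n, f i ≤ D.n := fun f hf =>
    (sum_le_card_nsmul _ _ 1 fun i _ => hf i).trans (by simp)
  have h2 : ∀ g, ev (fun _ => 1) 1 (D.rowLo g).1 ≤ pW D.n ∧
      ev (fun _ => 1) 1 (D.rowLo g).2 ≤ pW D.n := fun g => by
    have := h1 (fun u => (D.mem g u).toNat * 1) fun u => by cases D.mem g u <;> simp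
    rw [rowLo, ev_tab, pW]
    simp only [ev, List.map_nil, List.sum_nil]
    omega
  intro x hx
  rcases D.mem_rows.1 hx with ⟨t, ht, u, hu, w, hw, rfl⟩ | ⟨v, hv, rfl⟩ | rfl | ⟨g, hg, rfl⟩ |
    ⟨g, hg, rfl⟩
  · unfold rowF
    split_ifs with b1 b2
    · simp [ev]
    · have a1 := h1 (fun w => (if w = u then 0 else 1) * 1) fun w => by split_ifs <;> simp
      have a2 := h1 (fun _ => 1 * 1) fun _ => le_rfl
      rw [rowCons, ev_tab, ev_tab, pW]
      simp only
      omega
    · have : D.ed u w ≤ 1 := by unfold Ctx.ed; split_ifs <;> simp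
      simp only [rowCap, ev, pW, List.map_cons, List.map_nil, List.sum_cons, List.sum_nil]
      omega
  · have a2 := h1 (fun _ => 1 * 1) fun _ => le_rfl
    have a3 := hb v hv
    rw [rowDeg, ev_append, ev_tab, ev_tab, pW]
    simp only [ev, List.map_cons, List.map_nil, List.sum_cons, List.sum_nil]
    omega
  · rw [rowCost, ev_flat, pW]
    simp only [ev_tab]
    have : ∑ u ∈ range D.n, (∑ w ∈ range D.n, D.ed u w * D.c u w * 1 + 1 * 0) ≤ D.n * (D.n * D.n) := by
      refine (sum_le_card_nsmul _ _ (D.n * D.n) fun u _ => ?_).trans (by simp)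
      rw [mul_zero, add_zero]
      refine (sum_le_card_nsmul _ _ D.n fun w _ => ?_).trans (by simp)
      unfold Ctx.ed
      split_ifs <;> omega
    simp only [ev, List.map_nil, List.sum_nil]
    omega
  · exact h2 g
  · exact (h2 g).symm

theorem Sol.base {te : ℕ → ℕ → Bool} {tv : ℕ → Prop} (S : D.Sol te tv) (hr : D.r < D.n)
    (hn : D.n ≤ 2 ^ (D.h - 1)) (hh : 0 < D.h) (hk : D.k < 2 ^ D.h)
    (hc : ∀ u < D.n, ∀ v < D.n, D.c u v = D.c v u) (hb : ∀ v < D.n, 1 ≤ D.b v ∧ D.b v ≤ D.n)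
    (hT : D.T = pT D.n D.h D.k) (hth : D.th = pth D.n D.h D.k) (hm : D.m = pm D.n D.h D.k)
    (hroot : ∃ g < D.k, D.mem g D.r = false) : (D.setLP (lpLog D.rows D.T)).Base := by
  obtain ⟨z, hz, hf⟩ := S.feasible
  obtain ⟨h1, h2⟩ := lp_spec D.rows z hz hf _ (width fun v hv => (hb v hv).2)
    (ps D.n D.h D.k) _ D.length_rows
  have e0 : ps D.n D.h D.k * ps D.n D.h D.k = D.T := hT.symm
  rw [e0] at h1 h2
  set E := ps D.n D.h D.k * (pN D.n D.k * pW D.n) with hE
  have e1 : D.th = D.n * (D.n * E) + D.n * E + E := by rw [hth, pth]; ring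
  have e2 : 8 * D.n * D.h * D.th = D.T := by
    have : ps D.n D.h D.k = 8 * D.n * D.h * ((D.n * D.n + D.n + 1) * (pN D.n D.k * pW D.n)) := rfl
    rw [hth, hT, pth, pT]
    linear_combination (exp := 1) (ps D.n D.h D.k) * this.symm
  have hn0 : 0 < D.n := by omega
  have hE0 : 0 < E := by rw [hE, ps, pN, pW]; positivity
  have e3 : D.th ≤ D.n * D.T := by
    have : 0 < D.n * (8 * D.n * D.h) := by positivity
    rw [← e2]; nlinarith
  set lg := lpLog D.rows D.T with hlg
  have hed : ∀ u w, D.ed u w ≤ 1 := fun u w => by unfold Ctx.ed; split_ifs <;> simp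
  have heds : ∀ u < D.n, ∀ w < D.n, D.ed u w = D.ed w u := fun u hu w hw => by
    unfold Ctx.ed; rw [hc u hu w hw]
  have hcut : ∀ t < D.n + D.k, ∀ A : Finset ℕ, D.r ∉ A →
      ∑ u ∈ range D.n, (if u ∈ A then cnt lg (t, u, u) else 0) ≤ (D.setLP lg).cutS A + D.th := by
    intro t ht A hA
    have a1 : ∑ u ∈ range D.n, (if u ∈ A then ∑ w ∈ range D.n, cnt lg (t, u, w) else 0) ≤
        ∑ u ∈ range D.n, ((if u ∈ A then ∑ w ∈ range D.n, (if w = u then 0 else cnt lg (t, w, u))
          else 0) + E) := by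
      refine sum_le_sum fun u hu => ?_
      split_ifs with h
      · have := h2 _ (D.mem_rows.2 (Or.inl ⟨t, ht, u, mem_range.1 hu, u, mem_range.1 hu, rfl⟩))
        rw [rowF, if_pos rfl, if_neg (fun e : u = D.r => hA (e ▸ h)), rowCons, ev_tab, ev_tab] at this
        simpa using this
      · exact Nat.zero_le _
    have a2 : ∑ u ∈ range D.n, (if u ∈ A then cnt lg (t, u, u) else 0) +
        ∑ u ∈ range D.n, ∑ w ∈ range D.n, (if u ∈ A ∧ w ∈ A ∧ u ≠ w then cnt lg (t, u, w) else 0) ≤
        ∑ u ∈ range D.n, (if u ∈ A then ∑ w ∈ range D.n, cnt lg (t, u, w) else 0) := by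
      rw [← sum_add_distrib]
      refine sum_le_sum fun u hu => ?_
      split_ifs with h
      · rw [← add_sum_erase _ (fun w => cnt lg (t, u, w)) hu, ← add_sum_erase _ _ hu]
        simp only [ne_eq, not_true, and_false, if_false, zero_add]
        exact Nat.add_le_add_left (sum_le_sum fun w _ => by split_ifs <;> simp) _
      · simp [h]
    have a3 : ∑ u ∈ range D.n, (if u ∈ A then ∑ w ∈ range D.n,
        (if w = u then 0 else cnt lg (t, w, u)) else 0) ≤
        ∑ u ∈ range D.n, ∑ w ∈ range D.n, ((if w ∈ A ∧ u ∈ A ∧ w ≠ u then cnt lg (t, w, u) else 0) +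
          (if u ∈ A ∧ w ∉ A then (D.setLP lg).X u w else 0) + E) := by
      refine sum_le_sum fun u hu => ?_
      split_ifs with h
      · refine sum_le_sum fun w hw => ?_
        by_cases b1 : w = u
        · simp [b1]
        · by_cases b2 : w ∈ A
          · simp [b1, b2, h]
          · have := h2 _ (D.mem_rows.2 (Or.inl ⟨t, ht, w, mem_range.1 hw, u, mem_range.1 hu, rfl⟩))
            rw [rowF, if_neg b1, rowCap] at this
            simp only [ev, List.map_cons, List.map_nil, List.sum_cons, List.sum_nil, mul_zero,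
              add_zero, one_mul] at this
            simp only [b1, b2, h, if_false, false_and, not_false_iff, and_self, if_true, setLP,
              heds u (mem_range.1 hu) w (mem_range.1 hw), mul_add]
            omega
      · exact Nat.zero_le _
    simp only [sum_add_distrib, sum_const, card_range, smul_eq_mul] at a1 a3
    rw [sum_comm (f := fun u w => if w ∈ A ∧ u ∈ A ∧ w ≠ u then cnt lg (t, w, u) else 0)] at a3
    change _ ≤ _ + (D.setLP lg).cutS A + _ at a3
    omega
  have hmu : ∀ g v, (D.setLP lg).mu g v ≤ cnt lg (D.n + g, v, v) := fun g v => by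
    simp only [setLP]; cases D.mem g v <;> simp
  refine ⟨hr, hn, hh, ?_, hk, fun u hu v hv => ?_, hc, hb, ?_, e2.le, fun u _ v _ => ?_, ?_,
    fun g _ v _ h => ?_, fun g hg => ?_, fun g hg A hA => ?_, fun v hv => ?_, ?_, hroot⟩
  · change 0 < D.m
    have : 0 < D.T := by rw [← e2, e1]; positivity
    rw [hm, pm, sz_nat, Nat.size_pos, ← hT]; positivity
  · change D.ed u v * _ = D.ed v u * _
    rw [heds u hu v hv, add_comm]
  · change 1 ≤ D.th
    omega
  · have a1 := h1 (D.n + D.k, u, v)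
    have a2 := h1 (D.n + D.k, v, u)
    have a3 := Nat.mul_le_mul_right (cnt lg (D.n + D.k, u, v) + cnt lg (D.n + D.k, v, u)) (hed u v)
    change D.ed u v * (cnt lg (D.n + D.k, u, v) + cnt lg (D.n + D.k, v, u)) ≤ 2 * D.T
    omega
  · change D.n * (D.n * (2 * D.T)) < 2 ^ D.m
    rw [hm, pm, hT]; exact lt_two_pow_sz _
  · change (D.mem g v).toNat * _ = 0
    change D.mem g v = false at h
    simp [h]
  · have a1 := h2 _ (D.mem_rows.2 (Or.inr (Or.inr (Or.inr (Or.inl ⟨g, hg, rfl⟩)))))
    have a2 := h2 _ (D.mem_rows.2 (Or.inr (Or.inr (Or.inr (Or.inr ⟨g, hg, rfl⟩)))))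
    simp only [rowLo, Prod.swap, ev_tab] at a1 a2
    simp only [ev, List.map_nil, List.sum_nil] at a1 a2
    change D.T ≤ ∑ v ∈ range D.n, (D.mem g v).toNat * cnt lg (D.n + g, v, v) + D.th ∧
      ∑ v ∈ range D.n, (D.mem g v).toNat * cnt lg (D.n + g, v, v) ≤ D.T + D.th
    omega
  · refine le_trans (sum_le_sum fun v _ => ?_) (hcut (D.n + g) (Nat.add_lt_add_left hg _) A hA)
    split_ifs
    · exact hmu g v
    · rfl
  · change v < D.n at hv
    refine ⟨cnt lg (v, v, v), h1 _, ?_, fun A hv' hA => ?_⟩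
    · have a1 := h2 _ (D.mem_rows.2 (Or.inr (Or.inl ⟨v, hv, rfl⟩)))
      rw [rowDeg, ev_append, ev_tab, ev_tab] at a1
      simp only [ev, List.map_cons, List.map_nil, List.sum_cons, List.sum_nil, one_mul, mul_zero,
        add_zero, ← sum_add_distrib] at a1
      have a2 : (D.setLP lg).dX v ≤
          ∑ w ∈ range D.n, (cnt lg (D.n + D.k, v, w) + cnt lg (D.n + D.k, w, v)) := by
        rw [dX, sm_eq]
        exact sum_le_sum fun w _ => (Nat.mul_le_mul_right _ (hed v w)).trans (by simp)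
      change _ ≤ 2 * D.b v * _ + D.th
      omega
    · refine le_trans ?_ (hcut v (by omega) A hA)
      refine le_trans ?_ (single_le_sum (f := fun u => if u ∈ A then cnt lg (v, u, u) else 0)
        (fun _ _ => Nat.zero_le _) (mem_range.2 hv))
      simp [hv']
  · have a1 := h2 _ (D.mem_rows.2 (Or.inr (Or.inr (Or.inl rfl))))
    rw [rowCost, ev_flat] at a1
    simp only [ev_tab, mul_zero, add_zero] at a1
    simp only [ev, List.map_nil, List.sum_nil] at a1
    have a2 : ∑ u ∈ range D.n, (D.setLP lg).cX u =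
        ∑ u ∈ range D.n, ∑ w ∈ range D.n, D.ed u w * D.c u w * cnt lg (D.n + D.k, u, w) +
        ∑ u ∈ range D.n, ∑ w ∈ range D.n, D.ed u w * D.c u w * cnt lg (D.n + D.k, u, w) := by
      conv_rhs => congr; rfl; rw [sum_comm]
      rw [← sum_add_distrib]
      refine sum_congr rfl fun u hu => ?_
      rw [cX, sm_eq, ← sum_add_distrib]
      refine sum_congr rfl fun w hw => ?_
      rw [← heds u (mem_range.1 hu) w (mem_range.1 hw), ← hc u (mem_range.1 hu) w (mem_range.1 hw)]
      change D.ed u w * (cnt lg (D.n + D.k, u, w) + cnt lg (D.n + D.k, w, u)) * D.c u w = _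
      ring
    change ∑ u ∈ range D.n, (D.setLP lg).cX u ≤ 6 * D.n * D.T
    have a3 : D.T * (2 * D.n) = 2 * (D.n * D.T) := by ring
    have a4 : 6 * D.n * D.T = 6 * (D.n * D.T) := by ring
    omega

end Ctx

end Pool.Agent.Lib.MP_fec922_lc
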