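import Pool.Agent.Lib.MP_fec922_lc.Flow

/-!
The potential function of the terminal selection and its change in one step.
-/

namespace Pool.Agent.Lib.MP_fec922_lc

open Finset

theorem pK_pos (h : ℕ) : 0 < pK h := by unfold pK; positivity
theorem pC_pos (h : ℕ) {m : ℕ} (hm : 0 < m) : 0 < pC h m := by
  have := pK_pos h; unfold pC; positivity
theorem pc0_pos (h : ℕ) : 0 < pc0 h := by unfold pc0; positivity
theorem pmr_pos (h : ℕ) : 0 < pmr h := by have := pc0_pos h; unfold pmr; positivity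
theorem pR_pos {h : ℕ} (hh : 0 < h) : 0 < pR h := by have := pmr_pos h; unfold pR; positivity
theorem peta_pos {h m : ℕ} (hh : 0 < h) (hm : 0 < m) : 0 < peta h m := by
  have := pC_pos h hm; have := pc0_pos h; unfold peta; positivity
theorem psig_ge {h m : ℕ} (hh : 0 < h) (hm : 0 < m) : 4 ≤ psig h m := by
  have h1 := pR_pos hh
  have h2 := peta_pos hh hm
  have h3 := pmr_pos h
  have : 0 < pR h * peta h m * pmr h := by positivity
  unfold psig
  nlinarith

theorem q_alg (J Z m RS RP cT j rest : ℝ) (h : RS * m ≤ cT) (hm : 0 ≤ m) (hP : 0 ≤ RP)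
    (hS : 0 ≤ RS) :
    (RS - RP) * (((J - Z) ^ 2 + cT * rest) -
        ((J - (Z + RP * m)) ^ 2 + cT * (rest + (j + 1) * (RP * m)))) +
      RP * (((J - (Z + RS * m)) ^ 2 + cT * (rest + j * (RS * m))) -
        ((J - (Z + RP * m)) ^ 2 + cT * (rest + (j + 1) * (RP * m)))) ≤ 0 := by
  have h1 : 0 ≤ RS * (RP * m) := by positivity
  have h2 : 0 ≤ RP * m := by positivity
  have h3 : 0 ≤ RS * (RP * m) * (cT + RP * m - RS * m) := mul_nonneg h1 (by linarith)
  nlinarith

namespace Ctx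

variable (D : Ctx)

noncomputable def tot (G : ℕ → ℕ → ℝ) (st : List ℕ) : ℝ := ∑ v ∈ range D.n, G v (g1 st v)

noncomputable def rcs (j s : ℕ) (f : ℕ → ℝ) : ℝ :=
  ∑ v ∈ range D.n, if D.ht s v ≤ j then f v else 0

noncomputable def Gz (g v e : ℕ) : ℝ := D.mu' g v * (if e = 0 then 0 else (D.RR (e - 1) v : ℝ))

noncomputable def Gr (g v e : ℕ) : ℝ := D.Gz g v e * ((e - 1 : ℕ) : ℝ)

noncomputable def Qg (st : List ℕ) (g : ℕ) : ℝ :=
  (D.JJ - D.tot (D.Gz g) st) ^ 2 + pc0 D.h * D.T * D.tot (D.Gr g) st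

def Psi (ld : List ℕ) : ℕ :=
  ∑ v ∈ range D.n, psi (psig D.h D.m * D.n * D.b v) (pcap D.n D.h D.m) (g1 ld v)

noncomputable def FF (ld : List ℕ) (x : ℕ → ℕ → ℝ) : ℝ := D.Psi ld + 2 * D.n * D.kap * D.xcost x

noncomputable def al (ls : List ℕ) (j v : ℕ) : ℝ :=
  4 * D.n * pC D.h D.m * D.kap * j * D.RR (j + 1) v * D.cX v +
    2 * D.n * D.RR (j + 1) v * (pC D.h D.m * D.vol ls v +
      D.wj (j + 1) v * D.spread ls (j + 1) v / D.WW (j + 1) v)

noncomputable def be (j v : ℕ) : ℝ := 4 * D.n * pC D.h D.m * D.kap * j * D.RR j v * D.cX v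

noncomputable def Gt (ls : List ℕ) (j v e : ℕ) : ℝ :=
  if e = j + 2 then D.al ls j v else if e = j + 1 then D.be j v else 0

noncomputable def A0 (Tm : List ℕ) : ℝ := (D.usum Tm fun _ => 1 : ℕ) * (D.JJ : ℝ) ^ 2

noncomputable def QQ (Tm st : List ℕ) : ℝ :=
  ∑ g ∈ range D.k, if D.unc Tm g = true then D.Qg st g else 0

noncomputable def Pot (Tm ls : List ℕ) (j : ℕ) (st ld : List ℕ) (x : ℕ → ℕ → ℝ) : ℝ :=
  D.A0 Tm * (D.T * D.FF ld x + D.tot (D.Gt ls j) st) + D.xi * D.T * D.QQ Tm st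

def Lam (ls : List ℕ) : ℕ := ∑ v ∈ range D.n, D.lam ls v * D.b v

variable {D}

theorem usum_cast (Tm : List ℕ) (f : ℕ → ℕ) :
    (D.usum Tm f : ℝ) = ∑ g ∈ range D.k, if D.unc Tm g = true then (f g : ℝ) else 0 := by
  rw [usum, sm_eq]
  push_cast
  refine sum_congr rfl fun g _ => ?_
  cases D.unc Tm g <;> simp

theorem g1_setSt (st : List ℕ) (j s x : ℕ) {v : ℕ} (hv : v < D.n) :
    g1 (D.setSt st j s x) v = if D.ht s v ≤ j then x else g1 st v := g1_tab _ hv

theorem g1_addLd (ld : List ℕ) (j s : ℕ) {v : ℕ} (hv : v < D.n) :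
    g1 (D.addLd ld j s) v = g1 ld v + D.delta ld j s v := g1_tab _ hv

theorem tot_setSt (G : ℕ → ℕ → ℝ) {st : List ℕ} {j s e : ℕ} (x : ℕ)
    (h : ∀ v < D.n, D.ht s v ≤ j → g1 st v = e) :
    D.tot G (D.setSt st j s x) =
      D.tot G st - D.rcs j s (fun v => G v e) + D.rcs j s (fun v => G v x) := by
  rw [tot, tot, rcs, rcs, ← sum_sub_distrib, ← sum_add_distrib]
  refine sum_congr rfl fun v hv => ?_
  rw [g1_setSt _ _ _ _ (mem_range.1 hv)]
  split_ifs with h1
  · rw [h v (mem_range.1 hv) h1]; ring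
  · ring

theorem rcs_eq {j s : ℕ} {f : ℕ → ℝ} (c : ℝ) (g : ℕ → ℕ)
    (h : ∀ v < D.n, D.ht s v ≤ j → f v = c * g v) : D.rcs j s f = c * D.cs j s g := by
  rw [rcs, cs_eq]
  push_cast
  rw [mul_sum]
  refine sum_congr rfl fun v hv => ?_
  split_ifs with h1
  · exact h v (mem_range.1 hv) h1
  · simp

theorem rcs_add (j s : ℕ) (f g : ℕ → ℝ) :
    D.rcs j s (fun v => f v + g v) = D.rcs j s f + D.rcs j s g := by
  rw [rcs, rcs, rcs, ← sum_add_distrib]
  exact sum_congr rfl fun v _ => by split_ifs <;> simp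

theorem tot_Gz {st : List ℕ} {j s e : ℕ} (g : ℕ) (h : ∀ v < D.n, D.ht s v ≤ j → g1 st v = e) :
    D.tot (D.Gz g) st = D.Zp st j s g + D.rcs j s (fun v => D.Gz g v e) := by
  rw [tot, rcs, Zp, sm_eq]
  push_cast
  rw [← sum_add_distrib]
  refine sum_congr rfl fun v hv => ?_
  split_ifs with h1
  · rw [h v (mem_range.1 hv) h1]; simp
  · simp [Gz, coefv]

theorem Good.rcs_Gz (G : D.Good) {j s : ℕ} (hs : s < D.n) (g : ℕ) {i : ℕ} (hi : j ≤ i) :
    D.rcs j s (fun v => D.Gz g v (i + 1)) = D.RR i s * D.cs j s (D.mu' g) :=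
  rcs_eq _ _ fun v hv h => by
    simp [Gz, G.RR_congr hs hv (h.trans hi), mul_comm]

theorem Good.rcs_Gr (G : D.Good) {j s : ℕ} (hs : s < D.n) (g : ℕ) {i : ℕ} (hi : j ≤ i) :
    D.rcs j s (fun v => D.Gr g v (i + 1)) = i * (D.RR i s * D.cs j s (D.mu' g)) := by
  rw [← mul_assoc]
  exact rcs_eq _ _ fun v hv h => by
    simp only [Gr, Gz, G.RR_congr hs hv (h.trans hi), Nat.add_sub_cancel, Nat.succ_ne_zero,
      if_false]
    ring

theorem rcs_zero {j s : ℕ} {f : ℕ → ℝ} (h : ∀ v, f v = 0) : D.rcs j s f = 0 :=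
  sum_eq_zero fun v _ => by simp [h v]

theorem Good.Qg_formulas (G : D.Good) {st : List ℕ} {j s : ℕ} (hs : s < D.n) (g : ℕ)
    (h : ∀ v < D.n, D.ht s v ≤ j → g1 st v = j + 2) :
    ∃ rest : ℝ, D.Qg st g = (D.JJ - (D.Zp st j s g + D.RR (j + 1) s * D.cs j s (D.mu' g))) ^ 2 +
        pc0 D.h * D.T * (rest + (j + 1) * (D.RR (j + 1) s * D.cs j s (D.mu' g))) ∧
      D.Qg (D.setSt st j s 0) g = (D.JJ - D.Zp st j s g) ^ 2 + pc0 D.h * D.T * rest ∧
      D.Qg (D.setSt st j s (j + 1)) g =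
        (D.JJ - (D.Zp st j s g + D.RR j s * D.cs j s (D.mu' g))) ^ 2 +
        pc0 D.h * D.T * (rest + j * (D.RR j s * D.cs j s (D.mu' g))) := by
  have e1 := G.rcs_Gz hs g (Nat.le_succ j)
  have e2 := G.rcs_Gr hs g (Nat.le_succ j)
  refine ⟨D.tot (D.Gr g) st - (j + 1) * (D.RR (j + 1) s * D.cs j s (D.mu' g)), ?_, ?_, ?_⟩
  · rw [Qg, tot_Gz g h, e1]; ring
  · rw [Qg, tot_setSt _ _ h, tot_setSt _ _ h, tot_Gz g h, e2, rcs_zero (f := fun v => D.Gz g v 0),
      rcs_zero (f := fun v => D.Gr g v 0)]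
    · push_cast; ring
    · simp [Gr]
    · simp [Gz]
  · rw [Qg, tot_setSt _ _ h, tot_setSt _ _ h, tot_Gz g h, e2, G.rcs_Gz hs g le_rfl,
      G.rcs_Gr hs g le_rfl]
    push_cast; ring

theorem Good.rcs_al (G : D.Good) (ls : List ℕ) {j s : ℕ} (hs : s < D.n) :
    D.rcs j s (D.al ls j) =
      4 * D.n * pC D.h D.m * D.kap * j * D.RR (j + 1) s * D.cs j s D.cX +
      2 * D.n * D.RR (j + 1) s * (pC D.h D.m * D.cs j s (D.vol ls) +
        (D.cs j s fun a => D.wj (j + 1) a * D.spread ls (j + 1) a : ℕ) / D.WW (j + 1) s) := by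
  have e : D.al ls j = fun v =>
      (4 * D.n * pC D.h D.m * D.kap * j * D.RR (j + 1) v * D.cX v : ℝ) +
      ((2 * D.n * D.RR (j + 1) v * pC D.h D.m * D.vol ls v : ℝ) + (2 * D.n * D.RR (j + 1) v /
        D.WW (j + 1) v * (D.wj (j + 1) v * D.spread ls (j + 1) v) : ℝ)) := by
    funext v; unfold al; ring
  rw [e, rcs_add, rcs_add,
    rcs_eq (4 * D.n * pC D.h D.m * D.kap * j * D.RR (j + 1) s) D.cX,
    rcs_eq (2 * D.n * D.RR (j + 1) s * pC D.h D.m) (D.vol ls),
    rcs_eq (2 * D.n * D.RR (j + 1) s / D.WW (j + 1) s)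
      (fun a => D.wj (j + 1) a * D.spread ls (j + 1) a)]
  · ring
  · intro v hv h
    rw [G.RR_congr hs hv (h.trans (Nat.le_succ j)), WW, WW,
      G.cs_congr hs hv (h.trans (Nat.le_succ j))]
    push_cast; ring
  · intro v hv h
    rw [G.RR_congr hs hv (h.trans (Nat.le_succ j))]
  · intro v hv h
    rw [G.RR_congr hs hv (h.trans (Nat.le_succ j))]

theorem Good.rcs_be (G : D.Good) {j s : ℕ} (hs : s < D.n) :
    D.rcs j s (D.be j) = 4 * D.n * pC D.h D.m * D.kap * j * D.RR j s * D.cs j s D.cX :=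
  rcs_eq _ _ fun v hv h => by rw [be, G.RR_congr hs hv h]

theorem Good.FF_step (G : D.Good) {ld ls : List ℕ} (hl : ∀ v < D.n, g1 ld v ≤ g1 ls v) (j s : ℕ)
    (x : ℕ → ℕ → ℝ) :
    D.FF (D.addLd ld j s) (fun u w => x u w + D.flow ld j s u w) ≤
      D.FF ld x + 2 * D.n * ((D.pairSum j s (dist D.n (D.len ld)) : ℕ) / D.den j s) +
        2 * D.Lam ls := by
  have h1 : (D.Psi (D.addLd ld j s) : ℝ) ≤ D.Psi ld + ∑ v ∈ range D.n,
      (2 * D.n * (D.lam ld v * ((D.pairSum j s fun a z => inc v (path D.n (D.len ld) a z) : ℕ) /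
        D.den j s : ℝ)) + 2 * (D.lam ls v * D.b v) : ℝ) := by
    unfold Psi
    push_cast
    rw [← sum_add_distrib]
    refine sum_le_sum fun v hv => ?_
    have hv := mem_range.1 hv
    have h2 : D.delta ld j s v ≤ psig D.h D.m * D.n * D.b v := by
      refine (min_le_right _ _).trans ?_
      have h3 := psig_ge G.hh G.hm
      have h4 := (G.hb v hv).1
      have h5 := G.hn
      calc 2 * D.n + 1 ≤ 4 * D.n * 1 := by omega
        _ ≤ _ := by gcongr
    have h3 := psi_add (psig D.h D.m * D.n * D.b v) (pcap D.n D.h D.m) (g1 ld v) _ h2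
    rw [g1_addLd _ _ _ hv]
    have h4 : (D.delta ld j s v : ℝ) ≤ D.n * ((D.pairSum j s fun a z =>
        inc v (path D.n (D.len ld) a z) : ℕ) / D.den j s) + 1 := by
      have h5 : D.delta ld j s v ≤ _ := min_le_left _ _
      have h6 := Nat.cast_div_le (α := ℝ) (m := D.n * D.pairSum j s fun a z =>
        inc v (path D.n (D.len ld) a z)) (n := D.den j s)
      have h7 : (D.delta ld j s v : ℝ) ≤ _ := Nat.cast_le.2 h5
      rw [Nat.cast_add, Nat.cast_one] at h7
      rw [Nat.cast_mul, mul_div_assoc] at h6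
      linarith
    have h5 : (D.lam ld v : ℝ) ≤ D.lam ls v * D.b v := by
      have := Nat.mul_le_mul (D.lam_mono (hl v hv)) (G.hb v hv).1
      rw [mul_one] at this
      exact_mod_cast this
    have h6 : (psi (psig D.h D.m * D.n * D.b v) (pcap D.n D.h D.m) (g1 ld v + D.delta ld j s v) : ℝ)
        ≤ psi (psig D.h D.m * D.n * D.b v) (pcap D.n D.h D.m) (g1 ld v) +
          2 * D.delta ld j s v * D.lam ld v := by exact_mod_cast h3
    have h7 := mul_le_mul_of_nonneg_right h4 (Nat.cast_nonneg (α := ℝ) (D.lam ld v))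
    nlinarith
  rw [FF, FF, xcost_add, xcost_flow, pairSum_dist, Lam]
  push_cast
  rw [sum_add_distrib, ← mul_sum, ← mul_sum] at h1
  simp only [← mul_div_assoc, ← sum_div] at h1
  rw [add_div, mul_add, mul_add]
  simp only [← mul_div_assoc]
  have : 2 * (D.n : ℝ) * (D.kap * (D.pairSum j s fun a z => wt D.c (path D.n (D.len ld) a z) : ℕ)) =
    2 * D.n * D.kap * (D.pairSum j s fun a z => wt D.c (path D.n (D.len ld) a z) : ℕ) := by ring
  rw [this]
  linarith

theorem xdeg_flow_le (ld : List ℕ) {j s : ℕ} (h : 0 < D.den j s) (v : ℕ) :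
    D.n * D.xdeg (D.flow ld j s) v ≤ D.delta ld j s v := by
  rw [xdeg_flow, ← mul_div_assoc, div_le_iff₀ (by exact_mod_cast h)]
  have h1 := pairSum_inc_le (D := D) ld j s v
  have h2 := Nat.lt_mul_div_succ (D.n * D.pairSum j s fun a z => inc v (path D.n (D.len ld) a z)) h
  have h3 := Nat.mul_le_mul_left D.n h1
  have : D.n * (D.pairSum j s fun a z => inc v (path D.n (D.len ld) a z)) ≤
      D.delta ld j s v * D.den j s := by
    unfold delta
    rcases min_choice (D.n * D.pairSum j s (fun a z => inc v (path D.n (D.len ld) a z)) /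
      D.den j s + 1) (2 * D.n + 1) with e | e <;> rw [e] <;> nlinarith
  exact_mod_cast this

theorem Good.decision (G : D.Good) {Tm st ld ls : List ℕ} (hl : ∀ v < D.n, g1 ld v ≤ g1 ls v)
    (M : D.Metric ls) {j s : ℕ} (hj : j < D.h) (hs : s < D.n)
    (h : ∀ v < D.n, D.ht s v ≤ j → g1 st v = j + 2) (x : ℕ → ℕ → ℝ) :
    (D.rule Tm st ld j s = true → D.Pot Tm ls j (D.setSt st j s (j + 1)) (D.addLd ld j s)
      (fun u w => x u w + D.flow ld j s u w) ≤
        D.Pot Tm ls j st ld x + D.A0 Tm * (D.T * (2 * D.Lam ls))) ∧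
    (D.rule Tm st ld j s = false → D.Pot Tm ls j (D.setSt st j s 0) ld x ≤ D.Pot Tm ls j st ld x) := by
  have hA : 0 ≤ D.A0 Tm := by unfold A0; positivity
  choose rest hQ using fun g => G.Qg_formulas hs g h
  have t0 : D.tot (D.Gt ls j) (D.setSt st j s 0) = D.tot (D.Gt ls j) st - D.rcs j s (D.al ls j) := by
    rw [tot_setSt _ _ h, rcs_zero (f := fun v => D.Gt ls j v 0) fun v => by simp [Gt]]
    simp [Gt]
  have t1 : D.tot (D.Gt ls j) (D.setSt st j s (j + 1)) =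
      D.tot (D.Gt ls j) st - D.rcs j s (D.al ls j) + D.rcs j s (D.be j) := by
    rw [tot_setSt _ _ h]
    simp [Gt]
  set V0 : ℝ := D.A0 Tm * (- D.rcs j s (D.al ls j)) +
    D.xi * D.T * (D.QQ Tm (D.setSt st j s 0) - D.QQ Tm st) with hV0
  set V1 : ℝ := D.A0 Tm * (D.T * (2 * D.n * ((D.pairSum j s (dist D.n (D.len ld)) : ℕ) /
    D.den j s)) + D.rcs j s (D.be j) - D.rcs j s (D.al ls j)) +
    D.xi * D.T * (D.QQ Tm (D.setSt st j s (j + 1)) - D.QQ Tm st) with hV1
  have p0 : D.Pot Tm ls j (D.setSt st j s 0) ld x = D.Pot Tm ls j st ld x + V0 := by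
    rw [Pot, Pot, t0, hV0]; ring
  have p1 : D.Pot Tm ls j (D.setSt st j s (j + 1)) (D.addLd ld j s)
      (fun u w => x u w + D.flow ld j s u w) ≤
        D.Pot Tm ls j st ld x + D.A0 Tm * (D.T * (2 * D.Lam ls)) + V1 := by
    have := mul_le_mul_of_nonneg_left (mul_le_mul_of_nonneg_left (G.FF_step hl j s x)
      (Nat.cast_nonneg (α := ℝ) D.T)) hA
    rw [Pot, Pot, t1, hV1]
    linarith
  cases hok : D.ok j s
  · refine ⟨fun hr => by simp [rule, hok] at hr, fun _ => ?_⟩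
    have h1 : D.QQ Tm (D.setSt st j s 0) = D.QQ Tm st := by
      refine sum_congr rfl fun g _ => ?_
      rw [(hQ g).1, (hQ g).2.1, G.cs_mu'_zero hs hok]
      simp
    have h2 : 0 ≤ D.rcs j s (D.al ls j) := by rw [G.rcs_al ls hs]; positivity
    rw [p0, hV0, h1]
    nlinarith
  obtain ⟨hw1, hw2⟩ := G.WW_pos hj hok
  have hw1' : (0 : ℝ) < D.WW j s := by exact_mod_cast hw1
  have hw2' : (0 : ℝ) < D.WW (j + 1) s := by exact_mod_cast hw2
  have hden : (D.den j s : ℝ) = D.WW j s * D.WW (j + 1) s := by rw [den]; push_cast; rfl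
  have hden' : (0 : ℝ) < D.den j s := by rw [hden]; positivity
  have hRP : (1 : ℝ) ≤ D.RR (j + 1) s := by exact_mod_cast RR_pos _ _
  have hRS : (D.RR (j + 1) s : ℝ) ≤ D.RR j s := by exact_mod_cast RR_succ_le _ _
  have k1 : (D.RR j s - D.RR (j + 1) s) * (D.QQ Tm (D.setSt st j s 0) - D.QQ Tm st) +
      D.RR (j + 1) s * (D.QQ Tm (D.setSt st j s (j + 1)) - D.QQ Tm st) ≤ 0 := by
    simp only [QQ, ← sum_sub_distrib, mul_sum, ← sum_add_distrib]
    refine sum_nonpos fun g hg => ?_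
    split_ifs
    · rw [(hQ g).1, (hQ g).2.1, (hQ g).2.2]
      refine q_alg _ _ _ _ _ _ _ _ ?_ (by positivity) (by positivity) (by positivity)
      exact_mod_cast G.zeta_le hs (mem_range.1 hg) hok
    · simp
  have k2 : D.RR (j + 1) s * (D.T * (2 * D.n * ((D.pairSum j s (dist D.n (D.len ld)) : ℕ) /
      D.den j s)) + D.rcs j s (D.be j)) ≤ D.RR j s * D.rcs j s (D.al ls j) := by
    rw [G.rcs_al ls hs, G.rcs_be hs]
    have h1 : (D.T : ℝ) * ((D.pairSum j s (dist D.n (D.len ld)) : ℕ) / D.den j s) ≤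
        D.RR j s * (pC D.h D.m * D.cs j s (D.vol ls) +
        (D.cs j s fun a => D.wj (j + 1) a * D.spread ls (j + 1) a : ℕ) / D.WW (j + 1) s) := by
      have h2 : ((D.T * D.pairSum j s (dist D.n (D.len ld)) : ℕ) : ℝ) ≤ _ :=
        Nat.cast_le.2 (G.length_bound hl M hj hs hok)
      push_cast at h2
      rw [← mul_div_assoc, div_le_iff₀ hden']
      refine h2.trans (le_of_eq ?_)
      rw [hden]
      field_simp
    have h2 := mul_le_mul_of_nonneg_left h1
      (show (0 : ℝ) ≤ 2 * D.n * D.RR (j + 1) s by positivity)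
    nlinarith
  have k3 : (D.RR j s - D.RR (j + 1) s) * V0 + D.RR (j + 1) s * V1 ≤ 0 := by
    have h1 := mul_le_mul_of_nonneg_left k2 hA
    have h2 := mul_le_mul_of_nonneg_left k1 (show (0 : ℝ) ≤ D.xi * D.T by positivity)
    rw [hV0, hV1]
    nlinarith
  have k4 : D.rule Tm st ld j s = true ↔ V1 < V0 := by
    have h1 : D.QQ Tm (D.setSt st j s (j + 1)) - D.QQ Tm (D.setSt st j s 0) =
        (D.usum Tm fun g => D.zeta j s g * (D.zeta j s g + pc0 D.h * D.T * j +
          2 * D.Zp st j s g) : ℕ) - 2 * D.JJ * D.usum Tm (D.zeta j s) := by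
      rw [usum_cast, usum_cast, QQ, QQ, mul_sum, ← sum_sub_distrib, ← sum_sub_distrib]
      refine sum_congr rfl fun g _ => ?_
      split_ifs
      · rw [(hQ g).2.1, (hQ g).2.2, zeta]
        push_cast; ring
      · simp
    have h2 : (V1 - V0) * D.den j s = (D.usum Tm (fun _ => 1) * D.JJ ^ 2 *
        (2 * D.n * D.T * D.pairSum j s (dist D.n (D.len ld)) +
          4 * D.n * pC D.h D.m * D.kap * j * D.RR j s * D.cs j s D.cX * D.den j s) +
        D.xi * D.T * D.den j s * D.usum Tm (fun g =>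
          D.zeta j s g * (D.zeta j s g + pc0 D.h * D.T * j + 2 * D.Zp st j s g)) : ℕ) -
        (D.xi * D.T * D.den j s * (2 * D.JJ) * D.usum Tm (D.zeta j s) : ℕ) := by
      have h3 : V1 - V0 = D.A0 Tm * (D.T * (2 * D.n * ((D.pairSum j s (dist D.n (D.len ld)) : ℕ) /
          D.den j s)) + D.rcs j s (D.be j)) + D.xi * D.T *
          (D.QQ Tm (D.setSt st j s (j + 1)) - D.QQ Tm (D.setSt st j s 0)) := by
        rw [hV0, hV1]; ring
      rw [h3, h1, G.rcs_be hs, A0]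
      push_cast
      field_simp
      ring
    simp only [rule, hok, Bool.true_and, decide_eq_true_eq]
    rw [← Nat.cast_lt (α := ℝ), ← sub_neg, ← h2, ← sub_neg (a := V1)]
    exact ⟨fun h => neg_of_mul_neg_left h hden'.le, fun h => mul_neg_of_neg_of_pos h hden'⟩
  refine ⟨fun hr => ?_, fun hr => ?_⟩
  · have h1 := k4.1 hr
    have : V1 ≤ 0 := by
      by_contra hc
      push Not at hc
      nlinarith
    linarith
  · have h1 : V0 ≤ V1 := by
      by_contra hc
      rw [k4.2 (not_le.1 hc)] at hr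
      exact absurd hr (by simp)
    have : V0 ≤ 0 := by
      by_contra hc
      push Not at hc
      nlinarith
    linarith

end Ctx

end Pool.Agent.Lib.MP_fec922_lc
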