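import Pool.Agent.Lib.MP_fec922_lc.Hier

/-!
Search for a sparse cut in a cluster and improvement of the hierarchy.
-/

namespace Pool.Agent.Lib.MP_fec922_lc

open Pool.Agent.Shared.PolyTime Finset

attribute [local fun_prop] PB.comp

variable {α β : Type} [N487b59b3 α] [N487b59b3 β]

namespace Ctx

variable (D : Ctx)

def tau (ld : List ℕ) (j s : ℕ) : ℕ := 16 * pK D.h * D.cs j s (D.vol ld) / D.WW j s + 1

def cutsAt (ld : List ℕ) (j s : ℕ) : List (List ℕ) :=
  cands D.n (D.wj j) (dist D.n (D.len ld)) (D.tau ld j s) D.m (D.clu j s)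

def cuts (ld : List ℕ) : List (ℕ × ℕ × List ℕ) :=
  (List.range D.h).flatMap fun i => (List.range D.n).flatMap fun s =>
    (D.cutsAt ld (i + 1) s).map fun U => (i + 1, s, U)

def isSparse (j s : ℕ) (U : List ℕ) : Bool := sparse D.n D.X (D.wj j) (pK D.h) (D.clu j s) U

def findCut (ld : List ℕ) : Option (ℕ × ℕ × List ℕ) :=
  (D.cuts ld).find? fun x => D.isSparse x.1 x.2.1 x.2.2

def compl (j s : ℕ) (U : List ℕ) : List ℕ := (D.clu j s).filter fun v => !decide (v ∈ U)

def side (j s : ℕ) (U : List ℕ) : List ℕ :=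
  if j = D.h then (if D.r ∈ U then D.compl j s U else U) else
    (if 2 * wS D.n (fun _ => 1) U ≤ D.cs j s (fun _ => 1) then U else D.compl j s U)

def outA (j s : ℕ) (A : List ℕ) : ℕ :=
  sm D.n fun u => sm D.n fun v => if u ∈ A then (if j < D.ht s v then D.X u v else 0) else 0

def mv (j s : ℕ) (A : List ℕ) : Bool :=
  decide (2 * (D.h + 1) ^ 2 * cutv D.n D.X (D.clu j s) A < D.outA j s A)

def refine (j s : ℕ) (A : List ℕ) : List (List ℕ) :=
  tab2 D.n fun u v => min (newHt D.ht j s A (D.mv j s A) u v) D.h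

def hmove (ld : List ℕ) (t : List (List ℕ)) : List (List ℕ) :=
  (D.findCut ld).elim t fun x => D.refine x.1 x.2.1 (D.side x.1 x.2.1 x.2.2)

end Ctx

section
variable {D : α → Ctx} {j s u v : α → ℕ} {ld U : α → List ℕ}

@[fun_prop] theorem tau_pt (hD : CPT D) (hl : PT ld) (hj : PT j) (hs : PT s) :
    PT (fun a => (D a).tau (ld a) (j a) (s a)) := by
  unfold Ctx.tau; fun_prop
@[fun_prop] theorem cutsAt_pt (hD : CPT D) (hl : PT ld) (hj : PT j) (hs : PT s) :
    PT (fun a => (D a).cutsAt (ld a) (j a) (s a)) := by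
  unfold Ctx.cutsAt; fun_prop
@[fun_prop] theorem cuts_pt (hD : CPT D) (hl : PT ld) : PT (fun a => (D a).cuts (ld a)) := by
  unfold Ctx.cuts; fun_prop
@[fun_prop] theorem isSparse_pt (hD : CPT D) (hj : PT j) (hs : PT s) (hU : PT U) :
    PT (fun a => (D a).isSparse (j a) (s a) (U a)) := by
  unfold Ctx.isSparse; fun_prop
@[fun_prop] theorem findCut_pt (hD : CPT D) (hl : PT ld) : PT (fun a => (D a).findCut (ld a)) := by
  unfold Ctx.findCut; fun_prop
@[fun_prop] theorem compl_pt (hD : CPT D) (hj : PT j) (hs : PT s) (hU : PT U) :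
    PT (fun a => (D a).compl (j a) (s a) (U a)) := by
  unfold Ctx.compl; fun_prop
@[fun_prop] theorem side_pt (hD : CPT D) (hj : PT j) (hs : PT s) (hU : PT U) :
    PT (fun a => (D a).side (j a) (s a) (U a)) := by
  unfold Ctx.side; fun_prop
@[fun_prop] theorem outA_pt (hD : CPT D) (hj : PT j) (hs : PT s) (hU : PT U) :
    PT (fun a => (D a).outA (j a) (s a) (U a)) := by
  unfold Ctx.outA; fun_prop
@[fun_prop] theorem mv_pt (hD : CPT D) (hj : PT j) (hs : PT s) (hU : PT U) :
    PT (fun a => (D a).mv (j a) (s a) (U a)) := by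
  unfold Ctx.mv; fun_prop
@[fun_prop] theorem refine_pt (hD : CPT D) (hj : PT j) (hs : PT s) (hU : PT U) :
    PT (fun a => (D a).refine (j a) (s a) (U a)) := by
  unfold Ctx.refine newHt across; fun_prop
@[fun_prop] theorem hmove_pt {t : α → List (List ℕ)} (hD : CPT D) (hl : PT ld) (ht : PT t) :
    PT (fun a => (D a).hmove (ld a) (t a)) := by
  unfold Ctx.hmove; fun_prop

end

namespace Ctx

variable (D : Ctx)

theorem sz_refine (j s : ℕ) (A : List ℕ) :
    sz (D.refine j s A) ≤ D.n * (2 * (D.n * (2 * D.h + 1)) + 1) :=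
  sz_tab2_le fun _ _ _ _ => min_le_right _ _

theorem refine_spec (H : HInv D.n D.h D.r D.ht) (hr : D.r < D.n)
    (hX : ∀ u < D.n, ∀ v < D.n, D.X u v = D.X v u) {j s : ℕ} {A : List ℕ} (hj : 1 ≤ j)
    (hjh : j ≤ D.h) (hs : s < D.n) (hA : ∀ v ∈ A, D.ht s v ≤ j) (hrA : j = D.h → D.r ∉ A)
    (hsz : (∑ v ∈ range D.n, if v ∈ A then 1 else 0) ≤ 2 ^ (j - 1))
    (hsz2 : j < D.h → 2 * (∑ v ∈ range D.n, if v ∈ A then 1 else 0) ≤ csz D.n D.ht j s)
    (hsp : pK D.h * cutv D.n D.X (D.clu j s) A < wS D.n (D.wj j) A) :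
    HInv D.n D.h D.r (g2 (D.refine j s A)) ∧
      Phi D.n D.h D.X (g2 (D.refine j s A)) < Phi D.n D.h D.X D.ht := by
  have ec : cutv D.n D.X (D.clu j s) A = ∑ u ∈ range D.n, ∑ v ∈ range D.n,
      if u ∈ A ∧ v ∉ A ∧ D.ht s v ≤ j then D.X u v else 0 := by
    rw [cutv_eq]
    refine sum_congr rfl fun u _ => sum_congr rfl fun v hv => if_congr ?_ rfl rfl
    simp only [mem_clu, mem_range.1 hv, true_and]
    tauto
  have eo : D.outA j s A = ∑ u ∈ range D.n, ∑ v ∈ range D.n,
      if u ∈ A ∧ j < D.ht s v then D.X u v else 0 := by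
    unfold outA
    simp only [sm_eq, ite_and]
  have key : ∀ b : Bool, D.mv j s A = b → HInv D.n D.h D.r (newHt D.ht j s A b) →
      Phi D.n D.h D.X (newHt D.ht j s A b) < Phi D.n D.h D.X D.ht →
      HInv D.n D.h D.r (g2 (D.refine j s A)) ∧
        Phi D.n D.h D.X (g2 (D.refine j s A)) < Phi D.n D.h D.X D.ht := by
    intro b hb H' hlt
    have e : ∀ u < D.n, ∀ v < D.n, g2 (D.refine j s A) u v = newHt D.ht j s A b u v := by
      intro u hu v hv
      rw [refine, g2_tab2 _ hu hv, hb, min_eq_left (H'.le u hu v hv)]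
    exact ⟨H'.congr hr e, by rwa [Phi_congr _ _ e]⟩
  cases hmv : D.mv j s A
  · refine key _ hmv (move2_inv H hr hs hj hjh hA hrA hsz) ?_
    have h1 := move2_phi H hr hs hj hjh hA hrA hsz hX
    have h2 : wS D.n (D.wj j) A ≤ D.outA j s A + cutv D.n D.X (D.clu j s) A +
        ∑ u ∈ range D.n, ∑ v ∈ range D.n,
          if u ∈ A ∧ v ∈ A ∧ D.ht u v = j then D.X u v else 0 := by
      rw [ec, eo, wS_eq]
      simp only [← sum_add_distrib]
      refine sum_le_sum fun u hu => ?_
      by_cases hu' : u ∈ A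
      · rw [if_pos hu', wj_eq]
        refine sum_le_sum fun v hv => ?_
        have h3 := H.facts hs (mem_range.1 hu) (mem_range.1 hv)
        have h4 := hA u hu'
        have h5 := hA v
        by_cases hv' : v ∈ A <;> simp only [hu', hv', true_and, not_true, not_false_iff, false_and,
          if_false, forall_true_left, false_imp_iff] at h5 ⊢ <;> split_ifs <;> omega
      · simp [hu']
    simp only [mv, decide_eq_false_iff_not, not_lt] at hmv
    rw [← ec, ← eo] at h1
    unfold pK at hsp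
    generalize cutv D.n D.X (D.clu j s) A = c at *
    generalize D.outA j s A = o at *
    have h3 := Nat.mul_le_mul_left D.h hmv
    generalize D.h = h at *
    have h4 : h * ((h + 1) * (2 * c)) + h * (2 * (h + 1) ^ 2 * c) + 2 * (h + 1) ^ 2 * c + c ≤
        7 * (h + 1) ^ 3 * c := by
      have : h * ((h + 1) * 2) + h * (2 * (h + 1) ^ 2) + 2 * (h + 1) ^ 2 + 1 ≤ 7 * (h + 1) ^ 3 := by
        ring_nf; omega
      calc _ = (h * ((h + 1) * 2) + h * (2 * (h + 1) ^ 2) + 2 * (h + 1) ^ 2 + 1) * c := by ring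
        _ ≤ _ := Nat.mul_le_mul_right _ this
    omega
  · simp only [mv, decide_eq_true_eq] at hmv
    have hjh' : j < D.h := by
      by_contra hc
      have : D.outA j s A = 0 := by
        rw [eo]
        refine sum_eq_zero fun u _ => sum_eq_zero fun v hv => if_neg ?_
        have := H.le s hs v (mem_range.1 hv)
        omega
      omega
    refine key true (by simpa [mv] using hmv) (move1_inv H hr hs hjh' hA) ?_
    have h1 := move1_phi H hr hs hjh' hA hX (hsz2 hjh')
    rw [← ec, ← eo] at h1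
    have h4 : D.h * ((D.h + 1) * (2 * cutv D.n D.X (D.clu j s) A)) ≤
        2 * (D.h + 1) ^ 2 * cutv D.n D.X (D.clu j s) A := by nlinarith
    omega

theorem hmove_spec (H : HInv D.n D.h D.r D.ht) (hr : D.r < D.n) (hn : D.n ≤ 2 ^ (D.h - 1))
    (hX : ∀ u < D.n, ∀ v < D.n, D.X u v = D.X v u) (ld : List ℕ) (t : List (List ℕ))
    (hc : D.findCut ld ≠ none) :
    HInv D.n D.h D.r (g2 (D.hmove ld t)) ∧
      Phi D.n D.h D.X (g2 (D.hmove ld t)) < Phi D.n D.h D.X D.ht := by
  obtain ⟨⟨j, s, U⟩, hx⟩ := Option.ne_none_iff_exists'.1 hc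
  unfold hmove
  rw [hx]
  simp only [Option.elim]
  have h1 := List.mem_of_find?_eq_some hx
  have h2 : D.isSparse j s U = true := by simpa using List.find?_some hx
  simp only [cuts, List.mem_flatMap, List.mem_range, List.mem_map, Prod.mk.injEq] at h1
  obtain ⟨i, hi, s', hs, U', hU, rfl, rfl, rfl⟩ := h1
  have hU' : ∀ v ∈ U', v < D.n ∧ D.ht s' v ≤ i + 1 := fun v hv => D.mem_clu.1 (mem_cands hU v hv)
  have hcm : ∀ v, v ∈ D.compl (i + 1) s' U' ↔ (v < D.n ∧ D.ht s' v ≤ i + 1) ∧ v ∉ U' := by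
    intro v; simp [compl, mem_clu]
  have hsum : ∀ f : ℕ → ℕ, wS D.n f U' + wS D.n f (D.compl (i + 1) s' U') = D.cs (i + 1) s' f := by
    intro f
    rw [wS_eq, wS_eq, cs_eq, ← sum_add_distrib]
    refine sum_congr rfl fun v hv => ?_
    have := hU' v
    by_cases h : v ∈ U' <;> simp [hcm, h, mem_range.1 hv]
    intro h'
    have := (this h).2
    omega
  have hcut : cutv D.n D.X (D.clu (i + 1) s') (D.compl (i + 1) s' U') =
      cutv D.n D.X (D.clu (i + 1) s') U' := by
    rw [cutv_eq, cutv_eq, sum_comm]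
    refine sum_congr rfl fun u hu => sum_congr rfl fun v hv => ?_
    rw [hX v (mem_range.1 hv) u (mem_range.1 hu)]
    refine if_congr ?_ rfl rfl
    have := hU' u
    simp only [hcm, mem_clu, mem_range.1 hu, mem_range.1 hv, true_and] at this ⊢
    tauto
  simp only [isSparse, sparse, decide_eq_true_eq, wS_clu] at h2
  have h3 := hsum (D.wj (i + 1))
  have h4 := hsum fun _ => 1
  have h5 : D.cs (i + 1) s' (fun _ => 1) = csz D.n D.ht (i + 1) s' := D.cs_eq _ _ _
  have h6 : ∀ A : List ℕ, (∑ v ∈ range D.n, if v ∈ A then 1 else 0) = wS D.n (fun _ => 1) A :=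
    fun A => (wS_eq _ _ _).symm
  have h7 : ∀ A : List ℕ, wS D.n (fun _ => 1) A ≤ D.n := fun A => by
    rw [wS_eq]
    exact (sum_le_card_nsmul _ _ 1 fun v _ => by split_ifs <;> omega).trans (by simp)
  have h8 : i + 1 < D.h → csz D.n D.ht (i + 1) s' ≤ 2 * 2 ^ i := fun h => by
    rw [← pow_succ']; exact H.size s' hs _ h
  unfold side
  split_ifs with a1 a2 a3
  · refine D.refine_spec H hr hX (by omega) (by omega) hs (fun v hv => ((hcm v).1 hv).1.2)
      (fun _ h => ((hcm _).1 h).2 a2) ?_ (by omega) (by rw [hcut]; omega)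
    rw [h6, a1]; exact (h7 _).trans hn
  · refine D.refine_spec H hr hX (by omega) (by omega) hs (fun v hv => (hU' v hv).2)
      (fun _ => a2) ?_ (by omega) (by omega)
    rw [h6, a1]; exact (h7 _).trans hn
  · refine D.refine_spec H hr hX (by omega) (by omega) hs (fun v hv => (hU' v hv).2)
      (fun h => absurd h a1) ?_ (fun _ => by rw [h6]; omega) (by omega)
    have := h8 (by omega)
    rw [h6, Nat.add_sub_cancel]; omega
  · refine D.refine_spec H hr hX (by omega) (by omega) hs (fun v hv => ((hcm v).1 hv).1.2)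
      (fun h => absurd h a1) ?_ (fun _ => by rw [h6]; omega) (by rw [hcut]; omega)
    have := h8 (by omega)
    rw [h6, Nat.add_sub_cancel]; omega

theorem len_symm (hc : ∀ u < D.n, ∀ v < D.n, D.c u v = D.c v u) (ld : List ℕ) :
    ∀ u < D.n, ∀ v < D.n, D.len ld u v = D.len ld v u := by
  intro u hu v hv
  unfold len
  rw [hc u hu v hv]; omega

theorem lam_pos (ld : List ℕ) (v : ℕ) : 1 ≤ D.lam ld v := ew_pos _ _ _

theorem wj_le_dX (j u : ℕ) : D.wj j u ≤ D.dX u := by
  rw [wj_eq, dX, sm_eq]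
  exact sum_le_sum fun v _ => by split_ifs <;> omega

/-- The average distance of two random points of a cluster is small. -/
def Metric (ld : List ℕ) : Prop :=
  ∀ j ≤ D.h, ∀ s < D.n, ∑ a ∈ range D.n, ∑ z ∈ range D.n,
    (if D.ht s a ≤ j ∧ D.ht s z ≤ j then D.wj j a * D.wj j z * dist D.n (D.len ld) a z else 0) ≤
      pC D.h D.m * D.WW j s * D.cs j s (D.vol ld)

theorem metric (H : HInv D.n D.h D.r D.ht) (hh : 0 < D.h)
    (hX : ∀ u < D.n, ∀ v < D.n, D.X u v = D.X v u) (hc : ∀ u < D.n, ∀ v < D.n, D.c u v = D.c v u)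
    (hm : ∑ u ∈ range D.n, D.dX u < 2 ^ D.m) (ld : List ℕ) (hf : D.findCut ld = none) :
    D.Metric ld := by
  intro j hj s hs
  rcases Nat.eq_zero_or_pos j with rfl | hj0
  · rw [sum_eq_zero]
    · exact Nat.zero_le _
    · intro a ha
      refine sum_eq_zero fun z hz => ?_
      split_ifs with h
      · rw [← H.eq_of_zero hh hs (mem_range.1 ha) h.1, ← H.eq_of_zero hh hs (mem_range.1 hz) h.2,
          dist_self _ hs, mul_zero]
      · rfl
  have hP : ∀ v ∈ D.clu j s, v < D.n := fun v hv => (D.mem_clu.1 hv).1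
  have := metric_of_no_cut D.n D.X (dist D.n (D.len ld)) (D.len ld) (D.wj j) (pK D.h)
    (D.cs j s (D.vol ld)) D.m (D.clu j s) hP
    ((List.length_filter_le _ _).trans (by simp)) ?_ ?_ ?_ (fun a ha => dist_self _ (hP a ha))
    (fun a ha b hb c hc => dist_triangle _ (hP a ha) (hP b hb) (hP c hc))
    (fun a ha b hb => dist_symm (D.len_symm hc ld) (hP a ha) (hP b hb))
    (fun a ha b hb => dist_le_len _ (hP a ha) (hP b hb)) ?_ ?_
  · rw [wS_clu] at this
    refine le_trans (le_of_eq ?_) this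
    refine sum_congr rfl fun a ha => sum_congr rfl fun z hz => if_congr ?_ rfl rfl
    simp [mem_clu, mem_range.1 ha, mem_range.1 hz]
  · refine lt_of_le_of_lt ?_ hm
    rw [wS_eq]
    refine sum_le_sum fun v _ => ?_
    have := D.wj_le_dX j v
    split_ifs <;> omega
  · unfold pK
    have : 0 < (D.h + 1) ^ 3 := by positivity
    omega
  · rw [wS_clu, cs_eq, cs_eq]
    refine sum_le_sum fun v _ => ?_
    have h1 := D.wj_le_dX j v
    have h2 := Nat.mul_le_mul_right (D.dX v) (D.lam_pos ld v)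
    split_ifs
    · unfold vol; nlinarith
    · rfl
  · rw [cs_eq]
    calc _ ≤ ∑ u ∈ range D.n, ∑ v ∈ range D.n,
          ((if D.ht s u ≤ j then D.X u v * (D.kap * D.c u v + D.lam ld u) else 0) +
          (if D.ht s v ≤ j then D.X v u * D.lam ld v else 0)) := by
          refine sum_le_sum fun u hu => sum_le_sum fun v hv => ?_
          rw [hX v (mem_range.1 hv) u (mem_range.1 hu)]
          split_ifs with a1 a2 a3 <;> simp only [mem_clu] at a1 <;>
            first | omega | (unfold len; exact le_of_eq (by ring))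
      _ = _ := by
          simp only [sum_add_distrib]
          rw [sum_comm (f := fun u v => if D.ht s v ≤ j then D.X v u * D.lam ld v else 0),
            ← sum_add_distrib]
          refine sum_congr rfl fun u _ => ?_
          split_ifs
          · unfold vol cX dX
            simp only [sm_eq, mul_sum, ← sum_add_distrib]
            exact sum_congr rfl fun v _ => by ring
          · simp
  · intro U hU
    unfold findCut at hf
    rw [List.find?_eq_none] at hf
    have := hf (j, s, U) (by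
      simp only [cuts, List.mem_flatMap, List.mem_range, List.mem_map, Prod.mk.injEq]
      refine ⟨j - 1, by omega, s, hs, U, ?_, by omega, rfl, rfl⟩
      rw [Nat.sub_add_cancel hj0]
      rw [wS_clu] at hU
      exact hU)
    simpa [isSparse] using this

end Ctx

end Pool.Agent.Lib.MP_fec922_lc
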