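import Pool.Agent.Lib.MP_fec922_lc.Pot

/-!
Analysis of the levels and rounds of the terminal selection.
-/

namespace Pool.Agent.Lib.MP_fec922_lc

open Finset

namespace Ctx

variable (D : Ctx)

structure XInv (Tm ld : List ℕ) (x : ℕ → ℕ → ℝ) : Prop where
  pos : ∀ u w, 0 ≤ x u w
  deg : ∀ v < D.n, D.n * D.xdeg x v ≤ g1 ld v
  term : ∀ t ∈ Tm, t < D.n ∧ ∀ f, |f t - D.avg D.h 0 f| ≤ D.NN x f

structure SInv (j : ℕ) (st : List ℕ) (x : ℕ → ℕ → ℝ) : Prop where
  const : ∀ u < D.n, ∀ v < D.n, D.ht u v ≤ j → g1 st u = g1 st v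
  vals : ∀ v < D.n, g1 st v = 0 ∨ g1 st v = j + 1 ∨ g1 st v = j + 2
  alive : ∀ v < D.n, g1 st v ≠ 0 → D.ok (g1 st v - 1) v = true ∧
    ∀ f, |D.avg (g1 st v - 1) v f - D.avg D.h 0 f| ≤ D.NN x f

noncomputable def Gb (j v e : ℕ) : ℝ := if e = j + 1 then D.be j v else 0

noncomputable def Pot' (Tm : List ℕ) (j : ℕ) (st ld : List ℕ) (x : ℕ → ℕ → ℝ) : ℝ :=
  D.A0 Tm * (D.T * D.FF ld x + D.tot (D.Gb j) st) + D.xi * D.T * D.QQ Tm st

variable {D}

theorem aStep_ld (Tm : List ℕ) (j : ℕ) (p : List ℕ × List ℕ) (s : ℕ) :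
    ∀ v < D.n, g1 p.2 v ≤ g1 (D.aStep Tm j p s).2 v := by
  intro v hv
  unfold aStep
  split_ifs
  · cases D.rule Tm p.1 p.2 j s
    · exact le_rfl
    · simp [g1_addLd _ _ _ hv]
  · exact le_rfl

theorem foldl_ld {γ : Type} (f : List ℕ × List ℕ → γ → List ℕ × List ℕ)
    (hf : ∀ p s, ∀ v < D.n, g1 p.2 v ≤ g1 (f p s).2 v) (l : List γ) (p : List ℕ × List ℕ) :
    ∀ v < D.n, g1 p.2 v ≤ g1 (l.foldl f p).2 v := by
  induction l generalizing p with
  | nil => exact fun _ _ => le_rfl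
  | cons s l ih => exact fun v hv => (hf p s v hv).trans (ih _ v hv)

theorem aLevel_ld (Tm : List ℕ) (p : List ℕ × List ℕ) (j : ℕ) :
    ∀ v < D.n, g1 p.2 v ≤ g1 (D.aLevel Tm p j).2 v := foldl_ld _ (aStep_ld Tm j) _ _

theorem aRound_ld (q : List ℕ × List ℕ) : ∀ v < D.n, g1 q.2 v ≤ g1 (D.aRound q).2 v := by
  unfold aRound
  split_ifs
  · exact fun _ _ => le_rfl
  · exact foldl_ld (D := D) _ (aLevel_ld q.1) _ (tab D.n fun _ => D.h + 1, q.2)

theorem Good.setSt_const (G : D.Good) {j s : ℕ} (hs : s < D.n) {st : List ℕ}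
    (h : ∀ u < D.n, ∀ v < D.n, D.ht u v ≤ j → g1 st u = g1 st v) (e : ℕ) :
    ∀ u < D.n, ∀ v < D.n, D.ht u v ≤ j → g1 (D.setSt st j s e) u = g1 (D.setSt st j s e) v := by
  intro u hu v hv huv
  have := G.H.facts hs hu hv
  rw [g1_setSt _ _ _ _ hu, g1_setSt _ _ _ _ hv, h u hu v hv huv]
  exact if_congr (by omega) rfl rfl

theorem Good.step (G : D.Good) {Tm ls : List ℕ} (M : D.Metric ls) {j s : ℕ} (hj : j < D.h)
    (hs : s < D.n) (p : List ℕ × List ℕ) (x : ℕ → ℕ → ℝ) (XI : D.XInv Tm p.2 x)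
    (SI : D.SInv j p.1 x) (hl : ∀ v < D.n, g1 p.2 v ≤ g1 ls v) :
    ∃ x', D.XInv Tm (D.aStep Tm j p s).2 x' ∧ D.SInv j (D.aStep Tm j p s).1 x' ∧
      D.FF p.2 x ≤ D.FF (D.aStep Tm j p s).2 x' ∧
      D.Pot Tm ls j (D.aStep Tm j p s).1 (D.aStep Tm j p s).2 x' ≤
        D.Pot Tm ls j p.1 p.2 x + D.A0 Tm * (D.T * (2 * D.Lam ls)) ∧
      ∀ v < D.n, v = s ∨ g1 p.1 v ≠ j + 2 → g1 (D.aStep Tm j p s).1 v ≠ j + 2 := by
  have hA : 0 ≤ D.A0 Tm * (D.T * (2 * D.Lam ls)) := by unfold A0; positivity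
  unfold aStep
  split_ifs with h0
  swap
  · refine ⟨x, XI, SI, le_rfl, by linarith, fun v _ hv => ?_⟩
    rcases hv with rfl | hv
    · exact h0
    · exact hv
  have h : ∀ v < D.n, D.ht s v ≤ j → g1 p.1 v = j + 2 := fun v hv h => by
    rw [← SI.const s hs v hv h, h0]
  have hdec := G.decision (Tm := Tm) hl M hj hs h x
  have hlast : ∀ e, e ≠ j + 2 → ∀ v < D.n, v = s ∨ g1 p.1 v ≠ j + 2 →
      g1 (D.setSt p.1 j s e) v ≠ j + 2 := by
    intro e he v hv h1
    rw [g1_setSt _ _ _ _ hv]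
    split_ifs with h2
    · exact he
    · rcases h1 with rfl | h1
      · exact absurd (by rw [G.H.self v hv]; omega) h2
      · exact h1
  cases hr : D.rule Tm p.1 p.2 j s
  · refine ⟨x, XI, ⟨G.setSt_const hs SI.const 0, fun v hv => ?_, fun v hv => ?_⟩, le_rfl,
      (hdec.2 hr).trans (by linarith), hlast 0 (by omega)⟩
    · simp only [cond, g1_setSt _ _ _ _ hv]
      split_ifs
      · exact Or.inl rfl
      · exact SI.vals v hv
    · simp only [cond, g1_setSt _ _ _ _ hv]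
      split_ifs
      · exact fun h => absurd rfl h
      · exact SI.alive v hv
  · have hok : D.ok j s = true := by
      simp only [rule, Bool.and_eq_true] at hr; exact hr.1
    obtain ⟨hw1, hw2⟩ := G.WW_pos hj hok
    have hN : ∀ f, D.NN x f ≤ D.NN (fun u w => x u w + D.flow p.2 j s u w) f := fun f => by
      rw [NN_add]
      have := NN_nonneg (D := D) (flow_nonneg (D := D) p.2 j s) f
      linarith
    refine ⟨fun u w => x u w + D.flow p.2 j s u w, ⟨fun u w =>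
      add_nonneg (XI.pos u w) (flow_nonneg _ _ _ _ _), fun v hv => ?_, fun t ht =>
      ⟨(XI.term t ht).1, fun f => ((XI.term t ht).2 f).trans (hN f)⟩⟩,
      ⟨G.setSt_const hs SI.const _, fun v hv => ?_, fun v hv => ?_⟩, ?_, hdec.1 hr,
      hlast _ (by omega)⟩
    · simp only [cond, g1_addLd _ _ _ hv]
      rw [xdeg_add, mul_add]
      push_cast
      exact add_le_add (XI.deg v hv) (xdeg_flow_le _ (Nat.mul_pos hw1 hw2) v)
    · simp only [cond, g1_setSt _ _ _ _ hv]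
      split_ifs
      · exact Or.inr (Or.inl rfl)
      · exact SI.vals v hv
    · simp only [cond, g1_setSt _ _ _ _ hv]
      split_ifs with h1
      · intro _
        rw [Nat.add_sub_cancel, G.ok_congr hs hv h1]
        refine ⟨hok, fun f => ?_⟩
        rw [G.avg_congr hs hv h1, NN_add]
        have h2 := (SI.alive s hs (by omega)).2 f
        rw [h0] at h2
        have h3 := avg_flow p.2 hw1 hw2 f
        have h4 := abs_sub_le (D.avg j s f) (D.avg (j + 1) s f) (D.avg D.h 0 f)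
        change |D.avg (j + 1) s f - _| ≤ _ at h2
        linarith
      · exact fun h2 => ⟨(SI.alive v hv h2).1, fun f => ((SI.alive v hv h2).2 f).trans (hN f)⟩
    · simp only [cond, FF]
      rw [xcost_add]
      have h1 : D.Psi p.2 ≤ D.Psi (D.addLd p.2 j s) := sum_le_sum fun v hv =>
        psi_mono _ _ (by rw [g1_addLd _ _ _ (mem_range.1 hv)]; omega)
      have h2 : (D.Psi p.2 : ℝ) ≤ D.Psi (D.addLd p.2 j s) := by exact_mod_cast h1
      have h3 := xcost_nonneg (D := D) (flow_nonneg (D := D) p.2 j s)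
      have h4 : 0 ≤ 2 * (D.n : ℝ) * D.kap * D.xcost (D.flow p.2 j s) := by positivity
      linarith

theorem Good.level_start (G : D.Good) {ls : List ℕ} (M : D.Metric ls) {j : ℕ} (hj : j < D.h)
    {st : List ℕ} {x : ℕ → ℕ → ℝ} (SI : D.SInv (j + 1) st x) (h : ∀ v < D.n, g1 st v ≠ j + 3) :
    D.tot (D.Gt ls j) st ≤ D.tot (D.Gb (j + 1)) st +
      D.T * (24 * D.n * pC D.h D.m * pc0 D.h * D.Lam ls) := by
  have h1 := sum_nonpos_of_classes D.n (fun a b => D.ht a b ≤ j + 1)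
    (fun a ha => by rw [G.H.self a ha]; omega) (fun a ha b hb h => by rwa [G.H.symm b hb a ha])
    (fun a ha b hb c hc h1 h2 => (G.H.ultra a ha b hb c hc).trans (max_le h1 h2))
    (fun a => if g1 st a = j + 2 then (D.RR (j + 1) a : ℝ) *
      (D.wj (j + 1) a * D.spread ls (j + 1) a / D.WW (j + 1) a - pC D.h D.m * D.vol ls a) else 0)
    (fun s hs => by
      by_cases h0 : g1 st s = j + 2
      · have e : ∑ a ∈ range D.n, (if D.ht s a ≤ j + 1 then (if g1 st a = j + 2 then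
            (D.RR (j + 1) a : ℝ) * (D.wj (j + 1) a * D.spread ls (j + 1) a / D.WW (j + 1) a -
            pC D.h D.m * D.vol ls a) else 0) else 0) = D.RR (j + 1) s *
            ((∑ a ∈ range D.n, ∑ z ∈ range D.n, if D.ht s a ≤ j + 1 ∧ D.ht s z ≤ j + 1 then
              D.wj (j + 1) a * D.wj (j + 1) z * dist D.n (D.len ls) a z else 0 : ℕ) /
              D.WW (j + 1) s - pC D.h D.m * D.cs (j + 1) s (D.vol ls)) := by
          rw [cs_eq]
          push_cast
          rw [sum_div, mul_sum, ← sum_sub_distrib, mul_sum]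
          refine sum_congr rfl fun a ha => ?_
          have ha := mem_range.1 ha
          split_ifs with h2 h3
          · rw [G.RR_congr hs ha h2, spread, WW, WW, G.cs_congr hs ha h2, G.cs_congr hs ha h2, cs_eq]
            push_cast
            simp only [h2, true_and, mul_sum, mul_ite, mul_zero, mul_assoc]
          · exact absurd (by rw [← SI.const s hs a ha h2, h0]) h3
          · simp [h2]
        rw [e]
        refine mul_nonpos_of_nonneg_of_nonpos (Nat.cast_nonneg _) (sub_nonpos.2 ?_)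
        refine div_le_of_le_mul₀ (Nat.cast_nonneg _) (by positivity) ?_
        have := M (j + 1) hj s hs
        rw [mul_right_comm] at this
        exact_mod_cast this
      · refine le_of_eq (sum_eq_zero fun a ha => ?_)
        split_ifs with h2 h3
        · exact absurd (by rw [SI.const s hs a (mem_range.1 ha) h2, h3]) h0
        · rfl
        · rfl)
  have h2 := mul_nonpos_of_nonneg_of_nonpos (show (0 : ℝ) ≤ 2 * D.n by positivity) h1
  refine le_trans ?_ (add_le_of_nonpos_right h2)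
  rw [Ctx.tot, Ctx.tot, Lam]
  push_cast
  simp only [mul_sum, ← sum_add_distrib]
  refine sum_le_sum fun v hv => ?_
  have hv := mem_range.1 hv
  by_cases h0 : g1 st v = j + 2
  · have h3 := (SI.alive v hv (by omega)).1
    rw [h0] at h3
    have h4 : ((D.dX v * D.RR (j + 1) v : ℕ) : ℝ) ≤ _ := Nat.cast_le.2 (G.dX_RR hv h3)
    push_cast at h4
    have h5 := mul_le_mul_of_nonneg_left h4
      (show (0 : ℝ) ≤ 8 * D.n * pC D.h D.m * D.lam ls v by positivity)
    simp only [Gt, Gb, h0, if_true, al, be, vol]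
    push_cast
    nlinarith
  · have h3 : g1 st v = 0 := by
      have := SI.vals v hv
      have := h v hv
      omega
    simp only [Gt, Gb, h3]
    simp
    positivity

theorem Good.level (G : D.Good) {Tm ls : List ℕ} (M : D.Metric ls) {j : ℕ} (hj : j < D.h)
    (p : List ℕ × List ℕ) (x : ℕ → ℕ → ℝ) (XI : D.XInv Tm p.2 x)
    (SI : D.SInv (j + 1) p.1 x) (h : ∀ v < D.n, g1 p.1 v ≠ j + 3)
    (hl : ∀ v < D.n, g1 (D.aLevel Tm p j).2 v ≤ g1 ls v) :
    ∃ x', D.XInv Tm (D.aLevel Tm p j).2 x' ∧ D.SInv j (D.aLevel Tm p j).1 x' ∧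
      (∀ v < D.n, g1 (D.aLevel Tm p j).1 v ≠ j + 2) ∧ D.FF p.2 x ≤ D.FF (D.aLevel Tm p j).2 x' ∧
      D.Pot' Tm j (D.aLevel Tm p j).1 (D.aLevel Tm p j).2 x' ≤ D.Pot' Tm (j + 1) p.1 p.2 x +
        D.A0 Tm * (D.T * (26 * D.n * pC D.h D.m * pc0 D.h * D.Lam ls)) := by
  have key := foldl_range_induction (D.aStep Tm j) p (fun i q =>
    (∀ v < D.n, g1 q.2 v ≤ g1 ls v) → ∃ x', D.XInv Tm q.2 x' ∧ D.SInv j q.1 x' ∧
      D.FF p.2 x ≤ D.FF q.2 x' ∧ D.Pot Tm ls j q.1 q.2 x' ≤ D.Pot Tm ls j p.1 p.2 x +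
        i * (D.A0 Tm * (D.T * (2 * D.Lam ls))) ∧ ∀ v < D.n, v < i → g1 q.1 v ≠ j + 2) D.n
    (fun _ => ⟨x, XI, ⟨fun u hu v hv h => SI.const u hu v hv (by omega), fun v hv => by
      have := SI.vals v hv
      have := h v hv
      omega, SI.alive⟩, le_rfl, by simp, by simp⟩)
    (fun i hi q ih hq => by
      have hq' : ∀ v < D.n, g1 q.2 v ≤ g1 ls v := fun v hv =>
        (aStep_ld Tm j q i v hv).trans (hq v hv)
      obtain ⟨x1, a1, a2, a3, a4, a5⟩ := ih hq'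
      obtain ⟨x2, b1, b2, b3, b4, b5⟩ := G.step M hj hi q x1 a1 a2 hq'
      refine ⟨x2, b1, b2, a3.trans b3, by push_cast; linarith, fun v hv hvi => b5 v hv ?_⟩
      rcases Nat.lt_succ_iff_lt_or_eq.1 hvi with h | h
      · exact Or.inr (a5 v hv h)
      · exact Or.inl h) hl
  obtain ⟨x', a1, a2, a3, a4, a5⟩ := key
  refine ⟨x', a1, a2, fun v hv => a5 v hv hv, a3, ?_⟩
  have hA : 0 ≤ D.A0 Tm := by unfold A0; positivity
  have h1 := mul_le_mul_of_nonneg_left (G.level_start M hj SI h) hA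
  have h2 : D.tot (D.Gb j) (D.aLevel Tm p j).1 = D.tot (D.Gt ls j) (D.aLevel Tm p j).1 :=
    sum_congr rfl fun v hv => by
      rw [Gt, Gb, if_neg (show g1 (D.aLevel Tm p j).1 v ≠ j + 2 from
        a5 v (mem_range.1 hv) (mem_range.1 hv))]
  have h3 : (1 : ℝ) ≤ pC D.h D.m * pc0 D.h := by
    exact_mod_cast Nat.mul_pos (pC_pos _ G.hm) (pc0_pos _)
  have h4 := mul_le_mul_of_nonneg_left h3
    (show (0 : ℝ) ≤ D.A0 Tm * (D.T * (2 * D.n * D.Lam ls)) by positivity)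
  rw [Pot', Pot', h2]
  rw [Pot, Pot] at a4
  change D.A0 Tm * (D.T * D.FF (D.aLevel Tm p j).2 x' + D.tot (D.Gt ls j) (D.aLevel Tm p j).1) +
    D.xi * D.T * D.QQ Tm (D.aLevel Tm p j).1 ≤ _ at a4
  nlinarith

theorem Good.pass (G : D.Good) {ls : List ℕ} (M : D.Metric ls) (q : List ℕ × List ℕ)
    (x : ℕ → ℕ → ℝ) (XI : D.XInv q.1 q.2 x) (hl : ∀ v < D.n, g1 (D.aPass q).2 v ≤ g1 ls v) :
    ∃ x', D.XInv q.1 (D.aPass q).2 x' ∧ D.SInv 0 (D.aPass q).1 x' ∧
      (∀ v < D.n, g1 (D.aPass q).1 v ≠ 2) ∧ D.FF q.2 x ≤ D.FF (D.aPass q).2 x' ∧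
      D.Pot' q.1 0 (D.aPass q).1 (D.aPass q).2 x' ≤
        D.Pot' q.1 D.h (tab D.n fun _ => D.h + 1) q.2 x +
        D.A0 q.1 * (D.T * (peta D.h D.m * D.n * D.Lam ls)) := by
  have key := foldl_rev_induction (D.aLevel q.1) (fun j p =>
    (∀ v < D.n, g1 p.2 v ≤ g1 ls v) → ∃ x', D.XInv q.1 p.2 x' ∧ D.SInv j p.1 x' ∧
      (∀ v < D.n, g1 p.1 v ≠ j + 2) ∧ D.FF q.2 x ≤ D.FF p.2 x' ∧
      D.Pot' q.1 j p.1 p.2 x' ≤ D.Pot' q.1 D.h (tab D.n fun _ => D.h + 1) q.2 x +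
        ((D.h : ℝ) - j) * (D.A0 q.1 * (D.T * (26 * D.n * pC D.h D.m * pc0 D.h * D.Lam ls))))
    D.h (tab D.n fun _ => D.h + 1, q.2)
    (fun _ => ⟨x, XI, ⟨fun u hu v hv _ => by rw [g1_tab _ hu, g1_tab _ hv], fun v hv => by
      simp [g1_tab _ hv], fun v hv _ => by
        rw [g1_tab _ hv, Nat.add_sub_cancel]
        refine ⟨ok_top v, fun f => ?_⟩
        rw [G.avg_congr G.hn hv (G.H.le 0 G.hn v hv), sub_self, abs_zero]
        exact NN_nonneg XI.pos f⟩, fun v hv => by simp [g1_tab _ hv], le_rfl, by simp⟩)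
    (fun j hj p ih hp => by
      obtain ⟨x1, a1, a2, a3, a4, a5⟩ := ih fun v hv => (aLevel_ld q.1 p j v hv).trans (hp v hv)
      obtain ⟨x2, b1, b2, b3, b4, b5⟩ := G.level M hj p x1 a1 a2 a3 hp
      refine ⟨x2, b1, b2, b3, a4.trans b4, ?_⟩
      push_cast at a5
      linarith) hl
  obtain ⟨x', a1, a2, a3, a4, a5⟩ := key
  refine ⟨x', a1, a2, a3, a4, a5.trans (le_of_eq ?_)⟩
  unfold peta
  push_cast
  ring

theorem Good.Q_start (G : D.Good) {g : ℕ} (hg : g < D.k) :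
    pmr D.h * D.Qg (tab D.n fun _ => D.h + 1) g ≤ (pmr D.h - 2) * (D.JJ : ℝ) ^ 2 := by
  have e1 : D.tot (D.Gz g) (tab D.n fun _ => D.h + 1) = (∑ v ∈ range D.n, D.mu' g v : ℕ) := by
    push_cast
    exact sum_congr rfl fun v hv => by simp [g1_tab _ (mem_range.1 hv), Gz, RR_top]
  have e2 : D.tot (D.Gr g) (tab D.n fun _ => D.h + 1) =
      D.h * (∑ v ∈ range D.n, D.mu' g v : ℕ) := by
    push_cast
    rw [mul_sum]
    exact sum_congr rfl fun v hv => by simp [g1_tab _ (mem_range.1 hv), Gr, Gz, RR_top, mul_comm]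
  have h1 : (D.T : ℝ) ≤ 2 * (∑ v ∈ range D.n, D.mu' g v : ℕ) := by exact_mod_cast G.mass hg
  have h2 : ((∑ v ∈ range D.n, D.mu' g v : ℕ) : ℝ) ≤ pc0 D.h * D.T := by
    have h3 : ∑ v ∈ range D.n, D.mu' g v ≤ 2 * D.T :=
      (sum_le_sum fun v _ => mu'_le g v).trans (G.tot g hg).2
    have h4 : 2 * D.T ≤ pc0 D.h * D.T := Nat.mul_le_mul_right _ (by unfold pc0; omega)
    exact_mod_cast h3.trans h4
  rw [Qg, e1, e2, JJ, pmr]
  push_cast at h1 h2 ⊢
  generalize (∑ v ∈ range D.n, (D.mu' g v : ℝ)) = m at *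
  have hm : 0 ≤ m := by have := Nat.cast_nonneg (α := ℝ) D.T; linarith
  have hc : (0 : ℝ) ≤ pc0 D.h := Nat.cast_nonneg _
  have hT : (0 : ℝ) ≤ D.T := Nat.cast_nonneg _
  have hh : (0 : ℝ) ≤ D.h := Nat.cast_nonneg _
  generalize (pc0 D.h : ℝ) = c at *
  generalize (D.T : ℝ) = T at *
  generalize (D.h : ℝ) = h at *
  have h5 : (c * T * (h + 1) - m) ^ 2 + c * T * (h * m) ≤
      (c * T * (h + 1)) ^ 2 - T / 2 * (c * T * (h + 1)) := by
    have h6 := mul_le_mul_of_nonneg_left h2 hm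
    have h7 := mul_le_mul_of_nonneg_left h1 (show 0 ≤ c * T * (h + 1) by positivity)
    nlinarith
  have h6 := mul_le_mul_of_nonneg_left h5 (show 0 ≤ 4 * c * (h + 1) by positivity)
  nlinarith

theorem unc_iff {Tm : List ℕ} {g : ℕ} :
    D.unc Tm g = true ↔ ∀ v < D.n, v ∈ Tm → D.mem g v = false := by
  simp only [unc, List.all_eq_true, List.mem_range, Bool.not_eq_true', Bool.and_eq_false_iff,
    decide_eq_false_iff_not]
  exact forall₂_congr fun v _ => by tauto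

theorem mem_newTm {Tm st : List ℕ} {v : ℕ} :
    v ∈ D.newTm Tm st ↔ v < D.n ∧ (v ∈ Tm ∨ g1 st v = 1) := by simp [newTm]

theorem Good.Q_end (G : D.Good) {Tm st : List ℕ} (h : ∀ v < D.n, g1 st v = 0 ∨ g1 st v = 1) :
    (D.usum (D.newTm Tm st) fun _ => 1 : ℕ) * (D.JJ : ℝ) ^ 2 ≤ D.QQ Tm st := by
  rw [usum_cast, QQ, sum_mul]
  refine sum_le_sum fun g hg => ?_
  have h0 : D.tot (D.Gr g) st = 0 := sum_eq_zero fun v hv => by
    rcases h v (mem_range.1 hv) with e | e <;> simp [Gr, e]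
  by_cases h1 : D.unc (D.newTm Tm st) g = true
  · have h2 : D.unc Tm g = true :=
      unc_iff.2 fun v hv hv' => unc_iff.1 h1 v hv (mem_newTm.2 ⟨hv, Or.inl hv'⟩)
    have h3 : D.tot (D.Gz g) st = 0 := sum_eq_zero fun v hv => by
      have hv := mem_range.1 hv
      rcases h v hv with e | e
      · simp [Gz, e]
      · have h4 := G.sup g (mem_range.1 hg) v hv (unc_iff.1 h1 v hv (mem_newTm.2 ⟨hv, Or.inr e⟩))
        have h5 := mu'_le (D := D) g v
        have : D.mu' g v = 0 := by omega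
        simp [Gz, this]
    simp [h1, h2, Qg, h0, h3]
  · rw [if_neg h1, zero_mul]
    split_ifs
    · rw [Qg, h0]; positivity
    · rfl

theorem Good.round (G : D.Good) {ls : List ℕ} (M : D.Metric ls) (q : List ℕ × List ℕ)
    (x : ℕ → ℕ → ℝ) (XI : D.XInv q.1 q.2 x) (hl : ∀ v < D.n, g1 (D.aRound q).2 v ≤ g1 ls v) :
    ∃ x', D.XInv (D.aRound q).1 (D.aRound q).2 x' ∧
      D.FF (D.aRound q).2 x' ≤ D.FF q.2 x + (D.bud + peta D.h D.m * D.n * D.Lam ls + D.xi) ∧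
      (pmr D.h * (D.bud + peta D.h D.m * D.n * D.Lam ls) ≤ D.xi →
        pmr D.h * D.usum (D.aRound q).1 (fun _ => 1) ≤ (pmr D.h - 1) * D.usum q.1 fun _ => 1) := by
  unfold aRound at hl ⊢
  split_ifs at hl ⊢ with h0
  · exact ⟨x, XI, le_add_of_nonneg_right (by positivity), fun _ => by simp [h0]⟩
  obtain ⟨x', a1, a2, a3, a4, a5⟩ := G.pass M q x XI hl
  have hv : ∀ v < D.n, g1 (D.aPass q).1 v = 0 ∨ g1 (D.aPass q).1 v = 1 := fun v hv => by
    have := a2.vals v hv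
    have := a3 v hv
    omega
  have b1 : D.tot (D.Gb 0) (D.aPass q).1 = 0 := sum_eq_zero fun v _ => by simp [Gb, be]
  have b2 : D.tot (D.Gb D.h) (tab D.n fun _ => D.h + 1) ≤ D.T * D.bud := by
    have e : D.tot (D.Gb D.h) (tab D.n fun _ => D.h + 1) =
        4 * D.n * pC D.h D.m * D.kap * D.h * (∑ v ∈ range D.n, D.cX v : ℕ) := by
      push_cast
      rw [mul_sum]
      exact sum_congr rfl fun v hv => by simp [g1_tab _ (mem_range.1 hv), Gb, be, RR_top]
    have h1 : ((∑ v ∈ range D.n, D.cX v : ℕ) : ℝ) ≤ 6 * D.n * D.T := by exact_mod_cast G.cost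
    rw [e, bud]
    refine (mul_le_mul_of_nonneg_left h1 (by positivity)).trans (le_of_eq ?_)
    push_cast; ring
  have b3 : pmr D.h * D.QQ q.1 (tab D.n fun _ => D.h + 1) ≤
      (pmr D.h - 2) * D.A0 q.1 := by
    rw [A0, usum_cast, QQ, sum_mul, mul_sum, mul_sum]
    refine sum_le_sum fun g hg => ?_
    split_ifs
    · simpa using G.Q_start (mem_range.1 hg)
    · simp
  have b4 := G.Q_end (Tm := q.1) hv
  have hJ : (0 : ℝ) < D.T * (D.JJ : ℝ) ^ 2 := by
    have := G.T_pos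
    have := pc0_pos D.h
    unfold JJ
    positivity
  have hmr : (0 : ℝ) < pmr D.h := by exact_mod_cast pmr_pos _
  have hu : (0 : ℝ) < (D.usum q.1 fun _ => 1 : ℕ) := by exact_mod_cast Nat.pos_of_ne_zero h0
  have hxi : (0 : ℝ) < D.xi := by
    have := G.hn
    have := G.hh
    have := pC_pos D.h G.hm
    have := pmr_pos D.h
    have : 0 < psig D.h D.m := by have := psig_ge G.hh G.hm; omega
    unfold xi bud kap
    positivity
  have main : pmr D.h * ((D.usum q.1 fun _ => 1 : ℕ) * D.FF (D.aPass q).2 x' +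
      D.xi * (D.usum (D.newTm q.1 (D.aPass q).1) fun _ => 1 : ℕ)) ≤
      pmr D.h * ((D.usum q.1 fun _ => 1 : ℕ) *
        (D.FF q.2 x + (D.bud + peta D.h D.m * D.n * D.Lam ls))) +
      D.xi * ((pmr D.h - 2) * (D.usum q.1 fun _ => 1 : ℕ)) := by
    refine le_of_mul_le_mul_left ?_ hJ
    rw [Pot', Pot', b1] at a5
    have c1 := mul_le_mul_of_nonneg_left a5 hmr.le
    have c2 := mul_le_mul_of_nonneg_left b2
      (show 0 ≤ pmr D.h * D.A0 q.1 by unfold A0; positivity)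
    have c3 := mul_le_mul_of_nonneg_left b3 (show (0 : ℝ) ≤ D.xi * D.T by positivity)
    have c4 := mul_le_mul_of_nonneg_left b4 (show (0 : ℝ) ≤ pmr D.h * (D.xi * D.T) by positivity)
    unfold A0 at c1 c2 c3
    linarith
  have hu' : (0 : ℝ) ≤ (D.usum (D.newTm q.1 (D.aPass q).1) fun _ => 1 : ℕ) := Nat.cast_nonneg _
  refine ⟨x', ⟨a1.pos, a1.deg, fun t ht => ?_⟩, ?_, fun hs => ?_⟩
  · obtain ⟨h1, h2 | h2⟩ := mem_newTm.1 ht
    · exact a1.term t h2
    · have h3 := a2.alive t h1 (by omega)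
      rw [h2] at h3
      exact ⟨h1, fun f => by rw [← G.avg_zero h1 h3.1 f]; exact h3.2 f⟩
  · refine le_of_mul_le_mul_left ?_ (mul_pos hmr hu)
    have := mul_nonneg hmr.le (mul_nonneg hxi.le hu')
    have := mul_pos hxi hu
    simp only
    linarith
  · have h1 : (pmr D.h : ℝ) * (D.bud + peta D.h D.m * D.n * D.Lam ls) ≤ D.xi := by
      exact_mod_cast hs
    have h2 := mul_le_mul_of_nonneg_left h1 hu.le
    have h3 := mul_le_mul_of_nonneg_left a4 (mul_pos hmr hu).le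
    have h4 : (pmr D.h : ℝ) * (D.usum (D.newTm q.1 (D.aPass q).1) fun _ => 1 : ℕ) ≤
        (pmr D.h - 1) * (D.usum q.1 fun _ => 1 : ℕ) := by
      refine le_of_mul_le_mul_left ?_ hxi
      linarith
    rw [← Nat.cast_one (R := ℝ), ← Nat.cast_sub (pmr_pos _)] at h4
    exact_mod_cast h4

end Ctx

end Pool.Agent.Lib.MP_fec922_lc
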