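import Pool.Agent.Lib.MP_fec922_lc.StepB

/-!
The whole rounding: improve the hierarchy until no sparse cut is found, select the terminals and
connect them.
-/

namespace Pool.Agent.Lib.MP_fec922_lc

open Finset Pool.Agent.Shared.PolyTime

attribute [local fun_prop] PB.comp

variable {α : Type} [N487b59b3 α]

namespace Ctx

variable (D : Ctx)

def hStep (t : List (List ℕ)) : List (List ℕ) := (D.setHt t).hmove (D.setHt t).stepA.2 t

def hLoop : List (List ℕ) :=
  D.hStep^[D.h * (D.n * (D.n * (2 * D.T * D.h))) + 1] (tab2 D.n fun u v => if u = v then 0 else D.h)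

def route : List ℕ × List (ℕ × ℕ) :=
  ((D.setHt D.hLoop).stepA.1, ((D.setHt D.hLoop).stepB (D.setHt D.hLoop).stepA.1).2)

/-- Capacity of the cut defined by `S`. -/
def cutS (S : Finset ℕ) : ℕ :=
  ∑ u ∈ range D.n, ∑ v ∈ range D.n, if u ∈ S ∧ v ∉ S then D.X u v else 0

/-- What the linear program provides. -/
structure Base : Prop where
  hr : D.r < D.n
  hn : D.n ≤ 2 ^ (D.h - 1)
  hh : 0 < D.h
  hm : 0 < D.m
  hk : D.k < 2 ^ D.h
  hX : ∀ u < D.n, ∀ v < D.n, D.X u v = D.X v u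
  hc : ∀ u < D.n, ∀ v < D.n, D.c u v = D.c v u
  hb : ∀ v < D.n, 1 ≤ D.b v ∧ D.b v ≤ D.n
  th : 1 ≤ D.th
  hT : 8 * D.n * D.h * D.th ≤ D.T
  Xle : ∀ u < D.n, ∀ v < D.n, D.X u v ≤ 2 * D.T
  hm2 : D.n * (D.n * (2 * D.T)) < 2 ^ D.m
  sup : ∀ g < D.k, ∀ v < D.n, D.mem g v = false → D.mu g v = 0
  tot : ∀ g < D.k, D.T ≤ ∑ v ∈ range D.n, D.mu g v + D.th ∧
    ∑ v ∈ range D.n, D.mu g v ≤ D.T + D.th
  cut : ∀ g < D.k, ∀ S : Finset ℕ, D.r ∉ S →
    ∑ v ∈ range D.n, (if v ∈ S then D.mu g v else 0) ≤ D.cutS S + D.th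
  hY : ∀ v < D.n, ∃ y ≤ D.T, D.dX v ≤ 2 * D.b v * y + D.th ∧
    ∀ S : Finset ℕ, v ∈ S → D.r ∉ S → y ≤ D.cutS S + D.th
  cost : ∑ u ∈ range D.n, D.cX u ≤ 6 * D.n * D.T
  root : ∃ g < D.k, D.mem g D.r = false

end Ctx

section
variable {D : α → Ctx}

@[fun_prop] theorem hStep_pt {t : α → List (List ℕ)} (hD : CPT D) (ht : PT t) :
    PT (fun a => (D a).hStep (t a)) := by
  unfold Ctx.hStep; fun_prop

@[fun_prop] theorem hLoop_pt (hD : CPT D) : PT (fun a => (D a).hLoop) := by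
  unfold Ctx.hLoop
  refine PT.iterate_inv (f := fun a t => (D a).hStep t) (by fun_prop) (by fun_prop) (by fun_prop)
    (by fun_prop) (fun a t => sz t ≤ (D a).n * (2 * ((D a).n * (2 * (D a).h + 1)) + 1))
    (fun a => sz_tab2_le fun _ _ _ _ => by split_ifs <;> omega) (fun a t h => ?_)
    (B := fun a => (D a).n * (2 * ((D a).n * (2 * (D a).h + 1)) + 1)) (by fun_prop) fun _ _ h => h
  unfold Ctx.hStep Ctx.hmove
  cases ((D a).setHt t).findCut ((D a).setHt t).stepA.2 with
  | none => exact h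
  | some x => exact ((D a).setHt t).sz_refine _ _ _

@[fun_prop] theorem route_pt (hD : CPT D) : PT (fun a => (D a).route) := by
  unfold Ctx.route; fun_prop

end

namespace Ctx

variable {D : Ctx}

theorem out_eq_cutS (H : HInv D.n D.h D.r D.ht) (j : ℕ) {s : ℕ} (hs : s < D.n) :
    D.out j s = D.cutS ((range D.n).filter fun v => D.ht s v ≤ j) := by
  rw [out, cs_eq, cutS]
  refine sum_congr rfl fun u hu => ?_
  split_ifs with h
  · rw [wj_eq]
    refine sum_congr rfl fun v hv => if_congr ?_ rfl rfl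
    have := H.facts hs (mem_range.1 hu) (mem_range.1 hv)
    simp only [mem_filter, hu, hv, true_and]
    omega
  · simp [h]

theorem Base.good (B : D.Base) (H : HInv D.n D.h D.r D.ht) : D.Good := by
  have hn0 : 0 < D.n := by have := B.hr; omega
  have h1 : 8 * D.th ≤ D.T := by
    have h1 := B.hT
    have h2 : 1 ≤ D.n * D.h := Nat.mul_pos hn0 B.hh
    nlinarith
  have h2 : ∀ j < D.h, D.T ≤ 2 * D.out j D.r := by
    intro j hj
    obtain ⟨g, hg, h0⟩ := B.root
    have a1 := B.cut g hg ((range D.n).erase D.r) (by simp)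
    have a2 := (B.tot g hg).1
    have a3 : ∑ v ∈ range D.n, (if v ∈ (range D.n).erase D.r then D.mu g v else 0) =
        ∑ v ∈ range D.n, D.mu g v := sum_congr rfl fun v hv => by
      by_cases h : v = D.r
      · simp [h, B.sup g hg _ B.hr h0]
      · simp [h, hv]
    have a4 : D.cutS ((range D.n).erase D.r) ≤ D.out j D.r := by
      rw [out_eq_cutS H j B.hr, cutS, cutS, sum_comm]
      refine sum_le_sum fun u hu => sum_le_sum fun v hv => ?_
      rw [B.hX v (mem_range.1 hv) u (mem_range.1 hu)]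
      split_ifs with b1 b2
      · rfl
      · exfalso
        simp only [mem_erase, hu, hv, and_true, ne_eq, not_not] at b1
        have c1 := H.root v (mem_range.1 hv) b1.1
        have c2 := H.symm v (mem_range.1 hv) D.r B.hr
        have c3 := H.self D.r B.hr
        apply b2
        obtain ⟨c4, rfl⟩ := b1
        simp only [mem_filter, hu, hv, true_and]
        omega
      · exact Nat.zero_le _
      · rfl
    omega
  have h3 : ∀ j < D.h, ∀ s < D.n, s ≠ D.r → D.r ∉ (range D.n).filter fun v => D.ht s v ≤ j := by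
    intro j hj s hs hne
    have := H.root s hs hne
    simp only [mem_filter, not_and]
    omega
  refine ⟨H, hn0, B.hh, B.hm, B.hk, B.hX, B.hc, B.hb, B.th, B.hT, B.sup,
    fun g hg => ⟨(B.tot g hg).1, by have := (B.tot g hg).2; omega⟩, fun g hg j hj s hs => ?_,
    fun v hv => ?_, B.cost⟩
  · by_cases h : s = D.r
    · have a1 := cs_le_sum (D := D) j s (D.mu g)
      have a2 := (B.tot g hg).2
      have a3 := h2 j hj
      rw [h] at a1 ⊢
      omega
    · have a1 := B.cut g hg _ (h3 j hj s hs h)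
      rw [← out_eq_cutS H j hs] at a1
      rw [cs_eq]
      refine le_trans (le_of_eq (sum_congr rfl fun v hv => ?_)) (a1.trans (by omega))
      simp [hv]
  · obtain ⟨y, a1, a2, a3⟩ := B.hY v hv
    refine ⟨y, a1, a2, fun j hj => ?_⟩
    by_cases h : v = D.r
    · have := h2 j hj
      rw [h]; omega
    · have := a3 _ (by simp [hv, H.self v hv]) (h3 j hj v hv h)
      rw [← out_eq_cutS H j hv] at this
      omega

theorem Base.setHt (B : D.Base) (t : List (List ℕ)) : (D.setHt t).Base :=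
  ⟨B.hr, B.hn, B.hh, B.hm, B.hk, B.hX, B.hc, B.hb, B.th, B.hT, B.Xle, B.hm2, B.sup, B.tot, B.cut,
    B.hY, B.cost, B.root⟩

theorem Base.hLoop_spec (B : D.Base) : HInv D.n D.h D.r (g2 D.hLoop) ∧
    (D.setHt D.hLoop).findCut (D.setHt D.hLoop).stepA.2 = none := by
  have H0 : HInv D.n D.h D.r (g2 (tab2 D.n fun u v => if u = v then 0 else D.h)) :=
    (HInv.init D.n D.h D.r).congr B.hr fun u hu v hv => g2_tab2 _ hu hv
  have key := iterate_induction D.hStep (tab2 D.n fun u v => if u = v then 0 else D.h)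
    (fun i t => HInv D.n D.h D.r (g2 t) ∧ ((D.setHt t).findCut (D.setHt t).stepA.2 = none ∨
      Phi D.n D.h D.X (g2 t) + i ≤ D.h * (D.n * (D.n * (2 * D.T * D.h)))))
    ⟨H0, Or.inr (Phi_le H0 B.Xle)⟩ (fun i t ⟨a1, a2⟩ => by
      by_cases h : (D.setHt t).findCut (D.setHt t).stepA.2 = none
      · have : D.hStep t = t := by simp [hStep, hmove, h]
        rw [this]
        exact ⟨a1, Or.inl h⟩
      · obtain ⟨b1, b2⟩ := (D.setHt t).hmove_spec a1 B.hr B.hn B.hX _ t h
        change Phi D.n D.h D.X (g2 (D.hStep t)) < Phi D.n D.h D.X (g2 t) at b2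
        have := a2.resolve_left h
        exact ⟨b1, Or.inr (by omega)⟩) (D.h * (D.n * (D.n * (2 * D.T * D.h))) + 1)
  exact ⟨key.1, key.2.resolve_right (by omega)⟩

theorem Base.route_spec (B : D.Base) :
    In D.n D.route.2 ∧ (∀ t ∈ D.route.1, t < D.n) ∧
      (∀ a ∈ D.route.1, ∀ b ∈ D.route.1, Conn D.route.2 a b) ∧
      (∀ g < D.k, ∃ v ∈ D.route.1, D.mem g v = true) ∧
      wt D.c D.route.2 ≤ palpha D.h D.m * D.n ∧
      ∀ v < D.n, inc v D.route.2 ≤ pbeta D.n D.h D.m * D.b v := by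
  obtain ⟨H, hc⟩ := B.hLoop_spec
  have G : (D.setHt D.hLoop).Good := (B.setHt _).good H
  have M := (D.setHt D.hLoop).metric H B.hh B.hX B.hc (lt_of_le_of_lt (by
    refine (sum_le_card_nsmul _ _ (D.n * (2 * D.T)) fun u hu => ?_).trans (by simp; rfl)
    rw [dX, sm_eq]
    exact (sum_le_card_nsmul _ _ (2 * D.T) fun v hv =>
      B.Xle u (mem_range.1 hu) v (mem_range.1 hv)).trans (by simp)) B.hm2) _ hc
  obtain ⟨x, a1, a2, a3, a4, a5⟩ := G.stepA_spec M
  obtain ⟨b1, b2, b3, b4⟩ := G.stepB_spec B.hn a1 a2 a3 _ a4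
  exact ⟨b1, fun t ht => (a4 t ht).1, b2, a5, b3, b4⟩

end Ctx

end Pool.Agent.Lib.MP_fec922_lc
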