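import Pool.Agent.Lib.MP_fec922_lc.Basic

/-!
Shortest paths in the complete graph on the numbers below `n` (Bellman and Ford).
-/

namespace Pool.Agent.Lib.MP_fec922_lc

open Pool.Agent.Shared.PolyTime Finset

attribute [local fun_prop] PB.comp

variable {α : Type} [N487b59b3 α]

/-- `Ch a l z`: the list `l` of darts is a walk from `a` to `z`. -/
inductive Ch : ℕ → List (ℕ × ℕ) → ℕ → Prop
  | nil (a : ℕ) : Ch a [] a
  | cons (a b : ℕ) (l : List (ℕ × ℕ)) (z : ℕ) : Ch b l z → Ch a ((a, b) :: l) z

/-- Total length of a list of darts. -/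
def wt (len : ℕ → ℕ → ℕ) (l : List (ℕ × ℕ)) : ℕ := (l.map fun e => len e.1 e.2).sum

@[simp] theorem wt_nil (len : ℕ → ℕ → ℕ) : wt len [] = 0 := rfl
@[simp] theorem wt_cons (len : ℕ → ℕ → ℕ) (e : ℕ × ℕ) (l : List (ℕ × ℕ)) :
    wt len (e :: l) = len e.1 e.2 + wt len l := by simp [wt]
@[simp] theorem wt_append (len : ℕ → ℕ → ℕ) (l m : List (ℕ × ℕ)) :
    wt len (l ++ m) = wt len l + wt len m := by simp [wt]

@[fun_prop] theorem wt_pt {len : α → ℕ → ℕ → ℕ} {l : α → List (ℕ × ℕ)}
    (hlen : PT (fun p : α × ℕ × ℕ => len p.1 p.2.1 p.2.2)) (hl : PT l) :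
    PT (fun a => wt (len a) (l a)) := by
  unfold wt
  exact PT.sum (PT.map hl hlen)

theorem wt_sublist (len : ℕ → ℕ → ℕ) {l m : List (ℕ × ℕ)} (h : l.Sublist m) :
    wt len l ≤ wt len m :=
  (h.map _).sum_le_sum (fun _ _ => Nat.zero_le _)

/-- All ends are below `n`. -/
def In (n : ℕ) (l : List (ℕ × ℕ)) : Prop := ∀ e ∈ l, e.1 < n ∧ e.2 < n

theorem In.sublist {n : ℕ} {l m : List (ℕ × ℕ)} (h : In n m) (hs : l.Sublist m) : In n l :=
  fun e he => h e (hs.subset he)

theorem In.append {n : ℕ} {l m : List (ℕ × ℕ)} (h : In n l) (h' : In n m) : In n (l ++ m) :=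
  fun e he => (List.mem_append.1 he).elim (h e) (h' e)

theorem wt_mono {n : ℕ} {len len' : ℕ → ℕ → ℕ} (h : ∀ u < n, ∀ v < n, len u v ≤ len' u v)
    {l : List (ℕ × ℕ)} (hl : In n l) : wt len l ≤ wt len' l :=
  List.sum_le_sum fun e he => h _ (hl e he).1 _ (hl e he).2

theorem sz_darts {n : ℕ} {l : List (ℕ × ℕ)} (hl : In n l) : sz l ≤ l.length * (6 * n + 3) := by
  have := sz_list_le (l := l) (B := 3 * n + 1) fun e he => by
    have h1 := sz_nat_le e.1
    have h2 := sz_nat_le e.2
    have := hl e he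
    rw [sz_prod]; omega
  calc _ ≤ _ := this
    _ = _ := by ring

theorem Ch.append {a b z : ℕ} {l m : List (ℕ × ℕ)} (h : Ch a l b) (h' : Ch b m z) :
    Ch a (l ++ m) z := by
  induction h with
  | nil => exact h'
  | cons a b l c _ ih => exact Ch.cons _ _ _ _ (ih h')

theorem Ch.reverse {a z : ℕ} {l : List (ℕ × ℕ)} (h : Ch a l z) :
    Ch z (l.map Prod.swap).reverse a := by
  induction h with
  | nil => exact Ch.nil _
  | cons a b l c _ ih =>
    rw [List.map_cons, List.reverse_cons]
    exact ih.append (Ch.cons _ _ _ _ (Ch.nil _))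

theorem Ch.dropWhile {a z : ℕ} {l : List (ℕ × ℕ)} (h : Ch a l z) {c : ℕ}
    (hc : c ∈ l.map Prod.fst) : Ch c (l.dropWhile fun e => e.1 != c) z := by
  induction h with
  | nil => simp at hc
  | cons a b l z h ih =>
    by_cases hac : a = c
    · subst hac
      simpa [List.dropWhile] using Ch.cons _ _ _ _ h
    · have : c ∈ l.map Prod.fst := by
        rw [List.map_cons, List.mem_cons] at hc
        exact hc.resolve_left (Ne.symm hac)
      rw [List.dropWhile_cons_of_pos (by simpa using hac)]
      exact ih this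

/-- Sources and targets of a walk. -/
theorem Ch.fst_snd {a z : ℕ} {l : List (ℕ × ℕ)} (h : Ch a l z) :
    l.map Prod.fst ++ [z] = a :: l.map Prod.snd := by
  induction h with
  | nil => rfl
  | cons a b l z _ ih => simp [ih]

/-- Telescoping along a walk. -/
theorem Ch.abs_sub_le {a z : ℕ} {l : List (ℕ × ℕ)} (h : Ch a l z) (f : ℕ → ℝ) :
    |f a - f z| ≤ (l.map fun e => |f e.1 - f e.2|).sum := by
  induction h with
  | nil => simp
  | cons a b l z _ ih =>
    rw [List.map_cons, List.sum_cons]
    have := _root_.abs_sub_le (f a) (f b) (f z)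
    linarith

/-- The walk visits no vertex twice. -/
def Simple (l : List (ℕ × ℕ)) (z : ℕ) : Prop := (l.map Prod.fst ++ [z]).Nodup

/-- Removal of cycles from a walk to `z`. -/
def short (z : ℕ) (l : List (ℕ × ℕ)) : List (ℕ × ℕ) :=
  l.foldr (fun e m => if e.1 = z then [] else
    if e.1 ∈ m.map Prod.fst then m.dropWhile (fun e' => e'.1 != e.1) else e :: m) []

theorem short_sublist (z : ℕ) (l : List (ℕ × ℕ)) : (short z l).Sublist l := by
  unfold short
  induction l with
  | nil => simp
  | cons e l ih =>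
    rw [List.foldr_cons]
    split_ifs
    · simp
    · exact ((List.dropWhile_sublist _).trans ih).trans (List.sublist_cons_self _ _)
    · exact ih.cons_cons _

theorem short_spec {a z : ℕ} {l : List (ℕ × ℕ)} (h : Ch a l z) :
    Ch a (short z l) z ∧ Simple (short z l) z := by
  induction h with
  | nil => exact ⟨Ch.nil _, by simp [Simple, short]⟩
  | cons a b l z _ ih =>
    obtain ⟨h1, h2⟩ := ih
    have e : short z ((a, b) :: l) = if a = z then [] else
      if a ∈ (short z l).map Prod.fst then (short z l).dropWhile (fun e' => e'.1 != a)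
      else (a, b) :: short z l := rfl
    rw [e]
    split_ifs with h3 h4
    · subst h3
      exact ⟨Ch.nil _, by simp [Simple]⟩
    · exact ⟨h1.dropWhile h4,
        List.Nodup.sublist (((List.dropWhile_sublist _).map _).append_right _) h2⟩
    · refine ⟨Ch.cons _ _ _ _ h1, ?_⟩
      unfold Simple at *
      rw [List.map_cons, List.cons_append, List.nodup_cons]
      refine ⟨?_, h2⟩
      rw [List.mem_append]
      simp only [List.mem_singleton]
      tauto

@[fun_prop] theorem short_pt {z : α → ℕ} {l : α → List (ℕ × ℕ)} (hz : PT z) (hl : PT l) :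
    PT (fun a => short (z a) (l a)) := by
  unfold short
  obtain ⟨g, hg, hb⟩ := PT.bound_mem (h := fun _ x => x) (by fun_prop) hl
  refine PT.foldr_grow (f := fun a e m => if e.1 = z a then [] else
    if e.1 ∈ m.map Prod.fst then m.dropWhile (fun e' => e'.1 != e.1) else e :: m) (by fun_prop) hl
    (by fun_prop) (g := fun a => 2 * g a + 1) (by fun_prop) fun a s x hx => ?_
  have h1 := hb a x hx
  have h2 := sz_sublist (List.dropWhile_sublist (l := s) (fun e' => e'.1 != x.1))
  split_ifs <;> simp <;> omega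

theorem Simple.length_lt {n z : ℕ} {l : List (ℕ × ℕ)} (h : Simple l z) (hl : In n l) (hz : z < n) :
    l.length < n := by
  have h1 : (l.map Prod.fst ++ [z]).toFinset ⊆ range n := by
    intro x hx
    simp only [List.mem_toFinset, List.mem_append, List.mem_map, List.mem_singleton] at hx
    rcases hx with ⟨e, he, rfl⟩ | rfl
    · exact mem_range.2 (hl e he).1
    · exact mem_range.2 hz
  have h2 := card_le_card h1
  rw [List.toFinset_card_of_nodup h] at h2
  simp at h2
  omega

/-- Number of darts at `v`. -/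
def inc (v : ℕ) (l : List (ℕ × ℕ)) : ℕ :=
  l.countP (fun e => e.1 == v) + l.countP (fun e => e.2 == v)

@[fun_prop] theorem inc_pt {v : α → ℕ} {l : α → List (ℕ × ℕ)} (hv : PT v) (hl : PT l) :
    PT (fun a => inc (v a) (l a)) := by
  unfold inc; fun_prop

@[simp] theorem inc_nil (v : ℕ) : inc v [] = 0 := rfl

theorem inc_append (v : ℕ) (l m : List (ℕ × ℕ)) : inc v (l ++ m) = inc v l + inc v m := by
  simp [inc]; omega

theorem inc_cons (v : ℕ) (e : ℕ × ℕ) (l : List (ℕ × ℕ)) :
    inc v (e :: l) = (if e.1 = v then 1 else 0) + (if e.2 = v then 1 else 0) + inc v l := by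
  simp only [inc, List.countP_cons, beq_iff_eq]; omega

theorem inc_le_two {a z : ℕ} {l : List (ℕ × ℕ)} (h : Ch a l z) (hs : Simple l z) (v : ℕ) :
    inc v l ≤ 2 := by
  have h1 : (l.map Prod.fst).Nodup := hs.sublist (List.sublist_append_left _ _)
  have h2 : (l.map Prod.snd).Nodup := by
    unfold Simple at hs
    rw [h.fst_snd] at hs
    exact hs.of_cons
  have e1 : l.countP (fun e => e.1 == v) = (l.map Prod.fst).count v := by
    rw [List.count, List.countP_map]; rfl
  have e2 : l.countP (fun e => e.2 == v) = (l.map Prod.snd).count v := by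
    rw [List.count, List.countP_map]; rfl
  have := List.nodup_iff_count_le_one.1 h1 v
  have := List.nodup_iff_count_le_one.1 h2 v
  unfold inc
  omega

/-- Splitting the length of a walk into a cost part and vertex weights. -/
theorem wt_split {n : ℕ} (k : ℕ) (c : ℕ → ℕ → ℕ) (lam : ℕ → ℕ) {l : List (ℕ × ℕ)} (hl : In n l) :
    wt (fun u v => k * c u v + lam u + lam v) l = k * wt c l + ∑ v ∈ range n, lam v * inc v l := by
  induction l with
  | nil => simp
  | cons e l ih =>
    have he := hl e (by simp)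
    rw [wt_cons, wt_cons, ih fun x hx => hl x (by simp [hx])]
    simp only [inc_cons, mul_add, sum_add_distrib, mul_ite, mul_one, mul_zero, sum_ite_eq,
      mem_range, he.1, he.2, if_true]
    ring

/-- Sums over a list of darts as sums over all pairs. -/
theorem sum_count {n : ℕ} (g : ℕ → ℕ → ℝ) {l : List (ℕ × ℕ)} (hl : In n l) :
    ∑ u ∈ range n, ∑ v ∈ range n, (l.count (u, v) : ℝ) * g u v
      = (l.map fun e => g e.1 e.2).sum := by
  induction l with
  | nil => simp
  | cons e l ih =>
    have he := hl e (by simp)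
    rw [List.map_cons, List.sum_cons, ← ih fun x hx => hl x (by simp [hx])]
    have : g e.1 e.2 = ∑ u ∈ range n, ∑ v ∈ range n, (if e = (u, v) then 1 else 0) * g u v := by
      rw [sum_eq_single e.1, sum_eq_single e.2]
      · simp
      · intro v _ hv
        rw [if_neg, zero_mul]
        intro h; exact hv (by rw [h])
      · intro h; exact absurd (mem_range.2 he.2) h
      · intro u _ hu
        refine sum_eq_zero fun v _ => ?_
        rw [if_neg, zero_mul]
        intro h; exact hu (by rw [h])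
      · intro h; exact absurd (mem_range.2 he.1) h
    rw [this, ← sum_add_distrib]
    refine sum_congr rfl fun u _ => ?_
    rw [← sum_add_distrib]
    refine sum_congr rfl fun v _ => ?_
    rw [List.count_cons]
    by_cases h : e = (u, v) <;> simp [h]
    ring

/-- One round of the Bellman and Ford algorithm. -/
def bfStep (n : ℕ) (len : ℕ → ℕ → ℕ) (P : List (List (ℕ × ℕ))) : List (List (ℕ × ℕ)) :=
  tab n fun a => amin (wt len) (P.getD a []) (tab n fun b => (a, b) :: P.getD b [])

def bf0 (n z : ℕ) : List (List (ℕ × ℕ)) := tab n fun a => if a = z then [] else [(a, z)]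

def bf (n : ℕ) (len : ℕ → ℕ → ℕ) (z : ℕ) : List (List (ℕ × ℕ)) := (bfStep n len)^[n] (bf0 n z)

/-- A shortest path from `a` to `z`. -/
def path (n : ℕ) (len : ℕ → ℕ → ℕ) (a z : ℕ) : List (ℕ × ℕ) := short z ((bf n len z).getD a [])

/-- Shortest path distance. -/
def dist (n : ℕ) (len : ℕ → ℕ → ℕ) (a z : ℕ) : ℕ := wt len (path n len a z)

theorem bf_inv (n : ℕ) (len : ℕ → ℕ → ℕ) (z : ℕ) (hz : z < n) (i : ℕ) :
    ∀ a < n, Ch a (((bfStep n len)^[i] (bf0 n z)).getD a []) z ∧
      In n (((bfStep n len)^[i] (bf0 n z)).getD a []) ∧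
      ∀ l, Ch a l z → In n l → l.length ≤ i →
        wt len (((bfStep n len)^[i] (bf0 n z)).getD a []) ≤ wt len l := by
  refine iterate_induction (bfStep n len) (bf0 n z) (fun i P => ∀ a < n, Ch a (P.getD a []) z ∧
    In n (P.getD a []) ∧ ∀ l, Ch a l z → In n l → l.length ≤ i → wt len (P.getD a []) ≤ wt len l)
    (fun a ha => ?_) (fun i P ih a ha => ?_) i
  · rw [bf0, getD_tab _ _ ha]
    split_ifs with h
    · subst h
      exact ⟨Ch.nil _, by simp [In], by simp⟩
    · refine ⟨Ch.cons _ _ _ _ (Ch.nil _), by simp [In, ha, hz], fun l hl _ h0 => ?_⟩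
      have : l = [] := List.length_eq_zero_iff.1 (by omega)
      subst this
      cases hl
      exact absurd rfl h
  · rw [bfStep, getD_tab _ _ ha]
    have h1 := amin_mem (wt len) (P.getD a []) (tab n fun b => (a, b) :: P.getD b [])
    obtain ⟨h2, h3⟩ := amin_le (wt len) (P.getD a []) (tab n fun b => (a, b) :: P.getD b [])
    generalize amin (wt len) (P.getD a []) (tab n fun b => (a, b) :: P.getD b []) = q at *
    refine ⟨?_, ?_, fun l hl hin hlen => ?_⟩
    · rcases h1 with rfl | h1
      · exact (ih a ha).1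
      · obtain ⟨b, hb, rfl⟩ := mem_tab.1 h1
        exact Ch.cons _ _ _ _ (ih b hb).1
    · rcases h1 with rfl | h1
      · exact (ih a ha).2.1
      · obtain ⟨b, hb, rfl⟩ := mem_tab.1 h1
        intro e he
        rcases List.mem_cons.1 he with rfl | he
        · exact ⟨ha, hb⟩
        · exact (ih b hb).2.1 e he
    · cases hl with
      | nil => exact h2.trans ((ih _ ha).2.2 [] (Ch.nil _) hin (by simp))
      | cons _ b m _ hm =>
        have hb : b < n := (hin (a, b) (by simp)).2
        refine (h3 _ (mem_tab.2 ⟨b, hb, rfl⟩)).trans ?_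
        rw [wt_cons, wt_cons]
        exact Nat.add_le_add_left ((ih b hb).2.2 m hm (fun e he => hin e (by simp [he]))
          (by simpa using hlen)) _

theorem path_ch {n : ℕ} (len : ℕ → ℕ → ℕ) {a z : ℕ} (ha : a < n) (hz : z < n) :
    Ch a (path n len a z) z := (short_spec (bf_inv n len z hz n a ha).1).1

theorem path_simple {n : ℕ} (len : ℕ → ℕ → ℕ) {a z : ℕ} (ha : a < n) (hz : z < n) :
    Simple (path n len a z) z := (short_spec (bf_inv n len z hz n a ha).1).2

theorem path_in {n : ℕ} (len : ℕ → ℕ → ℕ) {a z : ℕ} (ha : a < n) (hz : z < n) :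
    In n (path n len a z) := (bf_inv n len z hz n a ha).2.1.sublist (short_sublist _ _)

theorem path_inc {n : ℕ} (len : ℕ → ℕ → ℕ) {a z : ℕ} (ha : a < n) (hz : z < n) (v : ℕ) :
    inc v (path n len a z) ≤ 2 := inc_le_two (path_ch len ha hz) (path_simple len ha hz) v

theorem dist_le {n : ℕ} (len : ℕ → ℕ → ℕ) {a z : ℕ} (ha : a < n) (hz : z < n)
    {l : List (ℕ × ℕ)} (hl : Ch a l z) (hin : In n l) : dist n len a z ≤ wt len l := by
  have h1 := short_spec hl
  have h2 := hin.sublist (short_sublist z l)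
  calc dist n len a z ≤ wt len ((bf n len z).getD a []) := wt_sublist _ (short_sublist _ _)
    _ ≤ wt len (short z l) :=
      (bf_inv n len z hz n a ha).2.2 _ h1.1 h2 (h1.2.length_lt h2 hz).le
    _ ≤ wt len l := wt_sublist _ (short_sublist _ _)

theorem dist_self {n : ℕ} (len : ℕ → ℕ → ℕ) {a : ℕ} (ha : a < n) : dist n len a a = 0 :=
  Nat.le_zero.1 (dist_le len ha ha (Ch.nil a) (by simp [In]))

theorem dist_le_len {n : ℕ} (len : ℕ → ℕ → ℕ) {a b : ℕ} (ha : a < n) (hb : b < n) :
    dist n len a b ≤ len a b := by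
  simpa using dist_le len ha hb (Ch.cons a b [] b (Ch.nil b)) (by simp [In, ha, hb])

theorem dist_triangle {n : ℕ} (len : ℕ → ℕ → ℕ) {a b c : ℕ} (ha : a < n) (hb : b < n)
    (hc : c < n) : dist n len a c ≤ dist n len a b + dist n len b c := by
  have := dist_le len ha hc ((path_ch len ha hb).append (path_ch len hb hc))
    ((path_in len ha hb).append (path_in len hb hc))
  rwa [wt_append] at this

theorem dist_symm {n : ℕ} {len : ℕ → ℕ → ℕ} (hs : ∀ u < n, ∀ v < n, len u v = len v u)
    {a b : ℕ} (ha : a < n) (hb : b < n) : dist n len a b = dist n len b a := by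
  have key : ∀ {a b : ℕ}, a < n → b < n → dist n len a b ≤ dist n len b a := by
    intro a b ha hb
    have h1 := path_in len hb ha
    refine (dist_le len ha hb (path_ch len hb ha).reverse fun e he => ?_).trans (le_of_eq ?_)
    · simp only [List.mem_reverse, List.mem_map] at he
      obtain ⟨x, hx, rfl⟩ := he
      exact (h1 x hx).symm
    · unfold dist wt
      rw [List.map_reverse, List.sum_reverse, List.map_map]
      exact congrArg List.sum (List.map_congr_left fun e he => hs _ (h1 e he).2 _ (h1 e he).1)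
  exact le_antisymm (key ha hb) (key hb ha)

theorem dist_mono {n : ℕ} {len len' : ℕ → ℕ → ℕ} (h : ∀ u < n, ∀ v < n, len u v ≤ len' u v)
    {a b : ℕ} (ha : a < n) (hb : b < n) : dist n len a b ≤ dist n len' a b :=
  (dist_le len ha hb (path_ch len' ha hb) (path_in len' ha hb)).trans
    (wt_mono h (path_in len' ha hb))

@[fun_prop] theorem bfStep_pt {n : α → ℕ} {len : α → ℕ → ℕ → ℕ} {P : α → List (List (ℕ × ℕ))}
    (hn : PT n) (hb : PB n) (hlen : PT (fun p : α × ℕ × ℕ => len p.1 p.2.1 p.2.2)) (hP : PT P) :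
    PT (fun a => bfStep (n a) (len a) (P a)) := by
  unfold bfStep
  refine tab_pt hn hb (amin_pt (wt_pt ?_ (by fun_prop)) (by fun_prop) (by fun_prop))
  exact hlen.comp' (f := fun p : ((α × ℕ) × List (ℕ × ℕ)) × ℕ × ℕ => (p.1.1.1, p.2))
    (by fun_prop)

@[fun_prop] theorem bf_pt {n z : α → ℕ} {len : α → ℕ → ℕ → ℕ}
    (hn : PT n) (hb : PB n) (hlen : PT (fun p : α × ℕ × ℕ => len p.1 p.2.1 p.2.2)) (hz : PT z) :
    PT (fun a => bf (n a) (len a) (z a)) := by
  unfold bf
  refine iterate_ind (f := fun a P => bfStep (n a) (len a) P) (bfStep_pt (by fun_prop)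
    (by fun_prop) (hlen.comp' (f := fun p : (α × List (List (ℕ × ℕ))) × ℕ × ℕ => (p.1.1, p.2))
      (by fun_prop)) (by fun_prop)) hn hb (by unfold bf0; fun_prop)
    (fun a i P => P.length = n a ∧ ∀ l ∈ P, sz l ≤ 2 * (2 * n a + 1 + sz (z a)) + 1
      + i * (6 * n a + 3))
    (fun a => ⟨by simp [bf0], fun l hl => ?_⟩) (fun a i P h => ⟨by simp [bfStep], fun l hl => ?_⟩)
    (B := fun a => n a * (2 * (2 * (2 * n a + 1 + sz (z a)) + 1 + n a * (6 * n a + 3)) + 1))
    (by fun_prop) fun a i P hi h => ?_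
  · obtain ⟨u, hu, rfl⟩ := mem_tab.1 hl
    have := sz_nat_le u
    split_ifs <;> simp <;> omega
  · obtain ⟨u, hu, rfl⟩ := mem_tab.1 hl
    have key : ∀ j, sz (P.getD j []) ≤ 2 * (2 * n a + 1 + sz (z a)) + 1 + i * (6 * n a + 3) := by
      intro j
      by_cases hj : j < P.length
      · rw [List.getD_eq_getElem _ _ hj]; exact h.2 _ (List.getElem_mem hj)
      · rw [List.getD_eq_default _ _ (by omega)]; simp
    rcases amin_mem (wt (len a)) (P.getD u []) (tab (n a) fun b => (u, b) :: P.getD b []) with h1 | h1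
    · rw [h1]
      have := key u
      nlinarith
    · obtain ⟨b, hb, h2⟩ := mem_tab.1 h1
      rw [← h2]
      have := key b
      have h3 := sz_nat_le u
      have h4 := sz_nat_le b
      simp only [sz_cons, sz_pair]
      nlinarith
  · refine (sz_list_le h.2).trans ?_
    rw [h.1]
    gcongr

@[fun_prop] theorem path_pt {n u z : α → ℕ} {len : α → ℕ → ℕ → ℕ}
    (hn : PT n) (hb : PB n) (hlen : PT (fun p : α × ℕ × ℕ => len p.1 p.2.1 p.2.2)) (hu : PT u)
    (hz : PT z) : PT (fun a => path (n a) (len a) (u a) (z a)) := by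
  unfold path
  exact short_pt hz (PT.lgetD hu (bf_pt hn hb hlen hz) (by fun_prop))

@[fun_prop] theorem dist_pt {n u z : α → ℕ} {len : α → ℕ → ℕ → ℕ}
    (hn : PT n) (hb : PB n) (hlen : PT (fun p : α × ℕ × ℕ => len p.1 p.2.1 p.2.2)) (hu : PT u)
    (hz : PT z) : PT (fun a => dist (n a) (len a) (u a) (z a)) := by
  unfold dist
  exact wt_pt hlen (path_pt hn hb hlen hu hz)

theorem sz_path (n : ℕ) (len : ℕ → ℕ → ℕ) {a z : ℕ} (ha : a < n) (hz : z < n) :
    sz (path n len a z) ≤ n * (6 * n + 3) :=
  (sz_darts (path_in len ha hz)).trans (Nat.mul_le_mul_right _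
    ((path_simple len ha hz).length_lt (path_in len ha hz) hz).le)

end Pool.Agent.Lib.MP_fec922_lc
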