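import Pool.Agent.Lib.MP_fec922_lc.Refine

/-!
Selection of the terminals: a deterministic form of the rounding of Garg, Konjevod and Ravi on the
tree of clusters, with exponential vertex weights.
-/

namespace Pool.Agent.Lib.MP_fec922_lc

open Pool.Agent.Shared.PolyTime Finset

attribute [local fun_prop] PB.comp

variable {α β : Type} [N487b59b3 α] [N487b59b3 β]

namespace Ctx

variable (D : Ctx)

def ok (j s : ℕ) : Bool := (List.range D.h).all fun i => decide (i < j) || decide (D.th ≤ D.out i s)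

def RR (j s : ℕ) : ℕ := 1 + sm D.h fun i => if j ≤ i then D.T / D.out i s else 0

def mu' (g v : ℕ) : ℕ := cond (D.ok 0 v) (D.mu g v) 0

def coefv (st : List ℕ) (v : ℕ) : ℕ := if g1 st v = 0 then 0 else D.RR (g1 st v - 1) v

def unc (Tm : List ℕ) (g : ℕ) : Bool :=
  (List.range D.n).all fun v => !(D.mem g v && decide (v ∈ Tm))

def usum (Tm : List ℕ) (f : ℕ → ℕ) : ℕ := sm D.k fun g => cond (D.unc Tm g) (f g) 0

def zeta (j s g : ℕ) : ℕ := D.RR j s * D.cs j s (D.mu' g)

def Zp (st : List ℕ) (j s g : ℕ) : ℕ :=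
  sm D.n fun v => if D.ht s v ≤ j then 0 else D.mu' g v * D.coefv st v

def pairSum (j s : ℕ) (f : ℕ → ℕ → ℕ) : ℕ :=
  D.cs j s fun a => D.cs (j + 1) s fun z => D.wj j a * D.wj (j + 1) z * f a z

def den (j s : ℕ) : ℕ := D.WW j s * D.WW (j + 1) s

def delta (ld : List ℕ) (j s v : ℕ) : ℕ :=
  min (D.n * D.pairSum j s (fun a z => inc v (path D.n (D.len ld) a z)) / D.den j s + 1)
    (2 * D.n + 1)

def JJ : ℕ := pc0 D.h * D.T * (D.h + 1)

def bud : ℕ := 24 * D.n ^ 2 * pC D.h D.m * D.kap * D.h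

def xi : ℕ := 8 * pmr D.h * D.bud

def rule (Tm st ld : List ℕ) (j s : ℕ) : Bool :=
  D.ok j s && decide (D.usum Tm (fun _ => 1) * D.JJ ^ 2 *
    (2 * D.n * D.T * D.pairSum j s (dist D.n (D.len ld)) +
      4 * D.n * pC D.h D.m * D.kap * j * D.RR j s * D.cs j s D.cX * D.den j s) +
    D.xi * D.T * D.den j s * D.usum Tm (fun g =>
      D.zeta j s g * (D.zeta j s g + pc0 D.h * D.T * j + 2 * D.Zp st j s g)) <
    D.xi * D.T * D.den j s * (2 * D.JJ) * D.usum Tm (D.zeta j s))

def setSt (st : List ℕ) (j s x : ℕ) : List ℕ :=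
  tab D.n fun v => if D.ht s v ≤ j then x else g1 st v

def addLd (ld : List ℕ) (j s : ℕ) : List ℕ := tab D.n fun v => g1 ld v + D.delta ld j s v

def aStep (Tm : List ℕ) (j : ℕ) (p : List ℕ × List ℕ) (s : ℕ) : List ℕ × List ℕ :=
  if g1 p.1 s = j + 2 then
    cond (D.rule Tm p.1 p.2 j s) (D.setSt p.1 j s (j + 1), D.addLd p.2 j s) (D.setSt p.1 j s 0, p.2)
  else p

def aLevel (Tm : List ℕ) (p : List ℕ × List ℕ) (j : ℕ) : List ℕ × List ℕ :=
  (List.range D.n).foldl (D.aStep Tm j) p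

def aPass (q : List ℕ × List ℕ) : List ℕ × List ℕ :=
  (List.range D.h).reverse.foldl (D.aLevel q.1) (tab D.n fun _ => D.h + 1, q.2)

def newTm (Tm st : List ℕ) : List ℕ :=
  (List.range D.n).filter fun v => decide (v ∈ Tm) || g1 st v == 1

def aRound (q : List ℕ × List ℕ) : List ℕ × List ℕ :=
  if D.usum q.1 (fun _ => 1) = 0 then q else (D.newTm q.1 (D.aPass q).1, (D.aPass q).2)

/-- The terminals and the final loads. -/
def stepA : List ℕ × List ℕ := (D.aRound)^[pR D.h] ([], [])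

end Ctx

theorem sz_tab_grow {n B : ℕ} {f : ℕ → ℕ} (l : List ℕ) (h : ∀ v < n, sz (f v) ≤ sz (g1 l v) + B) :
    sz (tab n f) ≤ sz l + n * (2 * B + 1) := by
  have h1 : ∀ n, sz (tab n f) = ∑ v ∈ range n, (2 * sz (f v) + 1) := by
    intro n
    induction n with
    | zero => simp [tab]
    | succ n ih =>
      rw [sum_range_succ, ← ih]
      simp [tab, List.range_succ]
  have h2 : ∀ (l : List ℕ) (n : ℕ), ∑ v ∈ range n, 2 * sz (g1 l v) ≤ sz l := by
    intro l
    induction l with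
    | nil => intro n; simp [g1, sz_nat]
    | cons x l ih =>
      intro n
      cases n with
      | zero => simp
      | succ n =>
        rw [sum_range_succ']
        have := ih n
        simp only [g1, List.getD_cons_succ, List.getD_cons_zero, sz_cons] at this ⊢
        omega
  rw [h1]
  calc _ ≤ ∑ v ∈ range n, (2 * sz (g1 l v) + (2 * B + 1)) :=
        sum_le_sum fun v hv => by have := h v (mem_range.1 hv); omega
    _ ≤ _ := by
        rw [sum_add_distrib]
        exact Nat.add_le_add (h2 l n) (by simp)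

theorem sz_foldl_le {σ γ : Type} [N487b59b3 σ] (f : σ → γ → σ) (G : ℕ) (l : List γ) (s : σ)
    (h : ∀ s, ∀ x ∈ l, sz (f s x) ≤ sz s + G) : sz (l.foldl f s) ≤ sz s + l.length * G := by
  induction l generalizing s with
  | nil => simp
  | cons x l ih =>
    have h1 := ih (f s x) fun s y hy => h s y (by simp [hy])
    have h2 := h s x (by simp)
    simp only [List.foldl_cons, List.length_cons]
    nlinarith

theorem sz_range_filter (n : ℕ) (p : ℕ → Bool) : sz ((List.range n).filter p) ≤ n * (2 * n + 1) := by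
  refine (sz_sublist List.filter_sublist).trans ?_
  have := sz_list_le (l := List.range n) (B := n) fun a ha =>
    (sz_nat_le a).trans (List.mem_range.1 ha).le
  simpa using this

namespace Ctx

variable (D : Ctx)

theorem sz_aStep (Tm : List ℕ) (j : ℕ) (p : List ℕ × List ℕ) (s : ℕ) :
    sz (D.aStep Tm j p s) ≤ sz p + D.n * (4 * sz j + 4 * D.n + 15) := by
  have h1 : ∀ x, sz x ≤ sz j + 2 → sz (D.setSt p.1 j s x) ≤ sz p.1 + D.n * (2 * (sz j + 2) + 1) :=
    fun x hx => sz_tab_grow _ fun v _ => by split_ifs <;> omega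
  have h2 : sz (D.addLd p.2 j s) ≤ sz p.2 + D.n * (2 * (2 * D.n + 2) + 1) :=
    sz_tab_grow _ fun v _ => by
      have h1 := sz_add_le (g1 p.2 v) (D.delta p.2 j s v)
      have h2 : sz (D.delta p.2 j s v) ≤ 2 * D.n + 1 := (sz_nat_le _).trans (min_le_right _ _)
      omega
  have h3 := h1 (j + 1) (by have := sz_add_le j 1; have := sz_nat_le 1; omega)
  have h4 := h1 0 (by have := sz_nat_le 0; omega)
  unfold aStep
  rw [sz_prod p]
  split_ifs
  · cases D.rule Tm p.1 p.2 j s <;> simp only [cond, sz_pair] <;> nlinarith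
  · rw [sz_prod p]; omega

theorem sz_aLevel (Tm : List ℕ) (p : List ℕ × List ℕ) (j : ℕ) :
    sz (D.aLevel Tm p j) ≤ sz p + D.n * (D.n * (4 * sz j + 4 * D.n + 15)) := by
  have := sz_foldl_le (D.aStep Tm j) _ (List.range D.n) p fun s x _ => D.sz_aStep Tm j s x
  rwa [List.length_range] at this

theorem sz_aLevel' (Tm : List ℕ) (p : List ℕ × List ℕ) (j : ℕ)
    (hj : j ∈ (List.range D.h).reverse) :
    sz (D.aLevel Tm p j) ≤ sz p + D.n * (D.n * (4 * D.h + 4 * D.n + 15)) := by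
  refine (D.sz_aLevel Tm p j).trans ?_
  have h1 := sz_nat_le j
  have h2 : j < D.h := by simpa using hj
  gcongr
  omega

theorem sz_aRound (q : List ℕ × List ℕ) :
    sz (D.aRound q) ≤ sz q + (2 * (D.n * (2 * D.n + 1)) + 2 * (D.n * (2 * (D.h + 1) + 1)) + 1 +
      D.h * (D.n * (D.n * (4 * D.h + 4 * D.n + 15)))) := by
  unfold aRound
  split_ifs
  · omega
  · have h1 := sz_foldl_le (D.aLevel q.1) _ (List.range D.h).reverse (tab D.n fun _ => D.h + 1, q.2)
      fun s x hx => D.sz_aLevel' q.1 s x hx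
    have h2 : sz (tab D.n fun _ => D.h + 1) ≤ D.n * (2 * (D.h + 1) + 1) :=
      sz_tab_le fun _ _ => sz_nat_le _
    have h3 : sz (D.newTm q.1 (D.aPass q).1) ≤ D.n * (2 * D.n + 1) := sz_range_filter _ _
    have h4 := sz_prod (D.aPass q)
    have h5 := sz_prod q
    simp only [List.length_reverse, List.length_range, sz_pair] at h1 ⊢
    change sz (D.aPass q) ≤ _ at h1
    omega

end Ctx

section
variable {D : α → Ctx} {j s u v g x : α → ℕ} {ld Tm st : α → List ℕ} {p : α → List ℕ × List ℕ}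

@[fun_prop] theorem ok_pt (hD : CPT D) (hj : PT j) (hs : PT s) :
    PT (fun a => (D a).ok (j a) (s a)) := by
  unfold Ctx.ok; fun_prop
@[fun_prop] theorem RR_pt (hD : CPT D) (hj : PT j) (hs : PT s) :
    PT (fun a => (D a).RR (j a) (s a)) := by
  unfold Ctx.RR; fun_prop
@[fun_prop] theorem mu'_pt (hD : CPT D) (hg : PT g) (hv : PT v) :
    PT (fun a => (D a).mu' (g a) (v a)) := by
  unfold Ctx.mu'; fun_prop
@[fun_prop] theorem coefv_pt (hD : CPT D) (hst : PT st) (hv : PT v) :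
    PT (fun a => (D a).coefv (st a) (v a)) := by
  unfold Ctx.coefv; fun_prop
@[fun_prop] theorem unc_pt (hD : CPT D) (hT : PT Tm) (hg : PT g) :
    PT (fun a => (D a).unc (Tm a) (g a)) := by
  unfold Ctx.unc; fun_prop
@[fun_prop] theorem usum_pt {f : α → ℕ → ℕ} (hD : CPT D) (hT : PT Tm)
    (hf : PT (fun p : α × ℕ => f p.1 p.2)) : PT (fun a => (D a).usum (Tm a) (f a)) := by
  unfold Ctx.usum; fun_prop
@[fun_prop] theorem zeta_pt (hD : CPT D) (hj : PT j) (hs : PT s) (hg : PT g) :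
    PT (fun a => (D a).zeta (j a) (s a) (g a)) := by
  unfold Ctx.zeta; fun_prop
@[fun_prop] theorem Zp_pt (hD : CPT D) (hst : PT st) (hj : PT j) (hs : PT s) (hg : PT g) :
    PT (fun a => (D a).Zp (st a) (j a) (s a) (g a)) := by
  unfold Ctx.Zp; fun_prop
@[fun_prop] theorem pairSum_pt {f : α → ℕ → ℕ → ℕ} (hD : CPT D) (hj : PT j) (hs : PT s)
    (hf : PT (fun p : α × ℕ × ℕ => f p.1 p.2.1 p.2.2)) :
    PT (fun a => (D a).pairSum (j a) (s a) (f a)) := by
  unfold Ctx.pairSum
  have : PT (fun p : (α × ℕ) × ℕ => f p.1.1 p.1.2 p.2) :=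
    hf.comp' (f := fun p : (α × ℕ) × ℕ => (p.1.1, p.1.2, p.2)) (by fun_prop)
  fun_prop
@[fun_prop] theorem den_pt (hD : CPT D) (hj : PT j) (hs : PT s) :
    PT (fun a => (D a).den (j a) (s a)) := by
  unfold Ctx.den; fun_prop
@[fun_prop] theorem delta_pt (hD : CPT D) (hl : PT ld) (hj : PT j) (hs : PT s) (hv : PT v) :
    PT (fun a => (D a).delta (ld a) (j a) (s a) (v a)) := by
  unfold Ctx.delta; fun_prop
@[fun_prop] theorem JJ_pt (hD : CPT D) : PT (fun a => (D a).JJ) := by
  unfold Ctx.JJ; fun_prop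
@[fun_prop] theorem bud_pt (hD : CPT D) : PT (fun a => (D a).bud) := by
  unfold Ctx.bud; fun_prop
@[fun_prop] theorem xi_pt (hD : CPT D) : PT (fun a => (D a).xi) := by
  unfold Ctx.xi; fun_prop
@[fun_prop] theorem rule_pt (hD : CPT D) (hT : PT Tm) (hst : PT st) (hl : PT ld) (hj : PT j)
    (hs : PT s) : PT (fun a => (D a).rule (Tm a) (st a) (ld a) (j a) (s a)) := by
  unfold Ctx.rule; fun_prop
@[fun_prop] theorem setSt_pt (hD : CPT D) (hst : PT st) (hj : PT j) (hs : PT s) (hx : PT x) :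
    PT (fun a => (D a).setSt (st a) (j a) (s a) (x a)) := by
  unfold Ctx.setSt; fun_prop
@[fun_prop] theorem addLd_pt (hD : CPT D) (hl : PT ld) (hj : PT j) (hs : PT s) :
    PT (fun a => (D a).addLd (ld a) (j a) (s a)) := by
  unfold Ctx.addLd; fun_prop
@[fun_prop] theorem aStep_pt (hD : CPT D) (hT : PT Tm) (hj : PT j) (hp : PT p) (hs : PT s) :
    PT (fun a => (D a).aStep (Tm a) (j a) (p a) (s a)) := by
  unfold Ctx.aStep; fun_prop
@[fun_prop] theorem aLevel_pt (hD : CPT D) (hT : PT Tm) (hp : PT p) (hj : PT j) :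
    PT (fun a => (D a).aLevel (Tm a) (p a) (j a)) :=
  PT.foldl_grow (f := fun a q s => (D a).aStep (Tm a) (j a) q s) (by fun_prop) (by fun_prop) hp
    (g := fun a => (D a).n * (4 * sz (j a) + 4 * (D a).n + 15)) (by fun_prop)
    fun a q s _ => (D a).sz_aStep _ _ _ _
@[fun_prop] theorem aPass_pt (hD : CPT D) (hp : PT p) : PT (fun a => (D a).aPass (p a)) :=
  PT.foldl_grow (f := fun a q j => (D a).aLevel (p a).1 q j) (by fun_prop) (by fun_prop)
    (by fun_prop) (g := fun a => (D a).n * ((D a).n * (4 * (D a).h + 4 * (D a).n + 15)))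
    (by fun_prop) fun a q j hj => (D a).sz_aLevel' _ _ _ hj
@[fun_prop] theorem newTm_pt (hD : CPT D) (hT : PT Tm) (hst : PT st) :
    PT (fun a => (D a).newTm (Tm a) (st a)) := by
  unfold Ctx.newTm; fun_prop
@[fun_prop] theorem aRound_pt (hD : CPT D) (hp : PT p) : PT (fun a => (D a).aRound (p a)) := by
  unfold Ctx.aRound; fun_prop
@[fun_prop] theorem stepA_pt (hD : CPT D) : PT (fun a => (D a).stepA) :=
  PT.iterate_grow (f := fun a q => (D a).aRound q) (by fun_prop) (by fun_prop) (by fun_prop)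
    (by fun_prop) (g := fun a => 2 * ((D a).n * (2 * (D a).n + 1)) +
      2 * ((D a).n * (2 * ((D a).h + 1) + 1)) + 1 +
      (D a).h * ((D a).n * ((D a).n * (4 * (D a).h + 4 * (D a).n + 15)))) (by fun_prop)
    fun a q => (D a).sz_aRound q

end

end Pool.Agent.Lib.MP_fec922_lc
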