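import Pool.Agent.Lib.MP_fec922_lc.FinalA

/-!
Connection of the terminals: repeatedly join a closest pair by a shortest path for exponential
vertex weights.
-/

namespace Pool.Agent.Lib.MP_fec922_lc

open Finset Pool.Agent.Shared.PolyTime

attribute [local fun_prop] PB.comp

variable {α : Type} [N487b59b3 α]

def pairs (U : List ℕ) : List (ℕ × ℕ) :=
  U.flatMap fun a => (U.filter fun b => b != a).map fun b => (a, b)

theorem mem_pairs {U : List ℕ} {e : ℕ × ℕ} : e ∈ pairs U ↔ e.1 ∈ U ∧ e.2 ∈ U ∧ e.2 ≠ e.1 := by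
  obtain ⟨a, b⟩ := e
  simp [pairs]

@[fun_prop] theorem pairs_pt {U : α → List ℕ} (hU : PT U) : PT (fun a => pairs (U a)) := by
  unfold pairs; fun_prop

/-- Connectivity along the darts of `H`, in both directions. -/
def Conn (H : List (ℕ × ℕ)) : ℕ → ℕ → Prop :=
  Relation.ReflTransGen fun u v => (u, v) ∈ H ∨ (v, u) ∈ H

theorem Conn.mono {H H' : List (ℕ × ℕ)} (h : ∀ e ∈ H, e ∈ H') {a b : ℕ} (c : Conn H a b) :
    Conn H' a b := by
  induction c with
  | refl => exact Relation.ReflTransGen.refl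
  | tail _ h' ih => exact ih.tail (h'.imp (h _) (h _))

theorem Conn.symm {H : List (ℕ × ℕ)} {a b : ℕ} (c : Conn H a b) : Conn H b a := by
  induction c with
  | refl => exact Relation.ReflTransGen.refl
  | tail _ h' ih => exact Relation.ReflTransGen.head h'.symm ih

theorem Ch.conn {a z : ℕ} {l : List (ℕ × ℕ)} (h : Ch a l z) : Conn l a z := by
  induction h with
  | nil => exact Relation.ReflTransGen.refl
  | cons a b l z _ ih =>
    exact Relation.ReflTransGen.head (Or.inl (by simp))
      (Conn.mono (fun e he => List.mem_cons_of_mem _ he) ih)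

namespace Ctx

variable (D : Ctx)

def lamB (H : List (ℕ × ℕ)) (v : ℕ) : ℕ :=
  ew (psigB D.n D.h D.m * D.b v) (pcapB D.n D.h D.m) (inc v H)

def lenB (H : List (ℕ × ℕ)) (u v : ℕ) : ℕ :=
  psigB D.n D.h D.m * D.n * D.c u v + D.lamB H u + D.lamB H v

def bJoin (q : List ℕ × List (ℕ × ℕ)) (e : ℕ × ℕ) : List ℕ × List (ℕ × ℕ) :=
  (q.1.filter fun v => v != e.1, q.2 ++ path D.n (D.lenB q.2) e.1 e.2)

def bStep (q : List ℕ × List (ℕ × ℕ)) : List ℕ × List (ℕ × ℕ) :=
  lcase (pairs q.1) q fun x xs => D.bJoin q (amin (fun e => dist D.n (D.lenB q.2) e.1 e.2) x xs)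

def stepB (Tm : List ℕ) : List ℕ × List (ℕ × ℕ) :=
  (D.bStep)^[D.n] ((List.range D.n).filter fun v => decide (v ∈ Tm), [])

theorem bStep_cases (q : List ℕ × List (ℕ × ℕ)) : (pairs q.1 = [] ∧ D.bStep q = q) ∨
    ∃ e ∈ pairs q.1, D.bStep q = D.bJoin q e ∧
      ∀ e' ∈ pairs q.1, dist D.n (D.lenB q.2) e.1 e.2 ≤ dist D.n (D.lenB q.2) e'.1 e'.2 := by
  unfold bStep
  cases h : pairs q.1 with
  | nil => exact Or.inl ⟨rfl, rfl⟩
  | cons x xs =>
    refine Or.inr ⟨_, ?_, rfl, fun e' he' => ?_⟩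
    · exact List.mem_cons.2 (amin_mem _ x xs)
    · have := amin_le (fun e : ℕ × ℕ => dist D.n (D.lenB q.2) e.1 e.2) x xs
      rcases List.mem_cons.1 he' with rfl | he'
      · exact this.1
      · exact this.2 _ he'

end Ctx

section
variable {D : α → Ctx} {u v : α → ℕ} {H : α → List (ℕ × ℕ)} {q : α → List ℕ × List (ℕ × ℕ)}

@[fun_prop] theorem lamB_pt (hD : CPT D) (hH : PT H) (hv : PT v) :
    PT (fun a => (D a).lamB (H a) (v a)) := by
  unfold Ctx.lamB; fun_prop
@[fun_prop] theorem lenB_pt (hD : CPT D) (hH : PT H) (hu : PT u) (hv : PT v) :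
    PT (fun a => (D a).lenB (H a) (u a) (v a)) := by
  unfold Ctx.lenB; fun_prop
@[fun_prop] theorem bJoin_pt {e : α → ℕ × ℕ} (hD : CPT D) (hq : PT q) (he : PT e) :
    PT (fun a => (D a).bJoin (q a) (e a)) := by
  unfold Ctx.bJoin; fun_prop
@[fun_prop] theorem bStep_pt (hD : CPT D) (hq : PT q) : PT (fun a => (D a).bStep (q a)) := by
  unfold Ctx.bStep; fun_prop
@[fun_prop] theorem stepB_pt {Tm : α → List ℕ} (hD : CPT D) (hT : PT Tm) :
    PT (fun a => (D a).stepB (Tm a)) := by
  unfold Ctx.stepB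
  refine iterate_ind (f := fun a q => (D a).bStep q) (by fun_prop) (by fun_prop) (by fun_prop)
    (by fun_prop) (fun a i q => (∀ v ∈ q.1, v < (D a).n) ∧ sz q.1 ≤ (D a).n * (2 * (D a).n + 1) ∧
      sz q.2 ≤ i * ((D a).n * (6 * (D a).n + 3)))
    (fun a => ⟨fun v hv => List.mem_range.1 (List.mem_of_mem_filter hv), sz_range_filter _ _,
      by simp⟩) (fun a i q h => ?_)
    (B := fun a => 2 * ((D a).n * (2 * (D a).n + 1)) + 1 + (D a).n * ((D a).n * (6 * (D a).n + 3)))
    (by fun_prop) fun a i q hi h => ?_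
  · rcases (D a).bStep_cases q with ⟨-, e⟩ | ⟨e, he, e', -⟩
    · rw [e]
      exact ⟨h.1, h.2.1, h.2.2.trans (Nat.mul_le_mul_right _ (by omega))⟩
    · rw [e', Ctx.bJoin]
      refine ⟨fun v hv => h.1 v (List.mem_of_mem_filter hv),
        (sz_sublist List.filter_sublist).trans h.2.1, ?_⟩
      rw [sz_append, add_mul, one_mul]
      exact Nat.add_le_add h.2.2 (sz_path _ _ (h.1 _ (mem_pairs.1 he).1) (h.1 _ (mem_pairs.1 he).2.1))
  · rw [sz_prod]
    have := Nat.mul_le_mul_right ((D a).n * (6 * (D a).n + 3)) hi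
    omega

end

namespace Ctx

variable {D : Ctx}

theorem moat {x : ℕ → ℕ → ℝ} (hx : ∀ u w, 0 ≤ x u w) {len : ℕ → ℕ → ℕ}
    (hs : ∀ u < D.n, ∀ v < D.n, len u v = len v u) (A : (ℕ → ℝ) → ℝ) {U : List ℕ} (hU : U.Nodup)
    (hT : ∀ t ∈ U, t < D.n ∧ ∀ f, |f t - A f| ≤ D.NN x f) {e : ℕ × ℕ} (he : e ∈ pairs U) {r : ℕ}
    (hr : ∀ e' ∈ pairs U, r ≤ dist D.n len e'.1 e'.2) :
    (U.length : ℝ) * r ≤ 8 * ∑ u ∈ range D.n, ∑ w ∈ range D.n, x u w * len u w := by
  set f : ℕ → ℕ → ℝ := fun t v => ((r - 2 * dist D.n len t v : ℕ) : ℝ) with hf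
  have h1 : ∀ t ∈ U.toFinset, (r : ℝ) ≤ 2 * D.NN x (f t) := by
    intro t ht
    have ht := List.mem_toFinset.1 ht
    obtain ⟨t', ht', hne⟩ : ∃ t' ∈ U, t' ≠ t := by
      obtain ⟨a1, a2, a3⟩ := mem_pairs.1 he
      by_cases h : e.1 = t
      · exact ⟨e.2, a2, h ▸ a3⟩
      · exact ⟨e.1, a1, h⟩
    have h2 := (hT t ht).2 (f t)
    have h3 := (hT t' ht').2 (f t)
    have h4 : f t t = r := by simp [hf, dist_self len (hT t ht).1]
    have h5 : f t t' = 0 := by
      have := hr (t, t') (mem_pairs.2 ⟨ht, ht', hne⟩)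
      simp only [hf, Nat.cast_eq_zero] at this ⊢
      omega
    rw [h4] at h2
    rw [h5] at h3
    have := abs_le.1 h2
    have := abs_le.1 h3
    linarith
  have h2 : ∀ u < D.n, ∑ t ∈ U.toFinset, (if 2 * dist D.n len t u < r then (1 : ℝ) else 0) ≤ 1 := by
    intro u hu
    rw [sum_boole]
    refine Nat.cast_le_one.2 (card_le_one.2 fun a ha b hb => ?_)
    simp only [mem_filter, List.mem_toFinset] at ha hb
    by_contra hne
    have a1 := hr (a, b) (mem_pairs.2 ⟨ha.1, hb.1, Ne.symm hne⟩)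
    have a2 := dist_triangle len (hT a ha.1).1 hu (hT b hb.1).1
    have a3 := dist_symm hs hu (hT b hb.1).1
    simp only at a1
    omega
  calc (U.length : ℝ) * r = ∑ _t ∈ U.toFinset, (r : ℝ) := by
        rw [sum_const, List.toFinset_card_of_nodup hU, nsmul_eq_mul]
    _ ≤ ∑ t ∈ U.toFinset, 2 * D.NN x (f t) := sum_le_sum h1
    _ = ∑ u ∈ range D.n, ∑ w ∈ range D.n, 2 * x u w * ∑ t ∈ U.toFinset, |f t u - f t w| := by
        simp only [NN, mul_sum]
        rw [sum_comm]
        refine sum_congr rfl fun u _ => ?_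
        rw [sum_comm]
        exact sum_congr rfl fun w _ => sum_congr rfl fun t _ => by ring
    _ ≤ _ := by
        simp only [mul_sum (s := range D.n)]
        refine sum_le_sum fun u hu => sum_le_sum fun w hw => ?_
        have hu := mem_range.1 hu
        have hw := mem_range.1 hw
        have h3 : ∑ t ∈ U.toFinset, |f t u - f t w| ≤ ∑ t ∈ U.toFinset, 2 * len u w *
            ((if 2 * dist D.n len t u < r then (1 : ℝ) else 0) +
              (if 2 * dist D.n len t w < r then (1 : ℝ) else 0)) := by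
          refine sum_le_sum fun t ht => ?_
          have ht := (hT t (List.mem_toFinset.1 ht)).1
          have a1 := dist_triangle len ht hu hw
          have a2 := dist_triangle len ht hw hu
          have a3 := dist_le_len len hu hw
          have a4 := dist_le_len len hw hu
          rw [hs w hw u hu] at a4
          have a5 : ((r - 2 * dist D.n len t u : ℕ) : ℝ) ≤ (r - 2 * dist D.n len t w : ℕ) +
              2 * len u w := by exact_mod_cast (by omega)
          have a6 : ((r - 2 * dist D.n len t w : ℕ) : ℝ) ≤ (r - 2 * dist D.n len t u : ℕ) +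
              2 * len u w := by exact_mod_cast (by omega)
          have a7 : |f t u - f t w| ≤ 2 * len u w := abs_le.2 ⟨by simp only [hf]; linarith,
            by simp only [hf]; linarith⟩
          have a8 := Nat.cast_nonneg (α := ℝ) (len u w)
          split_ifs with b1 b2 b3
          · linarith
          · linarith
          · linarith
          · simp only [hf]
            rw [Nat.sub_eq_zero_of_le (by omega), Nat.sub_eq_zero_of_le (by omega)]
            simp
        rw [← mul_sum, sum_add_distrib] at h3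
        have h4 := mul_le_mul_of_nonneg_left (add_le_add (h2 u hu) (h2 w hw))
          (show (0 : ℝ) ≤ 2 * len u w by positivity)
        have h5 := mul_le_mul_of_nonneg_left (h3.trans h4)
          (show 0 ≤ 2 * x u w by have := hx u w; positivity)
        linarith

theorem sum_len (x : ℕ → ℕ → ℝ) (k : ℕ) (lam : ℕ → ℕ) :
    ∑ u ∈ range D.n, ∑ w ∈ range D.n, x u w * ((k * D.c u w + lam u + lam w : ℕ) : ℝ) =
      k * D.xcost x + ∑ v ∈ range D.n, lam v * D.xdeg x v := by
  simp only [xcost, xdeg, mul_sum]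
  rw [sum_comm (f := fun v u => ∑ w ∈ range D.n, (lam v : ℝ) * _), ← sum_add_distrib]
  refine sum_congr rfl fun u hu => ?_
  rw [sum_comm (f := fun v w => (lam v : ℝ) * _), ← sum_add_distrib]
  refine sum_congr rfl fun w hw => ?_
  simp only [mul_add, mul_ite, mul_one, mul_zero, sum_add_distrib, sum_ite_eq, hu, hw, if_true]
  push_cast
  ring

theorem harmonic_le {n h : ℕ} (hh : 0 < h) (hn : n ≤ 2 ^ (h - 1)) : (harmonic n : ℝ) ≤ h := by
  refine (harmonic_le_one_add_log n).trans ?_
  have h1 : Real.log n ≤ Real.log ((2 : ℝ) ^ (h - 1)) := by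
    rcases Nat.eq_zero_or_pos n with rfl | h0
    · simp only [Nat.cast_zero, Real.log_zero]
      exact Real.log_nonneg (one_le_pow₀ (by norm_num))
    · exact Real.log_le_log (by exact_mod_cast h0) (by exact_mod_cast hn)
  rw [Real.log_pow] at h1
  have h2 : Real.log 2 ≤ 1 := by have := Real.log_two_lt_d9; linarith
  have h3 := mul_le_mul_of_nonneg_left h2 (Nat.cast_nonneg (α := ℝ) (h - 1))
  rw [Nat.cast_sub hh] at h1 h3
  push_cast at h1 h3
  linarith

theorem harmonic_mono {a b : ℕ} (h : a ≤ b) : (harmonic a : ℝ) ≤ harmonic b := by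
  have : harmonic a ≤ harmonic b :=
    sum_le_sum_of_subset_of_nonneg (range_mono h) fun _ _ _ => by positivity
  exact_mod_cast this

theorem Good.stepB_spec (G : D.Good) (hn : D.n ≤ 2 ^ (D.h - 1)) {x : ℕ → ℕ → ℝ}
    (hx : ∀ u w, 0 ≤ x u w) (hdeg : ∀ v < D.n, D.xdeg x v ≤ pK2 D.n D.h D.m * D.b v)
    (hcost : D.xcost x ≤ pK1 D.h D.m * D.n) (A : (ℕ → ℝ) → ℝ) {Tm : List ℕ}
    (hT : ∀ t ∈ Tm, t < D.n ∧ ∀ f, |f t - A f| ≤ D.NN x f) :
    In D.n (D.stepB Tm).2 ∧ (∀ a ∈ Tm, ∀ b ∈ Tm, Conn (D.stepB Tm).2 a b) ∧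
      wt D.c (D.stepB Tm).2 ≤ palpha D.h D.m * D.n ∧
      ∀ v < D.n, inc v (D.stepB Tm).2 ≤ pbeta D.n D.h D.m * D.b v := by
  set Hs := (D.stepB Tm).2 with hHs
  set s := psigB D.n D.h D.m with hs
  set L := ∑ v ∈ range D.n, D.lamB Hs v * D.b v with hL
  set B : ℝ := s * D.n * (pK1 D.h D.m * D.n) + pK2 D.n D.h D.m * L with hB
  set P : List (ℕ × ℕ) → ℕ := fun H => ∑ v ∈ range D.n,
    psi (s * D.b v) (pcapB D.n D.h D.m) (inc v H) + 2 * (s * D.n * wt D.c H) with hP
  have hK2 : 0 < pK2 D.n D.h D.m := by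
    have h1 := psig_ge G.hh G.hm
    have h2 : 0 < pcap D.n D.h D.m := by
      have := G.hn
      rw [pcap, sz_nat, Nat.size_pos, plam]; positivity
    unfold pK2; positivity
  have hs2 : 2 ≤ s := by
    have := Nat.mul_pos G.hh hK2
    rw [hs, psigB, mul_assoc]; omega
  have hB0 : 0 ≤ B := by positivity
  have key := iterate_induction D.bStep ((List.range D.n).filter fun v => decide (v ∈ Tm), [])
    (fun i q => q.1.Nodup ∧ (∀ v ∈ q.1, v ∈ Tm) ∧ In D.n q.2 ∧
      (∀ t ∈ Tm, ∃ u ∈ q.1, Conn q.2 t u) ∧ (pairs q.1 = [] ∨ q.1.length + i ≤ D.n) ∧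
      ((∀ v < D.n, inc v q.2 ≤ inc v Hs) →
        P q.2 + 16 * B * harmonic q.1.length ≤ s * D.n * D.n + 16 * B * harmonic D.n))
    ⟨List.nodup_range.filter _, fun v hv => by simpa using List.of_mem_filter hv, by simp [In],
      fun t ht => ⟨t, by simp [ht, (hT t ht).1], Relation.ReflTransGen.refl⟩,
      Or.inr ((List.length_filter_le _ _).trans (by simp)), fun _ => by
        have h1 : P [] ≤ s * D.n * D.n := by
          simp only [hP, inc_nil, psi_zero, wt_nil, mul_zero, add_zero]
          refine (sum_le_card_nsmul _ _ (s * D.n) fun v hv => ?_).trans (by simp [mul_comm])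
          exact Nat.mul_le_mul_left _ (G.hb v (mem_range.1 hv)).2
        have h2 := harmonic_mono (b := D.n) ((List.length_filter_le (fun v => decide (v ∈ Tm))
          (List.range D.n)).trans (by simp))
        have h3 : (P [] : ℝ) ≤ s * D.n * D.n := by exact_mod_cast h1
        have := mul_le_mul_of_nonneg_left h2 (show 0 ≤ 16 * B by positivity)
        linarith⟩
    (fun i q ⟨a1, a2, a3, a4, a5, a6⟩ => by
      rcases D.bStep_cases q with ⟨e0, e⟩ | ⟨e, he, e', hmin⟩
      · rw [e]
        exact ⟨a1, a2, a3, a4, Or.inl e0, a6⟩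
      obtain ⟨b1, b2, b3⟩ := mem_pairs.1 he
      have c1 := (hT _ (a2 _ b1)).1
      have c2 := (hT _ (a2 _ b2)).1
      have hlen : (q.1.filter fun v => v != e.1).length < q.1.length :=
        List.length_filter_lt_length_iff_exists.2 ⟨e.1, b1, by simp⟩
      rw [e', bJoin]
      refine ⟨a1.filter _, fun v hv => a2 v (List.mem_of_mem_filter hv),
        a3.append (path_in _ c1 c2), fun t ht => ?_, Or.inr ?_, fun hl => ?_⟩
      · obtain ⟨u, hu, c⟩ := a4 t ht
        have c' := c.mono (H' := q.2 ++ path D.n (D.lenB q.2) e.1 e.2)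
          fun e he => List.mem_append_left _ he
        by_cases h : u = e.1
        · refine ⟨e.2, by simp [b2, b3], c'.trans ?_⟩
          rw [h]
          exact (path_ch _ c1 c2).conn.mono fun e he => List.mem_append_right _ he
        · exact ⟨u, by simp [hu, h], c'⟩
      · rcases a5 with a5 | a5
        · rw [a5] at he; simp at he
        · simp only; omega
      · have hl' : ∀ v < D.n, inc v q.2 ≤ inc v Hs := fun v hv => by
          have := hl v hv
          simp only [inc_append] at this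
          omega
        have d1 := a6 hl'
        have d2 : P (q.2 ++ path D.n (D.lenB q.2) e.1 e.2) ≤
            P q.2 + 2 * dist D.n (D.lenB q.2) e.1 e.2 := by
          have d3 := wt_split (s * D.n) D.c (D.lamB q.2) (path_in (D.lenB q.2) c1 c2)
          change dist D.n (D.lenB q.2) e.1 e.2 = _ at d3
          have d4 : ∑ v ∈ range D.n, psi (s * D.b v) (pcapB D.n D.h D.m)
              (inc v (q.2 ++ path D.n (D.lenB q.2) e.1 e.2)) ≤
              ∑ v ∈ range D.n, (psi (s * D.b v) (pcapB D.n D.h D.m) (inc v q.2) +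
                2 * (D.lamB q.2 v * inc v (path D.n (D.lenB q.2) e.1 e.2))) := by
            refine sum_le_sum fun v hv => ?_
            rw [inc_append]
            refine (psi_add _ _ _ _ ?_).trans (le_of_eq (by unfold lamB; ring))
            have := Nat.mul_le_mul hs2 (G.hb v (mem_range.1 hv)).1
            exact (path_inc _ c1 c2 v).trans this
          rw [sum_add_distrib, ← mul_sum] at d4
          simp only [hP, wt_append, d3, mul_add]
          omega
        have d3 := moat hx (len := D.lenB q.2) (fun u hu v hv => by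
          unfold lenB; rw [G.hc u hu v hv]; omega) A a1 (fun t ht => hT t (a2 t ht)) he hmin
        have d4 : ∑ u ∈ range D.n, ∑ w ∈ range D.n, x u w * D.lenB q.2 u w ≤ B := by
          refine (sum_len x (s * D.n) (D.lamB q.2)).le.trans ?_
          rw [hB, hL]
          push_cast
          rw [mul_sum]
          refine add_le_add (mul_le_mul_of_nonneg_left hcost (by positivity))
            (sum_le_sum fun v hv => ?_)
          have d5 : (D.lamB q.2 v : ℝ) ≤ D.lamB Hs v := by
            exact_mod_cast ew_mono _ _ (hl' v (mem_range.1 hv))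
          calc _ ≤ (D.lamB q.2 v : ℝ) * (pK2 D.n D.h D.m * D.b v) :=
                mul_le_mul_of_nonneg_left (hdeg v (mem_range.1 hv)) (by positivity)
            _ ≤ D.lamB Hs v * (pK2 D.n D.h D.m * D.b v) := by gcongr
            _ = _ := by ring
        obtain ⟨u, hu⟩ : ∃ u, q.1.length = u + 1 := ⟨q.1.length - 1, by omega⟩
        have d5 := mul_le_mul_of_nonneg_left (harmonic_mono (show
          (q.1.filter fun v => v != e.1).length ≤ u by omega)) (show 0 ≤ 16 * B by positivity)
        rw [hu] at d1 d3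
        rw [harmonic_succ] at d1
        have d6 : (P (q.2 ++ path D.n (D.lenB q.2) e.1 e.2) : ℝ) ≤
            P q.2 + 2 * dist D.n (D.lenB q.2) e.1 e.2 := by exact_mod_cast d2
        have d7 : (dist D.n (D.lenB q.2) e.1 e.2 : ℝ) ≤ 8 * B * ((u + 1 : ℕ) : ℝ)⁻¹ := by
          rw [← div_eq_mul_inv, le_div_iff₀ (by positivity)]
          linarith
        push_cast at d1 d7
        simp only
        linarith) D.n
  obtain ⟨a1, a2, a3, a4, a5, a6⟩ := key
  change pairs (D.stepB Tm).1 = [] ∨ (D.stepB Tm).1.length + _ ≤ _ at a5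
  change ∀ t ∈ Tm, ∃ u ∈ (D.stepB Tm).1, Conn Hs t u at a4
  have a7 := a6 fun _ _ => le_rfl
  change (P Hs : ℝ) + _ ≤ _ at a7
  have h1 : s * L ≤ ∑ v ∈ range D.n, psi (s * D.b v) (pcapB D.n D.h D.m) (inc v Hs) := by
    rw [hL, mul_sum]
    refine sum_le_sum fun v hv => ?_
    have := (G.hb v (mem_range.1 hv)).1
    refine le_trans (le_of_eq ?_) (psi_ge _ _ _ (by positivity))
    unfold lamB; ring
  have h2 : s * L + 4 * (s * D.n * wt D.c Hs) ≤
      2 * (s * D.n * D.n) + 32 * D.h * (s * D.n * (pK1 D.h D.m * D.n)) := by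
    have b1 := mul_le_mul_of_nonneg_left (harmonic_le G.hh hn) (show 0 ≤ 16 * B by positivity)
    have b2 := mul_le_mul_of_nonneg_left (harmonic_mono (Nat.zero_le
      (D.bStep^[D.n] ((List.range D.n).filter fun v => decide (v ∈ Tm), [])).1.length))
      (show 0 ≤ 16 * B by positivity)
    have b3 : ((s * L + 2 * (s * D.n * wt D.c Hs) : ℕ) : ℝ) ≤ P Hs :=
      Nat.cast_le.2 (Nat.add_le_add_right h1 _)
    have b4 : (s : ℝ) = 32 * D.h * pK2 D.n D.h D.m := by rw [hs, psigB]; push_cast; ring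
    have b5 : 2 * (16 * B * D.h) = 32 * D.h * (s * D.n * (pK1 D.h D.m * D.n)) + s * L := by
      rw [hB]
      linear_combination (-(L : ℝ)) * b4
    rw [← Nat.cast_le (α := ℝ)]
    simp only [harmonic_zero, Rat.cast_zero, mul_zero] at b2
    push_cast at b3 ⊢
    linarith
  have hn0 := G.hn
  refine ⟨a3, fun a ha b hb => ?_, ?_, fun v hv => ?_⟩
  · obtain ⟨u, hu, c⟩ := a4 a ha
    obtain ⟨u', hu', c'⟩ := a4 b hb
    have : u' = u := by
      by_contra hne
      have b1 : (u, u') ∈ pairs (D.stepB Tm).1 := mem_pairs.2 ⟨hu, hu', hne⟩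
      rcases a5 with a5 | a5
      · rw [a5] at b1; simp at b1
      · have := List.length_pos_of_mem hu
        omega
    exact c.trans (this ▸ c'.symm)
  · refine Nat.le_of_mul_le_mul_left ?_ (show 0 < 4 * (s * D.n) by positivity)
    unfold palpha
    nlinarith [Nat.zero_le (s * L), Nat.zero_le (s * D.n * D.n)]
  · have b1 : L ≤ plamB D.n D.h D.m := by
      refine Nat.le_of_mul_le_mul_left ?_ (show 0 < s by omega)
      unfold plamB
      nlinarith [Nat.zero_le (s * D.n * wt D.c Hs)]
    have hb := (G.hb v hv).1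
    have b2 : D.lamB Hs v ≤ plamB D.n D.h D.m := by
      refine le_trans ?_ b1
      refine le_trans ?_ (single_le_sum (f := fun v => D.lamB Hs v * D.b v)
        (fun _ _ => Nat.zero_le _) (mem_range.2 hv))
      exact Nat.le_mul_of_pos_right _ hb
    have b3 := lt_of_ew_le (by positivity) b2 (lt_two_pow_sz _)
    exact b3.le.trans (le_of_eq (by unfold pbeta pcapB; ring))

end Ctx

end Pool.Agent.Lib.MP_fec922_lc
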